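import Pool.Agent.T9h42.GF.Spec
import Pool.Agent.H39R2.Gon.Base

/-!
# The count theorem, typical points and the endgame: statements
-/

set_option autoImplicit false

namespace Pool.Agent.T9h42.GF

open Polynomial Finset H39Gon

/-- index set of the slots: `none` for `c`, `inl` for the factors of `a`, `inr` for those of `b`. -/
abbrev Ix (N s : ℕ) : Type := Option (Fin N ⊕ Fin s)

section slots

variable {k : Type} [Field k] [Fintype k]

/-- the slots; `K D` is the set of monic polynomials of degree `D` prime to the bad primes. -/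
def Sl (K : ℕ → Finset k[X]) (N s d e L : ℕ) : Ix N s → Finset k[X]
  | none => K L
  | some (Sum.inl _) => K d
  | some (Sum.inr _) => K e

/-- points of a slot. -/
abbrev Pt (K : ℕ → Finset k[X]) (N s d e L : ℕ) (i : Ix N s) : Type :=
  {x : k[X] // x ∈ Sl K N s d e L i}

open Classical in
/-- weight of the solutions of `α a + β b = c`, `a = ∏ x_i`, `b = ∏ y_j`. -/
noncomputable def Wf (K : ℕ → Finset k[X]) (α β : k[X]) (N s d e L : ℕ)
    (x : ∀ i, Pt K N s d e L i) : ℝ :=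
  if α * ∏ i, (x (some (Sum.inl i))).1 + β * ∏ j, (x (some (Sum.inr j))).1 = (x none).1
  then ((K L).card : ℝ) else 0

end slots

/-- the count theorem. -/
def CountThm : Prop :=
  ∀ (k : Type) [Field k] [Fintype k] (r : ℕ) (ε : ℝ), 1 ≤ r → 0 < ε → ∃ w : ℕ,
    ∀ (α β : k[X]), α.Monic → β.Monic → IsCoprime α β →
      (∀ π : k[X], Irreducible π → π.natDegree ≤ w → π ∣ α * β) →
    ∀ j : ℕ, β.natDegree < α.natDegree + 2 * r * j → ∃ d₀ : ℕ, ∀ d : ℕ, d₀ ≤ d →
    ∀ K : ℕ → Finset k[X], K = Cop (α * β) →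
      (∀ i, Nonempty (Pt K (2 * r * (2 * r + 2)) (2 * r) d ((2 * r + 2) * d - j)
        (α.natDegree + 2 * r * (2 * r + 2) * d) i)) ∧
      ∀ U : Finset (Ix (2 * r * (2 * r + 2)) (2 * r)), U.card ≤ 2 * r →
        av (fun x => |ce U (Wf K α β (2 * r * (2 * r + 2)) (2 * r) d ((2 * r + 2) * d - j)
          (α.natDegree + 2 * r * (2 * r + 2) * d)) x - 1|) ≤ ε

/-- class in `F^*` (`F = k(x)`) of a polynomial. -/
noncomputable def pc {k : Type} [Field k] (a : k[X]) : UV (RatFunc k) :=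
  cl (algebraMap k[X] (RatFunc k) a)

/-- typical points. -/
def TP : Prop :=
  ∀ (k : Type) [Field k] [Fintype k] (m : ℕ), ∃ w : ℕ,
    ∀ Q : MultilinearMap ℤ (fun _ : Fin (m + 1) => UV (RatFunc k)) (UV (RatFunc k) →ₗ[ℤ] ℚ),
      (∀ f : RatFunc k, f ≠ 0 → f ≠ 1 → Q (fun _ => cl f) (cl (1 - f)) = 0) →
    ∀ (I : Type) [Fintype I] (α β : I → k[X]) (A₀ : ℕ), Fintype.card I ≤ 2 ^ (m + 2) →
      (∀ i, (α i).Monic ∧ (β i).Monic ∧ IsCoprime (α i) (β i) ∧ (α i).natDegree = A₀) →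
      (∀ i, ∀ π : k[X], Irreducible π → π.natDegree ≤ w → π ∣ α i * β i) →
      (∀ i j x, IsCoprime x (α i * β i) ↔ IsCoprime x (α j * β j)) →
      ∃ a b c : k[X], a ≠ 0 ∧ b ≠ 0 ∧ c ≠ 0 ∧
        ∀ i, Q (fun _ => pc a + pc (α i) - pc b - pc (β i)) (pc c - pc b - pc (β i)) = 0

/-- PIECE `TPofCount`. With `r = m + 2`, `δ` from `Robust` for `n = 1 + N + s`
(`N = 2r(2r+2)`, `s = 2r`), `η = 1/2^(m+3)`, and `w` from `CountThm` for `ε = δ`.
For each `i` the function `F_i(x) = Q(∑ pc x_i + pc α - ∑ pc y_j - pc β, ...; pc c - ∑ pc y_j - pc β)`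
on `∏ Pt K ...` (`K = Cop (α i * β i)`, the same for all `i`) has degree `≤ m + 2` (expand the
multilinear map), and vanishes when `Wf ≠ 0`: apply the hypothesis on `Q` to `f = -αa/(βb)`,
`1 - f = c/(βb)` (`cl (-1)` is torsion, so `Q` kills it). Choose `j` with
`deg β_i < A₀ + 2 r j` for all `i`, and `d` large. Union bound over `i`. -/
def TPofCount : Prop := Robust → CountThm → TP

/-- PIECE `EndGame`. Let `Z` be the set of monic irreducible polynomials (infinite),
`B_v(w) = Q(w,...,w;v)`, `S(L;v) = dl B_v L 0` (`L` a list of `m+1` vectors; multi-additive and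
symmetric by `Pol1`), `s(M;p) = S(M.toList.map pc; pc p) / (∏_{q ∈ M} deg q * deg p)`.
The hypothesis of `Comb` for `s`: given `P`, `N` (`|P| + |N| = m+2`) let `bg` be the product of all
monic irreducible polynomials of degree `≤ w` which do not occur in `P`, `N` and for
`ε ∈ {0,1}^(P ⊔ N)`: `α_ε = bg * ∏_{(σ,σ') ∈ P} σ σ' (σ^(deg σ') if ε = 1, σ'^(deg σ) if ε = 0)`,
`β_ε = ∏_{v ∈ N} v^(1+ε_v)`. Then `deg α_ε` is constant and the same primes divide all
`α_ε β_ε`. By `TP` there are `a, b, c` with `Q(pc a + pc α_ε - pc b - pc β_ε, ...; pc c - pc b - pc β_ε) = 0`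
for all `ε`, i.e. `(w,v) ↦ Q(w,..,w;v)` vanishes on the cube
`(g,h) + ∑ ε_i (z_i, z'_i)`, with `(z,z') = (deg σ' pc σ - deg σ pc σ', 0)` for the pairs,
`(-pc v, -pc v)` for `v ∈ N`. So `dl2 ... = 0` and `Pol2` gives the hypothesis of `Comb` (all terms
have the same sign `(-1)^|N|`). By `Comb` `s = 0`, so `S(pc p_1, ..., pc p_{m+1}; pc p) = 0` for all
primes, hence for all vectors (`F^*` is generated by `Z` and torsion elements), and
`(m+1)! Q(w,...,w;v) = S(w,...,w;v) = 0`. -/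
def EndGame : Prop :=
  Comb → Pol1 → Pol2 → TP → ∀ (k : Type) [Field k] [Fintype k] (m : ℕ), SpanDual (RatFunc k) m

end Pool.Agent.T9h42.GF
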