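import Pool.Agent.T9h42.GF.Spec3

/-!
# The core estimate, part 1: conversions and elementary consequences of the pieces
-/

set_option autoImplicit false

namespace Pool.Agent.T9h42.GF

open Polynomial Finset

section conv

variable {T : Type}

open Classical in
theorem ncard_sep (S : Finset T) (P : T → Prop) :
    {x ∈ (S : Set T) | P x}.ncard = (S.filter P).card := by
  rw [← Set.ncard_coe_finset, Finset.coe_filter]
  congr 1

open Classical in
theorem ncard_pi {R : Type} (S : Finset R) (n : ℕ) (P : (Fin n → R) → Prop) :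
    {x : Fin n → R | (∀ i, x i ∈ S) ∧ P x}.ncard =
      ((Fintype.piFinset (fun _ : Fin n => S)).filter P).card := by
  rw [← Set.ncard_coe_finset]
  congr 1
  ext x
  simp [Fintype.mem_piFinset]

open Classical in
theorem ncard_sub {R : Type} (S : Finset R) (P : R → Prop) :
    {t : {x // x ∈ S} | P t.1}.ncard = (S.filter P).card := by
  rw [← Set.ncard_image_of_injective _ Subtype.val_injective, ← Set.ncard_coe_finset]
  congr 1
  ext x
  simp only [Set.mem_image, Set.mem_setOf_eq, coe_filter]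
  constructor
  · rintro ⟨t, h1, rfl⟩
    exact ⟨t.2, h1⟩
  · rintro ⟨h1, h2⟩
    exact ⟨⟨x, h1⟩, h2, rfl⟩

end conv

section basic

variable {k : Type} [Field k] [Fintype k]

theorem mem_cop (hB : BoxMem) {M x : k[X]} {D : ℕ} :
    x ∈ Cop M D ↔ x.Monic ∧ x.natDegree = D ∧ IsCoprime x M := (hB k).2.2.1 M x D

/-- the size of `Cop`. -/
theorem cop_card (hB : BoxMem) (hC : BoxCop) (M : k[X]) (hM : M ≠ 0) : ∃ φ : ℕ, 0 < φ ∧
    ∀ D : ℕ, M.natDegree ≤ D → (Cop M D).card = φ * Fintype.card k ^ (D - M.natDegree) := by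
  classical
  obtain ⟨φ, h1, h2⟩ := hC k M hM
  refine ⟨φ, h1, fun D hD => ?_⟩
  rw [← h2 (X ^ D) 0 D hD, ncard_sep, Cop]
  simp

theorem one_lt_q : (1 : ℝ) < Fintype.card k := by
  exact_mod_cast Fintype.one_lt_card

theorem two_le_q : (2 : ℝ) ≤ Fintype.card k := by
  exact_mod_cast (Fintype.one_lt_card : 1 < Fintype.card k)

theorem q_pos : (0 : ℝ) < Fintype.card k := lt_trans one_pos one_lt_q

theorem cop_ratio (hB : BoxMem) (hC : BoxCop) (M : k[X]) (hM : M ≠ 0) (D E : ℕ)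
    (hD : M.natDegree ≤ D) (hE : D ≤ E) :
    ((Cop M E).card : ℝ) = (Cop M D).card * (Fintype.card k : ℝ) ^ (E - D) := by
  obtain ⟨φ, h1, h2⟩ := cop_card hB hC M hM
  rw [h2 D hD, h2 E (hD.trans hE)]
  push_cast
  rw [mul_assoc, ← pow_add]
  congr 2
  omega

theorem cop_lower (hB : BoxMem) (hC : BoxCop) (M : k[X]) (hM : M ≠ 0) (D : ℕ)
    (hD : M.natDegree ≤ D) :
    (Fintype.card k : ℝ) ^ D ≤ (Fintype.card k : ℝ) ^ M.natDegree * (Cop M D).card := by
  obtain ⟨φ, h1, h2⟩ := cop_card hB hC M hM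
  rw [h2 D hD]
  push_cast
  have h3 : (Fintype.card k : ℝ) ^ D =
      (Fintype.card k : ℝ) ^ M.natDegree * (Fintype.card k : ℝ) ^ (D - M.natDegree) := by
    rw [← pow_add]
    congr 1
    omega
  rw [h3]
  have h4 : (1 : ℝ) ≤ φ := by exact_mod_cast h1
  have h5 : (0 : ℝ) < (Fintype.card k : ℝ) ^ (D - M.natDegree) := pow_pos q_pos _
  have h6 : (0 : ℝ) < (Fintype.card k : ℝ) ^ M.natDegree := pow_pos q_pos _
  nlinarith [mul_nonneg (mul_nonneg h6.le h5.le) (sub_nonneg.2 h4)]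

theorem cop_pos (hB : BoxMem) (hC : BoxCop) (M : k[X]) (hM : M ≠ 0) (D : ℕ)
    (hD : M.natDegree ≤ D) : 0 < (Cop M D).card := by
  obtain ⟨φ, h1, h2⟩ := cop_card hB hC M hM
  rw [h2 D hD]
  exact Nat.mul_pos h1 (pow_pos Fintype.card_pos _)

theorem cop_upper (hB : BoxMem) (M : k[X]) (D : ℕ) :
    ((Cop M D).card : ℝ) ≤ (Fintype.card k : ℝ) ^ D := by
  classical
  have h := (hB k).2.2.2.2 (X ^ D) D
  have h1 : (Cop M D).card ≤ Fintype.card k ^ D := by
    rw [← h, Cop]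
    exact card_filter_le _ _
  exact_mod_cast h1

/-- products of monic polynomials. -/
theorem prod_mem_cop (hB : BoxMem) {M : k[X]} {D n : ℕ} {v : Fin n → k[X]}
    (hv : ∀ i, v i ∈ Cop M D) : (∏ i, v i) ∈ Cop M (n * D) := by
  rw [mem_cop hB]
  have h1 : ∀ i, (v i).Monic := fun i => ((mem_cop hB).1 (hv i)).1
  refine ⟨monic_prod_of_monic _ _ fun i _ => h1 i, ?_, ?_⟩
  · rw [natDegree_prod_of_monic _ _ fun i _ => h1 i]
    rw [sum_congr rfl fun i _ => ((mem_cop hB).1 (hv i)).2.1]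
    simp
  · exact IsCoprime.prod_left fun i _ => ((mem_cop hB).1 (hv i)).2.2

/-- roughness: if `x` is prime to `M`, all irreducible factors have degree `> w`. -/
theorem rough {M : k[X]} {w : ℕ} (hw : ∀ π : k[X], Irreducible π → π.natDegree ≤ w → π ∣ M)
    {x : k[X]} (hx : IsCoprime x M) (π : k[X]) (hπ : Irreducible π) (hd : π ∣ x) :
    w + 1 ≤ π.natDegree := by
  by_contra hcon
  have h1 : π ∣ M := hw π hπ (by omega)
  have h2 : IsUnit π := hx.isUnit_of_dvd' hd h1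
  exact hπ.not_isUnit h2

/-- few divisors. -/
theorem tau_le (hT : Tau) {M : k[X]} {w : ℕ}
    (hw : ∀ π : k[X], Irreducible π → π.natDegree ≤ w → π ∣ M) {x : k[X]} (hx0 : x ≠ 0)
    (hx : IsCoprime x M) : (mdiv x).card ≤ 2 ^ (x.natDegree / (w + 1)) :=
  hT k (w + 1) x (by omega) hx0 fun π hπ hd => rough hw hx π hπ hd

/-- `Cop M n` is empty for `1 ≤ n ≤ w`. -/
theorem cop_empty (hB : BoxMem) {M : k[X]} {w : ℕ}
    (hw : ∀ π : k[X], Irreducible π → π.natDegree ≤ w → π ∣ M) {n : ℕ} (h1 : 1 ≤ n) (h2 : n ≤ w) :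
    Cop M n = ∅ := by
  classical
  rw [eq_empty_iff_forall_notMem]
  intro x hx
  rw [mem_cop hB] at hx
  obtain ⟨h3, h4, h5⟩ := hx
  have h6 : ¬ IsUnit x := by
    intro h
    have := natDegree_eq_zero_of_isUnit h
    omega
  obtain ⟨π, h7, h8⟩ := WfDvdMonoid.exists_irreducible_factor h6 h3.ne_zero
  have h9 := rough hw h5 π h7 h8
  have h10 := natDegree_le_of_dvd h8 h3.ne_zero
  omega

end basic

end Pool.Agent.T9h42.GF
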