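import Pool.Agent.T9h42.GF.C1

/-!
# The core estimate, part 2: first and second moments
-/

set_option autoImplicit false

namespace Pool.Agent.T9h42.GF

open Polynomial Finset

theorem sum_pi_succ {R M : Type} [AddCommMonoid M] (S : Finset R) (n : ℕ)
    (f : (Fin (n + 1) → R) → M) :
    ∑ v ∈ Fintype.piFinset (fun _ : Fin (n + 1) => S), f v =
      ∑ v' ∈ Fintype.piFinset (fun _ : Fin n => S), ∑ x ∈ S, f (Fin.cons x v') := by
  rw [← sum_product']
  refine sum_nbij' (fun v => (Fin.tail v, v 0)) (fun p => Fin.cons p.2 p.1) ?_ ?_ ?_ ?_ ?_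
  · intro v hv
    simp only [Fintype.mem_piFinset, mem_product] at hv ⊢
    exact ⟨fun i => hv i.succ, hv 0⟩
  · intro p hp
    simp only [Fintype.mem_piFinset, mem_product] at hp ⊢
    intro i
    refine Fin.cases ?_ (fun i => ?_) i
    · simpa using hp.2
    · simpa using hp.1 i
  · intro v _
    exact Fin.cons_self_tail v
  · intro p _
    simp
  · intro v _
    simp

section mom

variable {k : Type} [Field k] [Fintype k]

/-- `c = α₁ f + β z` with `z` monic of degree `E` prime to `αβ`. -/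
def Ph (α β : k[X]) (E : ℕ) (α₁ c f : k[X]) : Prop := ∃ z ∈ Cop (α * β) E, c = α₁ * f + β * z

open Classical in
/-- number of `v ∈ X^n` with `∏ v = f`, if `Ph`. -/
noncomputable def aw (α β : k[X]) (E d n : ℕ) (α₁ c f : k[X]) : ℝ :=
  ∑ v ∈ Fintype.piFinset (fun _ : Fin n => Cop (α * β) d),
    if ∏ i, v i = f ∧ Ph α β E α₁ c f then 1 else 0

open Classical in
theorem sum_aw (hB : BoxMem) {M : Type} [AddCommMonoid M] [Module ℝ M] (α β : k[X]) (E d n : ℕ)
    (α₁ c : k[X]) (g : k[X] → M) :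
    ∑ f ∈ Cop (α * β) (n * d), aw α β E d n α₁ c f • g f =
      ∑ v ∈ Fintype.piFinset (fun _ : Fin n => Cop (α * β) d),
        if Ph α β E α₁ c (∏ i, v i) then g (∏ i, v i) else 0 := by
  unfold aw
  simp_rw [sum_smul]
  rw [sum_comm]
  refine sum_congr rfl fun v hv => ?_
  rw [Fintype.mem_piFinset] at hv
  rw [sum_eq_single (∏ i, v i)]
  · simp
  · intro f _ hf
    rw [if_neg (fun h => hf h.1.symm), zero_smul]
  · intro h
    exact absurd (prod_mem_cop hB hv) h

open Classical in
/-- equidistribution of a free slot, with the local conditions. -/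
theorem loc_count (hB : BoxMem) (hL : LocCount) (α β : k[X]) (hα : α.Monic) (hβ : β.Monic)
    (α₁ : k[X]) (hα₁ : α₁.Monic) (hcop : IsCoprime α₁ β) (hdvd : α ∣ α₁) (L E d n : ℕ)
    (hdeg : α₁.natDegree + (n + 1) * d = L) (hE : β.natDegree + E < L) (c : k[X])
    (hc : c ∈ Cop (α * β) L) (h ρ : k[X]) (hh : h.Monic) (hhM : IsCoprime h (α * β))
    (hd : L + h.natDegree + (α * β).natDegree ≤ E + d) (v : Fin n → k[X])
    (hv : v ∈ Fintype.piFinset (fun _ : Fin n => Cop (α * β) d)) :
    (((Cop (α * β) d).filter (fun x => h ∣ x - ρ ∧ Ph α β E α₁ c (∏ i, (Fin.cons x v :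
      Fin (n + 1) → k[X]) i))).card : ℝ) * (Fintype.card k : ℝ) ^ (h.natDegree + (L - E)) =
      (Cop (α * β) d).card := by
  rw [Fintype.mem_piFinset] at hv
  have hp := prod_mem_cop hB hv
  rw [mem_cop hB] at hp
  obtain ⟨hp1, hp2, hp3⟩ := hp
  have hcβ : IsCoprime (α₁ * ∏ i, v i) β :=
    IsCoprime.mul_left hcop (hp3.of_isCoprime_of_dvd_right (dvd_mul_left β α))
  have h1 := hL k α β (α₁ * ∏ i, v i) h c ρ L E d hα hβ (hα₁.mul hp1) hh hcβ
    (hdvd.trans (dvd_mul_right _ _)) hhM hc (by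
      rw [hα₁.natDegree_mul hp1, hp2, ← hdeg]
      ring) hE hd
  rw [ncard_sep] at h1
  have h2 : (Cop (α * β) d).filter (fun x => h ∣ x - ρ ∧ Ph α β E α₁ c (∏ i, (Fin.cons x v :
      Fin (n + 1) → k[X]) i)) = (Cop (α * β) d).filter (fun x => h ∣ x - ρ ∧
        ∃ z ∈ Cop (α * β) E, c = (α₁ * ∏ i, v i) * x + β * z) := by
    refine filter_congr fun x _ => ?_
    rw [Fin.prod_univ_succ]
    simp only [Fin.cons_zero, Fin.cons_succ, Ph]
    constructor
    · rintro ⟨h3, z, hz, h4⟩
      exact ⟨h3, z, hz, by rw [h4]; ring⟩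
    · rintro ⟨h3, z, hz, h4⟩
      exact ⟨h3, z, hz, by rw [h4]; ring⟩
  rw [h2]
  have h1' := congrArg (Nat.cast (R := ℝ)) h1
  push_cast at h1'
  convert h1'
  rfl

open Classical in
/-- total mass. -/
theorem sum_aw_one (hB : BoxMem) (hL : LocCount) (α β : k[X]) (hα : α.Monic) (hβ : β.Monic)
    (α₁ : k[X]) (hα₁ : α₁.Monic) (hcop : IsCoprime α₁ β) (hdvd : α ∣ α₁) (L E d n : ℕ)
    (hdeg : α₁.natDegree + (n + 1) * d = L) (hE : β.natDegree + E < L) (c : k[X])
    (hc : c ∈ Cop (α * β) L)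
    (hd : L + (α * β).natDegree ≤ E + d) :
    (∑ f ∈ Cop (α * β) ((n + 1) * d), aw α β E d (n + 1) α₁ c f) *
      (Fintype.card k : ℝ) ^ (L - E) = ((Cop (α * β) d).card : ℝ) ^ (n + 1) := by
  have h1 := sum_aw hB α β E d (n + 1) α₁ c (fun _ => (1 : ℝ))
  simp only [smul_eq_mul, mul_one] at h1
  rw [h1, sum_pi_succ, sum_mul]
  have h2 : ∀ v ∈ Fintype.piFinset (fun _ : Fin n => Cop (α * β) d),
      (∑ x ∈ Cop (α * β) d, if Ph α β E α₁ c (∏ i, (Fin.cons x v : Fin (n + 1) → k[X]) i)
        then (1 : ℝ) else 0) * (Fintype.card k : ℝ) ^ (L - E) = (Cop (α * β) d).card := by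
    intro v hv
    have h3 := loc_count hB hL α β hα hβ α₁ hα₁ hcop hdvd L E d n hdeg hE c hc 1 0 monic_one
      isCoprime_one_left (by simpa using hd) v hv
    rw [natDegree_one, zero_add] at h3
    rw [← h3, sum_boole]
    congr 3
    refine filter_congr fun x _ => ?_
    simp
  rw [sum_congr rfl h2, sum_const, Fintype.card_piFinset_const, nsmul_eq_mul]
  push_cast
  ring

open Classical in
/-- character sums. -/
theorem char_aw (hB : BoxMem) (hL : LocCount) (hBC : BoxCount) (hDC : DivCount) (hDP : DivProd)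
    (α β : k[X]) (hα : α.Monic) (hβ : β.Monic)
    (α₁ : k[X]) (hα₁ : α₁.Monic) (hcop : IsCoprime α₁ β) (hdvd : α ∣ α₁) (L E d n : ℕ)
    (hdeg : α₁.natDegree + (n + 1) * d = L) (hE : β.natDegree + E < L) (c : k[X])
    (hc : c ∈ Cop (α * β) L) (χ : AddChar k[X] ℂ) (h : k[X]) (hχ : Cond χ h)
    (hhM : IsCoprime h (α * β))
    (hd : L + h.natDegree + (α * β).natDegree ≤ E + d)
    (hd' : (α * β).natDegree + h.natDegree ≤ d) :
    ‖∑ f ∈ Cop (α * β) ((n + 1) * d), ((aw α β E d (n + 1) α₁ c f : ℝ) : ℂ) * χ f‖ ≤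
      ((mdiv h).card : ℝ) ^ n * ((Cop (α * β) d).card : ℝ) ^ (n + 1) /
        ((Fintype.card k : ℝ) ^ (L - E) * (Fintype.card k : ℝ) ^ h.natDegree) := by
  obtain ⟨hh, hχ1, hχ2⟩ := hχ
  set q : ℝ := (Fintype.card k : ℝ) with hq
  have hq0 : 0 < q := q_pos
  have hX := (Cop (α * β) d).card.cast_nonneg (α := ℝ)
  have h1 := sum_aw hB α β E d (n + 1) α₁ c (fun f => χ f)
  have h1' : ∑ f ∈ Cop (α * β) ((n + 1) * d), ((aw α β E d (n + 1) α₁ c f : ℝ) : ℂ) * χ f =
      ∑ f ∈ Cop (α * β) ((n + 1) * d), aw α β E d (n + 1) α₁ c f • χ f := by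
    refine sum_congr rfl fun f _ => ?_
    rw [Complex.real_smul]
  rw [h1', h1, sum_pi_succ]
  -- inner sums
  have h2 : ∀ v ∈ Fintype.piFinset (fun _ : Fin n => Cop (α * β) d),
      ‖∑ x ∈ Cop (α * β) d, if Ph α β E α₁ c (∏ i, (Fin.cons x v : Fin (n + 1) → k[X]) i)
        then χ (∏ i, (Fin.cons x v : Fin (n + 1) → k[X]) i) else 0‖ ≤
      if h ∣ ∏ i, v i then (Cop (α * β) d).card / q ^ (L - E) else 0 := by
    intro v hv
    -- group by residues modulo `h`
    have hres : ∀ x : k[X], x %ₘ h ∈ Box (0 : k[X]) h.natDegree := by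
      intro x
      rw [(hB k).1, sub_zero]
      have := degree_modByMonic_lt x hh
      rwa [degree_eq_natDegree hh.ne_zero] at this
    have hidem : ∀ x : k[X], (x %ₘ h) %ₘ h = x %ₘ h := fun x =>
      (modByMonic_eq_self_iff hh).2 (degree_modByMonic_lt x hh)
    have hgr : ∑ x ∈ Cop (α * β) d, (if Ph α β E α₁ c (∏ i, (Fin.cons x v :
        Fin (n + 1) → k[X]) i) then χ (∏ i, (Fin.cons x v : Fin (n + 1) → k[X]) i) else 0) =
      ∑ ρ ∈ Box (0 : k[X]) h.natDegree, χ ((∏ i, v i) * ρ) *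
        (((Cop (α * β) d).card / (q ^ (L - E) * q ^ h.natDegree) : ℝ) : ℂ) := by
      rw [← sum_fiberwise_of_maps_to (s := Cop (α * β) d) (g := fun x => x %ₘ h)
        (t := Box (0 : k[X]) h.natDegree) (fun x _ => hres x)]
      refine sum_congr rfl fun ρ hρ => ?_
      have hρ' : ρ.degree < h.degree := by
        rw [(hB k).1, sub_zero] at hρ
        rwa [degree_eq_natDegree hh.ne_zero]
      have h3 := loc_count hB hL α β hα hβ α₁ hα₁ hcop hdvd L E d n hdeg hE c hc h ρ hh
        hhM hd v hv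
      have h4 : (((Cop (α * β) d).filter (fun x => h ∣ x - ρ ∧ Ph α β E α₁ c (∏ i, (Fin.cons x v :
          Fin (n + 1) → k[X]) i))).card : ℝ) =
          (Cop (α * β) d).card / (q ^ (L - E) * q ^ h.natDegree) := by
        rw [eq_div_iff (by positivity), ← h3, pow_add]
        ring
      have h5 : ∀ x, x %ₘ h = ρ ↔ h ∣ x - ρ := by
        intro x
        rw [← modByMonic_eq_zero_iff_dvd hh, sub_modByMonic, (modByMonic_eq_self_iff hh).2 hρ',
          sub_eq_zero]
      rw [sum_ite, sum_const_zero, add_zero, filter_filter]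
      have h6 : ∀ x ∈ (Cop (α * β) d).filter (fun x => x %ₘ h = ρ ∧ Ph α β E α₁ c
          (∏ i, (Fin.cons x v : Fin (n + 1) → k[X]) i)),
          χ (∏ i, (Fin.cons x v : Fin (n + 1) → k[X]) i) = χ ((∏ i, v i) * ρ) := by
        intro x hx
        rw [mem_filter] at hx
        obtain ⟨g, hg⟩ := (h5 x).1 hx.2.1
        rw [Fin.prod_univ_succ]
        simp only [Fin.cons_zero, Fin.cons_succ]
        have h7 : x * ∏ i, v i = (∏ i, v i) * ρ + h * (g * ∏ i, v i) := by
          have : x = ρ + h * g := by rw [← hg]; ring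
          rw [this]
          ring
        rw [h7, AddChar.map_add_eq_mul, hχ1, mul_one]
      rw [sum_congr rfl h6, sum_const, nsmul_eq_mul, mul_comm]
      congr 1
      rw [← h4]
      push_cast
      congr 2
      refine filter_congr fun x _ => ?_
      rw [h5]
    rw [hgr, ← sum_mul]
    by_cases hdv : h ∣ ∏ i, v i
    · rw [if_pos hdv]
      obtain ⟨g, hg⟩ := hdv
      have h8 : ∀ ρ ∈ Box (0 : k[X]) h.natDegree, χ ((∏ i, v i) * ρ) = 1 := by
        intro ρ _
        rw [hg, mul_assoc, hχ1]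
      rw [sum_congr rfl h8, sum_const, (hB k).2.2.2.2, nsmul_eq_mul, mul_one]
      have h9 : (((Fintype.card k ^ h.natDegree : ℕ) : ℂ)) *
          (((Cop (α * β) d).card / (q ^ (L - E) * q ^ h.natDegree) : ℝ) : ℂ) =
          (((Cop (α * β) d).card / q ^ (L - E) : ℝ) : ℂ) := by
        have : (((Fintype.card k ^ h.natDegree : ℕ) : ℂ)) = ((q ^ h.natDegree : ℝ) : ℂ) := by
          rw [hq]
          push_cast
          rfl
        rw [this, ← Complex.ofReal_mul]
        congr 1
        field_simp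
      rw [h9, Complex.norm_real, Real.norm_of_nonneg (by positivity)]
    · rw [if_neg hdv]
      -- the sum of a nontrivial character over the residues
      have h10 : ∃ g, χ ((∏ i, v i) * g) ≠ 1 := by
        by_contra hcon
        push Not at hcon
        exact hdv (hχ2 _ hcon)
      obtain ⟨g, hg⟩ := h10
      have h11 : ∑ ρ ∈ Box (0 : k[X]) h.natDegree, χ ((∏ i, v i) * ρ) = 0 := by
        set T := ∑ ρ ∈ Box (0 : k[X]) h.natDegree, χ ((∏ i, v i) * ρ) with hT
        have h12 : T = χ ((∏ i, v i) * g) * T := by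
          rw [hT, mul_sum]
          -- translation by `g`
          refine (sum_nbij' (fun ρ => (ρ + g) %ₘ h) (fun ρ => (ρ - g) %ₘ h) ?_ ?_ ?_ ?_ ?_).symm
          · intro ρ _
            exact hres _
          · intro ρ _
            exact hres _
          · intro ρ hρ
            rw [(hB k).1, sub_zero, ← degree_eq_natDegree hh.ne_zero] at hρ
            rw [sub_modByMonic, hidem, add_modByMonic, (modByMonic_eq_self_iff hh).2 hρ]
            ring
          · intro ρ hρ
            rw [(hB k).1, sub_zero, ← degree_eq_natDegree hh.ne_zero] at hρ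
            rw [add_modByMonic, hidem, sub_modByMonic, (modByMonic_eq_self_iff hh).2 hρ]
            ring
          · intro ρ _
            rw [← AddChar.map_add_eq_mul]
            have h13 : (∏ i, v i) * g + (∏ i, v i) * ρ = (∏ i, v i) * ((ρ + g) %ₘ h) +
                h * ((∏ i, v i) * ((ρ + g) /ₘ h)) := by
              have := modByMonic_add_div (ρ + g) h
              linear_combination (-(∏ i, v i)) * this
            rw [h13, AddChar.map_add_eq_mul, hχ1, mul_one]
        have h14 : (1 - χ ((∏ i, v i) * g)) * T = 0 := by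
          rw [sub_mul, one_mul, ← h12, sub_self]
        rcases mul_eq_zero.1 h14 with h15 | h15
        · exact absurd (sub_eq_zero.1 h15).symm hg
        · exact h15
      rw [h11, zero_mul, norm_zero]
  refine (norm_sum_le _ _).trans ((sum_le_sum h2).trans ?_)
  rw [← sum_filter, sum_const, nsmul_eq_mul]
  have h20 := hDP k h (Cop (α * β) d) 1 n hh zero_le_one (fun g hg hgh => by
    have hM : (α * β) ≠ 0 := mul_ne_zero hα.ne_zero hβ.ne_zero
    have h21 := (hDC k (α * β) hM g d hg (hhM.of_isCoprime_of_dvd_left hgh) (by omega)).1 (by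
      have := natDegree_le_of_dvd hgh hh.ne_zero
      omega)
    rw [one_mul]
    exact_mod_cast h21.le)
  rw [ncard_pi, one_pow, mul_one] at h20
  rw [← mul_div_assoc, div_le_div_iff₀ (by positivity) (by positivity)]
  have h22 : 0 ≤ (Cop (α * β) d).card * q ^ (L - E) := by positivity
  calc _ = ((((Fintype.piFinset (fun _ : Fin n => Cop (α * β) d)).filter
        (fun v => h ∣ ∏ i, v i)).card : ℝ) * q ^ h.natDegree) *
          ((Cop (α * β) d).card * q ^ (L - E)) := by ring
    _ ≤ (((mdiv h).card : ℝ) ^ n * ((Cop (α * β) d).card : ℝ) ^ n) *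
          ((Cop (α * β) d).card * q ^ (L - E)) := mul_le_mul_of_nonneg_right h20 h22
    _ = _ := by ring

end mom

end Pool.Agent.T9h42.GF
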