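import Pool.Agent.T9h42.GF.C2

/-!
# The core estimate, part 3: the second moment over `c`
-/

set_option autoImplicit false

namespace Pool.Agent.T9h42.GF

open Polynomial Finset

section c3

variable {k : Type} [Field k] [Fintype k]

/-- `α a + β b` is prime to `αβ`. -/
theorem add_mem_cop (hB : BoxMem) {α β : k[X]} (hα : α.Monic) (hβ : β.Monic)
    (hαβ : IsCoprime α β) {α₁ a b : k[X]} (hα₁ : α₁.Monic) (hcop : IsCoprime α₁ β)
    (hdvd : α ∣ α₁) {L Da Db : ℕ} (ha : a ∈ Cop (α * β) Da) (hb : b ∈ Cop (α * β) Db)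
    (hL : α₁.natDegree + Da = L) (hE : β.natDegree + Db < L) :
    α₁ * a + β * b ∈ Cop (α * β) L := by
  rw [mem_cop hB] at ha hb ⊢
  obtain ⟨ha1, ha2, ha3⟩ := ha
  obtain ⟨hb1, hb2, hb3⟩ := hb
  have h1 : (α₁ * a).Monic := hα₁.mul ha1
  have h2 : (α₁ * a).natDegree = L := by rw [hα₁.natDegree_mul ha1, ha2, hL]
  have h3 : (β * b).natDegree = β.natDegree + Db := by rw [hβ.natDegree_mul hb1, hb2]
  have h4 : (β * b).degree < (α₁ * a).degree := by
    rw [degree_eq_natDegree (hβ.mul hb1).ne_zero, degree_eq_natDegree h1.ne_zero, h2, h3]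
    exact_mod_cast hE
  refine ⟨h1.add_of_left h4, ?_, ?_⟩
  · rw [natDegree_add_eq_left_of_degree_lt h4, h2]
  · refine IsCoprime.mul_right ?_ ?_
    · -- modulo `α`
      obtain ⟨α', rfl⟩ := hdvd
      have h5 : IsCoprime (β * b) α :=
        IsCoprime.mul_left hαβ.symm (hb3.of_isCoprime_of_dvd_right (dvd_mul_right α β))
      have h6 := h5.add_mul_left_left (α' * a)
      have h7 : α * α' * a + β * b = β * b + α * (α' * a) := by ring
      rw [h7]
      exact h6
    · have h5 : IsCoprime (α₁ * a) β :=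
        IsCoprime.mul_left hcop (ha3.of_isCoprime_of_dvd_right (dvd_mul_left β α))
      have h6 := h5.add_mul_left_left b
      exact h6

/-- `Ph` is invariant under `c ↦ c + αβ² u`. -/
theorem ph_add (hB : BoxMem) {α β : k[X]} (hα : α.Monic) (hβ : β.Monic) {E : ℕ}
    {α₁ c f u : k[X]} (hE : (α * β).natDegree ≤ E)
    (hu : u.degree < ((E - (α * β).natDegree : ℕ) : WithBot ℕ)) (h : Ph α β E α₁ c f) :
    Ph α β E α₁ (c + α * β * β * u) f := by
  obtain ⟨z, hz, hc⟩ := h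
  refine ⟨z + α * β * u, ?_, by rw [hc]; ring⟩
  rw [mem_cop hB] at hz ⊢
  obtain ⟨h1, h2, h3⟩ := hz
  have h4 : (α * β * u).degree < z.degree := by
    rw [degree_eq_natDegree h1.ne_zero, h2, degree_mul,
      degree_eq_natDegree (hα.mul hβ).ne_zero]
    by_cases hu0 : u = 0
    · rw [hu0, degree_zero]
      simp
    · rw [degree_eq_natDegree hu0] at hu ⊢
      have : u.natDegree < E - (α * β).natDegree := by exact_mod_cast hu
      have h5 : (α * β).natDegree + u.natDegree < E := by omega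
      exact_mod_cast h5
  refine ⟨h1.add_of_left h4, ?_, ?_⟩
  · rw [natDegree_add_eq_left_of_degree_lt h4, h2]
  · exact h3.add_mul_left_left u

theorem cop_add (hB : BoxMem) {α β : k[X]} (hα : α.Monic) (hβ : β.Monic) {E L : ℕ}
    {c u : k[X]} (hE : (α * β).natDegree ≤ E) (hEL : β.natDegree + E ≤ L)
    (hu : u.degree < ((E - (α * β).natDegree : ℕ) : WithBot ℕ)) (h : c ∈ Cop (α * β) L) :
    c + α * β * β * u ∈ Cop (α * β) L := by
  rw [mem_cop hB] at h ⊢
  obtain ⟨h1, h2, h3⟩ := h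
  have h4 : (α * β * β * u).degree < c.degree := by
    rw [degree_eq_natDegree h1.ne_zero, h2, degree_mul,
      degree_eq_natDegree ((hα.mul hβ).mul hβ).ne_zero]
    by_cases hu0 : u = 0
    · rw [hu0, degree_zero]
      simp
    · rw [degree_eq_natDegree hu0] at hu ⊢
      have : u.natDegree < E - (α * β).natDegree := by exact_mod_cast hu
      have h6 : (α * β * β).natDegree = (α * β).natDegree + β.natDegree :=
        (hα.mul hβ).natDegree_mul hβ
      have h5 : (α * β * β).natDegree + u.natDegree < L := by omega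
      exact_mod_cast h5
  refine ⟨h1.add_of_left h4, ?_, ?_⟩
  · rw [natDegree_add_eq_left_of_degree_lt h4, h2]
  · have h7 : c + α * β * β * u = c + α * β * (β * u) := by ring
    rw [h7]
    exact h3.add_mul_left_left _

open Classical in
/-- equidistribution of `c` modulo `b`. -/
theorem equi_c (hB : BoxMem) (hBC : BoxCount) {α β : k[X]} (hα : α.Monic) (hβ : β.Monic)
    {E L : ℕ} (hE : (α * β).natDegree ≤ E) (hEL : β.natDegree + E ≤ L) {b : k[X]}
    (hb : b.Monic) (hbM : IsCoprime b (α * β)) (hbE : b.natDegree + (α * β).natDegree ≤ E)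
    (Ψ : k[X] → Prop)
    (hΨ : ∀ c u : k[X], u.degree < ((E - (α * β).natDegree : ℕ) : WithBot ℕ) → Ψ c →
      Ψ (c + α * β * β * u)) (ρ : k[X]) :
    (((Cop (α * β) L).filter (fun c => Ψ c ∧ b ∣ c - ρ)).card : ℝ) *
      (Fintype.card k : ℝ) ^ b.natDegree = ((Cop (α * β) L).filter Ψ).card := by
  set R := E - (α * β).natDegree with hR
  set q : ℝ := (Fintype.card k : ℝ) with hq
  have hq0 : 0 < q := q_pos
  set U : Finset k[X] := Box (0 : k[X]) R with hU
  have hUm : ∀ u, u ∈ U ↔ u.degree < (R : WithBot ℕ) := by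
    intro u
    rw [hU, (hB k).1, sub_zero]
  have hUcard : (U.card : ℝ) = q ^ R := by
    rw [hU, (hB k).2.2.2.2]
    push_cast
    rfl
  -- translations
  have htr : ∀ u ∈ U, ∀ F : k[X] → ℝ, ∑ c ∈ Cop (α * β) L, F (c + α * β * β * u) =
      ∑ c ∈ Cop (α * β) L, F c := by
    intro u hu F
    rw [hUm] at hu
    refine sum_nbij' (fun c => c + α * β * β * u) (fun c => c - α * β * β * u) ?_ ?_ ?_ ?_ ?_
    · intro c hc
      exact cop_add hB hα hβ hE hEL hu hc
    · intro c hc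
      have := cop_add hB hα hβ hE hEL (u := -u) (by rwa [degree_neg]) hc
      have h2 : c - α * β * β * u = c + α * β * β * (-u) := by ring
      rw [h2]
      exact this
    · intro c _
      ring
    · intro c _
      ring
    · intro c _
      rfl
  have hΨ' : ∀ c, ∀ u ∈ U, (Ψ (c + α * β * β * u) ↔ Ψ c) := by
    intro c u hu
    rw [hUm] at hu
    constructor
    · intro h
      have := hΨ _ (-u) (by rwa [degree_neg]) h
      have h2 : c + α * β * β * u + α * β * β * (-u) = c := by ring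
      rwa [h2] at this
    · exact hΨ c u hu
  -- inverse of `αβ²` modulo `b`
  have hinv : IsCoprime (α * β * β) b := by
    refine IsCoprime.mul_left hbM.symm ?_
    exact (hbM.of_isCoprime_of_dvd_right (dvd_mul_left β α)).symm
  obtain ⟨s, t, hst⟩ := hinv
  have hcount : ∀ c, ((U.filter (fun u => b ∣ c + α * β * β * u - ρ)).card : ℝ) *
      q ^ b.natDegree = q ^ R := by
    intro c
    have h1 := hBC k b (s * (ρ - c)) 0 R hb.ne_zero (by omega)
    rw [ncard_sep] at h1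
    have h2 : U.filter (fun u => b ∣ c + α * β * β * u - ρ) =
        (Box (0 : k[X]) R).filter (fun u => b ∣ u - s * (ρ - c)) := by
      rw [hU]
      refine filter_congr fun u _ => ?_
      constructor
      · intro h
        -- `u - s (ρ - c) = s (c + αβ²u - ρ) + t b u`
        have h3 : u - s * (ρ - c) = s * (c + α * β * β * u - ρ) + b * (t * u) := by
          linear_combination (-u) * hst
        rw [h3]
        exact dvd_add (h.mul_left _) (dvd_mul_right _ _)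
      · intro h
        have h3 : c + α * β * β * u - ρ = α * β * β * (u - s * (ρ - c)) +
            b * (t * (c - ρ)) := by
          linear_combination (c - ρ) * (-1) * hst
        rw [h3]
        exact dvd_add (h.mul_left _) (dvd_mul_right _ _)
    rw [h2, h1]
    push_cast
    rw [← hq, ← pow_add]
    congr 1
    omega
  -- average over `U` 
  have h1 : q ^ R * (((Cop (α * β) L).filter (fun c => Ψ c ∧ b ∣ c - ρ)).card : ℝ) =
      ∑ c ∈ Cop (α * β) L, (if Ψ c then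
        ((U.filter (fun u => b ∣ c + α * β * β * u - ρ)).card : ℝ) else 0) := by
    rw [← hUcard, ← nsmul_eq_mul, ← sum_const]
    have h2 : ∀ u ∈ U, (((Cop (α * β) L).filter (fun c => Ψ c ∧ b ∣ c - ρ)).card : ℝ) =
        ∑ c ∈ Cop (α * β) L, if Ψ c ∧ b ∣ c + α * β * β * u - ρ then (1 : ℝ) else 0 := by
      intro u hu
      rw [← sum_boole, ← htr u hu]
      refine sum_congr rfl fun c _ => ?_
      rw [hΨ' c u hu]
    rw [sum_congr rfl h2, sum_comm]
    refine sum_congr rfl fun c _ => ?_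
    by_cases hc : Ψ c
    · simp [hc, sum_boole]
    · simp [hc]
  have h3 : q ^ R * ((((Cop (α * β) L).filter (fun c => Ψ c ∧ b ∣ c - ρ)).card : ℝ) *
      q ^ b.natDegree) = q ^ R * ((Cop (α * β) L).filter Ψ).card := by
    rw [← mul_assoc, h1, sum_mul]
    rw [← sum_boole, mul_sum]
    refine sum_congr rfl fun c _ => ?_
    by_cases hc : Ψ c
    · rw [if_pos hc, if_pos hc, hcount, mul_one]
    · rw [if_neg hc, if_neg hc, zero_mul, mul_zero]
  exact mul_left_cancel₀ (by positivity) h3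

/-- number of solutions. -/
noncomputable def cn (X Y : Finset k[X]) (n : ℕ) (β α₁ b₁ c : k[X]) : ℕ :=
  open Classical in
  (((Fintype.piFinset (fun _ : Fin n => X)) ×ˢ Y).filter
    (fun v => α₁ * ∏ i, v.1 i + β * (b₁ * v.2) = c)).card

theorem wn_eq (C X Y : Finset k[X]) (n : ℕ) (β α₁ b₁ c : k[X]) :
    wn C X Y n β α₁ b₁ c = (C.card : ℝ) * cn X Y n β α₁ b₁ c / ((X.card : ℝ) ^ n * Y.card) := rfl

/-- total number of solutions. -/
theorem sum_cn (hB : BoxMem) {α β : k[X]} (hα : α.Monic) (hβ : β.Monic) (hαβ : IsCoprime α β)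
    {α₁ b₁ : k[X]} (hα₁ : α₁.Monic) (hcop : IsCoprime α₁ β) (hdvd : α ∣ α₁) {L d e n Db : ℕ}
    (hb₁ : b₁ ∈ Cop (α * β) Db) (hL : α₁.natDegree + n * d = L)
    (hE : β.natDegree + (Db + e) < L) :
    ∑ c ∈ Cop (α * β) L, (cn (Cop (α * β) d) (Cop (α * β) e) n β α₁ b₁ c : ℝ) =
      ((Cop (α * β) d).card : ℝ) ^ n * (Cop (α * β) e).card := by
  classical
  have h1 : ∀ c, (cn (Cop (α * β) d) (Cop (α * β) e) n β α₁ b₁ c : ℝ) =
      ∑ v ∈ (Fintype.piFinset (fun _ : Fin n => Cop (α * β) d)) ×ˢ Cop (α * β) e,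
        if α₁ * ∏ i, v.1 i + β * (b₁ * v.2) = c then (1 : ℝ) else 0 := by
    intro c
    rw [sum_boole, cn]
  simp_rw [h1]
  rw [sum_comm]
  have h2 : ∀ v ∈ (Fintype.piFinset (fun _ : Fin n => Cop (α * β) d)) ×ˢ Cop (α * β) e,
      ∑ c ∈ Cop (α * β) L, (if α₁ * ∏ i, v.1 i + β * (b₁ * v.2) = c then (1 : ℝ) else 0) = 1 := by
    intro v hv
    rw [mem_product, Fintype.mem_piFinset] at hv
    rw [sum_ite_eq, if_pos]
    have h3 : b₁ * v.2 ∈ Cop (α * β) (Db + e) := by
      have h4 := hv.2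
      rw [mem_cop hB] at h4 hb₁ ⊢
      exact ⟨hb₁.1.mul h4.1, by rw [hb₁.1.natDegree_mul h4.1, hb₁.2.1, h4.2.1],
        IsCoprime.mul_left hb₁.2.2 h4.2.2⟩
    exact add_mem_cop hB hα hβ hαβ hα₁ hcop hdvd (prod_mem_cop hB hv.1) h3 hL hE
  rw [sum_congr rfl h2, sum_const, nsmul_eq_mul, mul_one, card_product,
    Fintype.card_piFinset_const]
  push_cast
  ring

open Classical in
/-- the number of solutions for given `c`. -/
theorem cn_eq (hB : BoxMem) {α β : k[X]} (hβ : β.Monic)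
    {α₁ b₁ : k[X]} {d e n Db : ℕ}
    (hb₁ : b₁ ∈ Cop (α * β) Db) (c : k[X]) :
    (cn (Cop (α * β) d) (Cop (α * β) e) n β α₁ b₁ c : ℝ) =
      ∑ v ∈ Fintype.piFinset (fun _ : Fin n => Cop (α * β) d),
        if Ph α β (Db + e) α₁ c (∏ i, v i) ∧ b₁ ∣ c - α₁ * ∏ i, v i then (1 : ℝ) else 0 := by
  rw [sum_boole]
  congr 1
  rw [mem_cop hB] at hb₁
  obtain ⟨hb1, hb2, hb3⟩ := hb₁
  unfold cn
  refine card_bij (fun v _ => v.1) ?_ ?_ ?_
  · intro v hv
    rw [mem_filter, mem_product] at hv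
    obtain ⟨⟨h1, h2⟩, h3⟩ := hv
    rw [mem_filter]
    refine ⟨h1, ⟨b₁ * v.2, ?_, h3.symm⟩, ?_⟩
    · rw [mem_cop hB] at h2 ⊢
      exact ⟨hb1.mul h2.1, by rw [hb1.natDegree_mul h2.1, hb2, h2.2.1],
        IsCoprime.mul_left hb3 h2.2.2⟩
    · rw [← h3]
      exact ⟨β * v.2, by ring⟩
  · intro v hv v' hv' h
    rw [mem_filter] at hv hv'
    have h1 := hv.2
    have h2 := hv'.2
    rw [← h2, h] at h1
    have h3 : β * (b₁ * v.2) = β * (b₁ * v'.2) := add_left_cancel h1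
    have h4 := mul_left_cancel₀ hb1.ne_zero (mul_left_cancel₀ hβ.ne_zero h3)
    exact Prod.ext h h4
  · intro v hv
    rw [mem_filter] at hv
    obtain ⟨h1, ⟨z, hz, h2⟩, h3⟩ := hv
    have h4 : b₁ ∣ β * z := by
      rw [h2] at h3
      have : α₁ * ∏ i, v i + β * z - α₁ * ∏ i, v i = β * z := by ring
      rwa [this] at h3
    have h5 : b₁ ∣ z := (hb3.of_isCoprime_of_dvd_right (dvd_mul_left β α)).dvd_of_dvd_mul_left h4
    obtain ⟨y, rfl⟩ := h5
    refine ⟨(v, y), ?_, rfl⟩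
    rw [mem_filter, mem_product]
    refine ⟨⟨h1, ?_⟩, h2.symm⟩
    rw [mem_cop hB] at hz ⊢
    obtain ⟨hz1, hz2, hz3⟩ := hz
    have hy : y.Monic := hb1.of_mul_monic_left hz1
    refine ⟨hy, ?_, hz3.of_mul_left_right⟩
    rw [hb1.natDegree_mul hy, hb2] at hz2
    change y.natDegree = e
    omega

open Classical in
/-- the second moment. -/
theorem sum_cn_sq (hB : BoxMem) (hBC : BoxCount) {α β : k[X]} (hα : α.Monic) (hβ : β.Monic)
    {α₁ b₁ : k[X]} (hcop₁ : IsCoprime α₁ b₁) {L d e n Db : ℕ}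
    (hb₁ : b₁ ∈ Cop (α * β) Db) 
    (hE : β.natDegree + (Db + e) ≤ L) (he : (α * β).natDegree ≤ e) :
    (∑ c ∈ Cop (α * β) L, (cn (Cop (α * β) d) (Cop (α * β) e) n β α₁ b₁ c : ℝ) ^ 2) *
        (Fintype.card k : ℝ) ^ Db ≤
      ∑ c ∈ Cop (α * β) L, ∑ f ∈ Cop (α * β) (n * d), ∑ f' ∈ Cop (α * β) (n * d),
        if b₁ ∣ f - f' then aw α β (Db + e) d n α₁ c f * aw α β (Db + e) d n α₁ c f' else 0 := by
  set P := Fintype.piFinset (fun _ : Fin n => Cop (α * β) d) with hP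
  have hb := (mem_cop hB).1 hb₁
  -- the right-hand side
  have hR : ∀ c, ∑ f ∈ Cop (α * β) (n * d), ∑ f' ∈ Cop (α * β) (n * d),
        (if b₁ ∣ f - f' then aw α β (Db + e) d n α₁ c f * aw α β (Db + e) d n α₁ c f' else 0) =
      ∑ v ∈ P, ∑ v' ∈ P, if b₁ ∣ ∏ i, v i - ∏ i, v' i ∧ Ph α β (Db + e) α₁ c (∏ i, v i) ∧
        Ph α β (Db + e) α₁ c (∏ i, v' i) then (1 : ℝ) else 0 := by
    intro c
    have h1 : ∀ f, ∑ f' ∈ Cop (α * β) (n * d),
        (if b₁ ∣ f - f' then aw α β (Db + e) d n α₁ c f * aw α β (Db + e) d n α₁ c f' else 0) =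
        aw α β (Db + e) d n α₁ c f • ∑ v' ∈ P, if Ph α β (Db + e) α₁ c (∏ i, v' i) then
          (if b₁ ∣ f - ∏ i, v' i then (1 : ℝ) else 0) else 0 := by
      intro f
      rw [hP, ← sum_aw hB α β (Db + e) d n α₁ c (fun f' => if b₁ ∣ f - f' then (1 : ℝ) else 0),
        smul_eq_mul, mul_sum]
      refine sum_congr rfl fun f' _ => ?_
      by_cases h : b₁ ∣ f - f'
      · simp [h]
      · simp [h]
    simp_rw [h1]
    rw [sum_aw hB α β (Db + e) d n α₁ c]
    refine sum_congr rfl fun v _ => ?_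
    by_cases hv : Ph α β (Db + e) α₁ c (∏ i, v i)
    · rw [if_pos hv]
      refine sum_congr rfl fun v' _ => ?_
      by_cases h1 : b₁ ∣ ∏ i, v i - ∏ i, v' i
      · by_cases h2 : Ph α β (Db + e) α₁ c (∏ i, v' i)
        · simp [h1, h2, hv]
        · simp [h2]
      · simp [h1]
    · rw [if_neg hv]
      simp [hv]
  simp_rw [hR]
  -- the left-hand side
  have hLL : ∀ c, (cn (Cop (α * β) d) (Cop (α * β) e) n β α₁ b₁ c : ℝ) ^ 2 =
      ∑ v ∈ P, ∑ v' ∈ P, (if (Ph α β (Db + e) α₁ c (∏ i, v i) ∧ b₁ ∣ c - α₁ * ∏ i, v i) ∧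
        (Ph α β (Db + e) α₁ c (∏ i, v' i) ∧ b₁ ∣ c - α₁ * ∏ i, v' i) then (1 : ℝ) else 0) := by
    intro c
    rw [cn_eq hB hβ hb₁, sq, sum_mul_sum]
    refine sum_congr rfl fun v _ => sum_congr rfl fun v' _ => ?_
    by_cases h1 : (Ph α β (Db + e) α₁ c (∏ i, v i) ∧ b₁ ∣ c - α₁ * ∏ i, v i)
    · by_cases h2 : (Ph α β (Db + e) α₁ c (∏ i, v' i) ∧ b₁ ∣ c - α₁ * ∏ i, v' i)
      · simp [h1, h2]
      · simp [h1, h2]
    · simp [h1]
  simp_rw [hLL]
  rw [sum_comm, sum_mul, sum_comm (s := Cop (α * β) L)]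
  refine sum_le_sum fun v hv => ?_
  rw [sum_comm, sum_mul, sum_comm (s := Cop (α * β) L)]
  refine sum_le_sum fun v' hv' => ?_
  rw [sum_boole, sum_boole]
  by_cases hdv : b₁ ∣ ∏ i, v i - ∏ i, v' i
  · have h1 := equi_c hB hBC hα hβ (E := Db + e) (L := L) (by omega) hE hb.1 hb.2.2
      (by rw [hb.2.1]; omega)
      (fun c => Ph α β (Db + e) α₁ c (∏ i, v i) ∧ Ph α β (Db + e) α₁ c (∏ i, v' i))
      (fun c u hu h => ⟨ph_add hB hα hβ (by omega) hu h.1, ph_add hB hα hβ (by omega) hu h.2⟩)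
      (α₁ * ∏ i, v i)
    rw [hb.2.1] at h1
    refine (mul_le_mul_of_nonneg_right ?_ (by positivity)).trans (h1.le.trans (le_of_eq ?_))
    swap
    · congr 2
      ext c
      simp only [mem_filter]
      constructor
      · rintro ⟨h2, h3⟩
        exact ⟨h2, hdv, h3⟩
      · rintro ⟨h2, _, h3⟩
        exact ⟨h2, h3⟩
    rw [Nat.cast_le]
    refine card_le_card fun c hc => ?_
    simp only [mem_filter] at hc ⊢
    exact ⟨hc.1, ⟨hc.2.1.1, hc.2.2.1⟩, hc.2.1.2⟩
  · have h3 : ((Cop (α * β) L).filter (fun c => (Ph α β (Db + e) α₁ c (∏ i, v i) ∧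
        b₁ ∣ c - α₁ * ∏ i, v i) ∧ (Ph α β (Db + e) α₁ c (∏ i, v' i) ∧
          b₁ ∣ c - α₁ * ∏ i, v' i))) = ∅ := by
      rw [filter_eq_empty_iff]
      intro c _ h
      apply hdv
      have h4 : b₁ ∣ α₁ * (∏ i, v i - ∏ i, v' i) := by
        have h5 := dvd_sub h.2.2 h.1.2
        have h6 : c - α₁ * ∏ i, v' i - (c - α₁ * ∏ i, v i) =
            α₁ * (∏ i, v i - ∏ i, v' i) := by ring
        rwa [h6] at h5
      exact hcop₁.symm.dvd_of_dvd_mul_left h4
    rw [h3]
    simp only [card_empty, Nat.cast_zero, zero_mul]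
    positivity

end c3

end Pool.Agent.T9h42.GF
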