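import Pool.Agent.T9h42.GF.C3

/-!
# The core estimate, part 4: the bound from the large sieve
-/

set_option autoImplicit false

namespace Pool.Agent.T9h42.GF

open Polynomial Finset

theorem geom_tail (x : ℝ) (hx0 : 0 ≤ x) (hx1 : x < 1) (w D : ℕ) :
    ∑ n ∈ Icc 1 D, (if n ≤ w then 0 else x ^ n) ≤ x ^ (w + 1) / (1 - x) := by
  have h1 : ∀ D, ∑ n ∈ range D, (if n ≤ w then 0 else x ^ n) ≤ x ^ (w + 1) / (1 - x) := by
    intro D
    have h2 : ∑ n ∈ range D, (if n ≤ w then 0 else x ^ n) =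
        ∑ n ∈ (range D).filter (fun n => ¬ n ≤ w), x ^ n := by
      rw [sum_filter]
      refine sum_congr rfl fun n _ => ?_
      by_cases h : n ≤ w <;> simp [h]
    have h3 : (range D).filter (fun n => ¬ n ≤ w) ⊆ Ico (w + 1) (D + w + 1) := by
      intro n hn
      rw [mem_filter, mem_range] at hn
      rw [mem_Ico]
      omega
    rw [h2]
    refine (sum_le_sum_of_subset_of_nonneg h3 fun n _ _ => pow_nonneg hx0 n).trans ?_
    rw [sum_Ico_eq_sum_range]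
    have h4 : ∀ i ∈ range (D + w + 1 - (w + 1)), x ^ (w + 1 + i) = x ^ (w + 1) * x ^ i := by
      intro i _
      rw [pow_add]
    rw [sum_congr rfl h4, ← mul_sum, div_eq_mul_inv]
    refine mul_le_mul_of_nonneg_left ?_ (pow_nonneg hx0 _)
    rw [← tsum_geometric_of_lt_one hx0 hx1]
    exact Summable.sum_le_tsum _ (fun i _ => pow_nonneg hx0 i)
      (summable_geometric_of_lt_one hx0 hx1)
  refine le_trans (sum_le_sum_of_subset_of_nonneg (t := range (D + 1)) ?_ ?_) (h1 (D + 1))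
  · intro n hn
    rw [mem_Icc] at hn
    rw [mem_range]
    omega
  · intro n _ _
    by_cases h : n ≤ w <;> simp [h, pow_nonneg hx0]

theorem two_pow_div_le (n : ℕ) : (2 : ℝ) ^ (n / 5) ≤ (5 / 4 : ℝ) ^ n := by
  calc (2 : ℝ) ^ (n / 5) ≤ ((5 / 4 : ℝ) ^ 5) ^ (n / 5) := pow_le_pow_left₀ (by norm_num)
        (by norm_num) _
    _ = (5 / 4 : ℝ) ^ (5 * (n / 5)) := by rw [← pow_mul]
    _ ≤ (5 / 4 : ℝ) ^ n := pow_le_pow_right₀ (by norm_num) (by omega)

theorem mul_div_le_div (a n w K d : ℕ) (hK : 0 < K) (hw : 4 * K ≤ w + 1) (h : a * n ≤ K * d) :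
    a * (n / (w + 1)) ≤ d / 4 := by
  have h1 : a * (n / (w + 1)) ≤ (a * n) / (w + 1) := Nat.mul_div_le_mul_div_assoc a n (w + 1)
  have h2 : (a * n) / (w + 1) ≤ (K * d) / (w + 1) := Nat.div_le_div_right h
  have h3 : (K * d) / (w + 1) ≤ (K * d) / (4 * K) := Nat.div_le_div_left hw (by omega)
  have h4 : (K * d) / (4 * K) = d / 4 := by
    rw [mul_comm 4 K]
    exact Nat.mul_div_mul_left d 4 hK
  omega

section c4

variable {k : Type} [Field k] [Fintype k]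

theorem aw_nonneg (α β : k[X]) (E d n : ℕ) (α₁ c f : k[X]) : 0 ≤ aw α β E d n α₁ c f := by
  classical
  unfold aw
  refine sum_nonneg fun v _ => ?_
  split_ifs
  · exact zero_le_one
  · exact le_refl _

theorem aw_le (hB : BoxMem) (hT : Tau) {α β : k[X]} {w : ℕ}
    (hw : ∀ π : k[X], Irreducible π → π.natDegree ≤ w → π ∣ α * β) (E d n : ℕ)
    (α₁ c f : k[X]) (hf : f ∈ Cop (α * β) (n * d)) (hwn : 4 * (n * n + 1) ≤ w + 1) :
    aw α β E d n α₁ c f ≤ 2 ^ (d / 4) := by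
  classical
  rw [mem_cop hB] at hf
  obtain ⟨h1, h2, h3⟩ := hf
  have h4 := tau_le hT hw h1.ne_zero h3
  unfold aw
  rw [sum_boole]
  have h5 : ((Fintype.piFinset (fun _ : Fin n => Cop (α * β) d)).filter
      (fun v => ∏ i, v i = f ∧ Ph α β E α₁ c f)) ⊆ Fintype.piFinset (fun _ : Fin n => mdiv f) := by
    intro v hv
    rw [mem_filter, Fintype.mem_piFinset] at hv
    rw [Fintype.mem_piFinset]
    intro i
    rw [(hB k).2.2.2.1 f (v i) h1.ne_zero]
    refine ⟨((mem_cop hB).1 (hv.1 i)).1, ?_⟩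
    rw [← hv.2.1]
    exact dvd_prod_of_mem _ (mem_univ i)
  have h6 := card_le_card h5
  rw [Fintype.card_piFinset_const] at h6
  have h7 : (mdiv f).card ^ n ≤ 2 ^ (d / 4) := by
    refine (Nat.pow_le_pow_left h4 n).trans ?_
    rw [← pow_mul]
    refine Nat.pow_le_pow_right (by norm_num) ?_
    rw [h2, mul_comm]
    refine mul_div_le_div n (n * d) w (n * n + 1) d (by omega) hwn ?_
    nlinarith
  exact_mod_cast h6.trans h7

end c4

/-- the bound from the sieve. -/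
def SieveBound : Prop :=
  ∀ (k : Type) [Field k] [Fintype k] (r : ℕ) (ε : ℝ), 1 ≤ r → 0 < ε →
    ∃ w₀ : ℕ, ∀ w : ℕ, w₀ ≤ w → ∀ (α β : k[X]), α.Monic → β.Monic →
      (∀ π : k[X], Irreducible π → π.natDegree ≤ w → π ∣ α * β) →
    ∀ j : ℕ, β.natDegree < α.natDegree + 2 * r * j → ∃ d₀ : ℕ, ∀ d : ℕ, d₀ ≤ d →
    ∀ (e L n n' : ℕ), e = (2 * r + 2) * d - j → L = α.natDegree + 2 * r * (2 * r + 2) * d →
      n = 2 * r * (2 * r + 1) → n = n' + 1 →
    ∀ α₁ : k[X], α₁.Monic → α ∣ α₁ → IsCoprime α₁ β → α₁.natDegree = α.natDegree + 2 * r * d →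
    ∀ c ∈ Cop (α * β) L,
      ∑ t ∈ Fintype.piFinset (fun _ : Fin (2 * r - 1) => Cop (α * β) e),
        (Fintype.card k : ℝ) ^ ((2 * r - 1) * e) *
        (open Classical in ∑ f ∈ Cop (α * β) (n * d), ∑ f' ∈ Cop (α * β) (n * d),
          if (∏ i, t i) ∣ f - f' then aw α β ((2 * r - 1) * e + e) d n α₁ c f *
            aw α β ((2 * r - 1) * e + e) d n α₁ c f' else 0) ≤
      (1 + ε) * (((Cop (α * β) e).card : ℝ) ^ (2 * r - 1) *
        (((Cop (α * β) d).card : ℝ) ^ n /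
          (Fintype.card k : ℝ) ^ (L - ((2 * r - 1) * e + e))) ^ 2)

/-- PIECE `CoreOf`. Notation: `X`, `Y`, `C` the three `Cop`s, `q = #k`, `n = 2r(2r+1)`,
`Db = (2r-1)e`, `E = Db + e`, `κ = q^(L-E)`; for `u`, `t`: `α₁ = α ∏ u`, `b₁ = ∏ t`,
`wn = |C| cn / (|X|^n |Y|)` (`wn_eq`).
(1) `∑_c wn = |C|` (`sum_cn`).
(2) if `∏ u`, `∏ t` are coprime, `∑_c wn² ≤ (|C|/(|X|^n |Y|))² q^(-Db) ∑_c ∑_{f,f'} ...` (`sum_cn_sq`);
hence, `SieveBound` (for `ε' = ε²/8`), `|C|/|Y| = q^(L-e)` (`cop_ratio`) and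
`2(L-e) - 2Db - 2(L-E) = 0`:  `∑_{t coprime to u} ∑_c wn² ≤ (1+ε') |C| |Y|^(2r-1)` for each `u`
(the summands for the `t` which are not coprime to `u` are `≥ 0`, so they may be added before
`SieveBound`).
(3) `∑_{(u,t) coprime} ∑_c (wn-1)² = ∑ wn² - ∑ |C| ≤ |C| (ε' |X|^(2r) |Y|^(2r-1) + #noncoprime)`.
(4) `#noncoprime ≤ (2r)(2r-1) ε₁ |X|^(2r) |Y|^(2r-1)` by `NonCop` for `ε₁ = ε²/(32 r²)`
(`∏ u`, `∏ t` not coprime ⟹ some `u i`, `t j` not coprime; `Fintype.sum_piFinset_apply`).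
(5) Cauchy-Schwarz on the coprime part, `∑_c |wn - 1| ≤ 2|C|` on the other part.
(`ε ≤ 1` without loss of generality.) `w` = maximum of the two `w`'s; `L - E = deg α + 2rj`. -/
def CoreOf : Prop :=
  BoxMem → BoxCount → BoxCop → NonCop → SieveBound → Core

end Pool.Agent.T9h42.GF
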