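import Pool.Agent.T9h42.GF.C4

/-!
# The core estimate, part 5: proof of `SieveBound`
-/

set_option autoImplicit false

namespace Pool.Agent.T9h42.GF

open Polynomial Finset

theorem lim_small (q A : ℝ) (hq : 2 ≤ q) (hA : 0 ≤ A) (c1 : ℕ) (ε : ℝ) (hε : 0 < ε) :
    ∃ d₀ : ℕ, ∀ d : ℕ, d₀ ≤ d → A * d * 2 ^ (2 * (d / 4)) ≤ ε * q ^ (d - c1) := by
  have h1 := tendsto_self_mul_const_pow_of_lt_one (r := (1 / 2 : ℝ)) (by norm_num) (by norm_num)
  set A' : ℝ := 3 * A * 2 ^ c1 with hA'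
  have hA'0 : 0 ≤ A' := by positivity
  have h2 := h1.eventually (gt_mem_nhds (show (0 : ℝ) < ε / (A' + 1) by positivity))
  obtain ⟨m₀, hm₀⟩ := Filter.eventually_atTop.1 h2
  refine ⟨2 * (m₀ + 1) + c1, fun d hd => ?_⟩
  set m := d / 2 with hm
  have hm1 : m₀ ≤ m := by omega
  have hm2 : 1 ≤ m := by omega
  have h3 := (hm₀ m hm1).le
  have h4 : (m : ℝ) * (A' + 1) ≤ ε * 2 ^ m := by
    rw [le_div_iff₀ (by positivity)] at h3
    have h5 : (m : ℝ) * (1 / 2) ^ m * (A' + 1) * 2 ^ m = m * (A' + 1) := by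
      have : (1 / 2 : ℝ) ^ m * 2 ^ m = 1 := by
        rw [← mul_pow]
        norm_num
      linear_combination (m : ℝ) * (A' + 1) * this
    rw [← h5]
    exact mul_le_mul_of_nonneg_right h3 (by positivity)
  have h6 : (d : ℝ) ≤ 3 * m := by
    have : d ≤ 3 * m := by omega
    exact_mod_cast this
  have h7 : (2 : ℝ) ^ (2 * (d / 4)) ≤ 2 ^ m := pow_le_pow_right₀ (by norm_num) (by omega)
  have h8 : (2 : ℝ) ^ m * 2 ^ m ≤ q ^ (d - c1) * 2 ^ c1 := by
    calc (2 : ℝ) ^ m * 2 ^ m = 2 ^ (m + m) := by rw [pow_add]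
      _ ≤ 2 ^ (d - c1 + c1) := pow_le_pow_right₀ (by norm_num) (by omega)
      _ = 2 ^ (d - c1) * 2 ^ c1 := by rw [pow_add]
      _ ≤ q ^ (d - c1) * 2 ^ c1 := mul_le_mul_of_nonneg_right
          (pow_le_pow_left₀ (by norm_num) hq _) (by positivity)
  -- combine
  have h9 : A * d * 2 ^ (2 * (d / 4)) * 2 ^ c1 ≤ (A' * m) * 2 ^ m := by
    calc A * d * 2 ^ (2 * (d / 4)) * 2 ^ c1 ≤ A * (3 * m) * 2 ^ m * 2 ^ c1 := by gcongr
      _ = (A' * m) * 2 ^ m := by rw [hA']; ring
  have h10 : (A' * m) * 2 ^ m ≤ ε * 2 ^ m * 2 ^ m := by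
    refine mul_le_mul_of_nonneg_right ?_ (by positivity)
    have : (0 : ℝ) ≤ m := by positivity
    nlinarith
  have h11 : ε * 2 ^ m * 2 ^ m ≤ ε * q ^ (d - c1) * 2 ^ c1 := by
    rw [mul_assoc, mul_assoc]
    exact mul_le_mul_of_nonneg_left h8 hε.le
  exact le_of_mul_le_mul_right ((h9.trans h10).trans h11) (by positivity)

/-- numerical data. -/
theorem nums (r d j a b : ℕ) (hr : 1 ≤ r) (hj : j ≤ d) (hb : b < a + 2 * r * j) (e L n : ℕ)
    (he : e = (2 * r + 2) * d - j) (hL : L = a + 2 * r * (2 * r + 2) * d)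
    (hn : n = 2 * r * (2 * r + 1)) :
    (L = (2 * r - 1) * e + e + (a + 2 * r * j)) ∧ (a + 2 * r * d + n * d = L) ∧ d ≤ e ∧
      ((2 * r - 1) * e + 2 * d ≤ n * d) ∧ (2 * r - 1) * e ≤ (2 * r - 1) * (2 * r + 2) * d := by
  obtain ⟨r', rfl⟩ : ∃ r', r = r' + 1 := ⟨r - 1, by omega⟩
  obtain ⟨i, rfl⟩ : ∃ i, d = j + i := ⟨d - j, by omega⟩
  have he' : e = (2 * r' + 3) * (j + i) + i := by
    rw [he]
    have : (2 * (r' + 1) + 2) * (j + i) = (2 * r' + 3) * (j + i) + i + j := by ring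
    omega
  have h2 : 2 * (r' + 1) - 1 = 2 * r' + 1 := by omega
  rw [h2]
  subst he' hL hn
  refine ⟨by ring, by ring, ?_, ?_, ?_⟩
  · nlinarith
  · nlinarith
  · nlinarith

theorem sieveBound (hB : BoxMem) (hCop : BoxCop) (hBC : BoxCount) (hDC : DivCount)
    (hLC : LocCount) (hT : Tau) (hDP : DivProd) (hS : Sieve) : SieveBound := by
  classical
  intro k _ _ r ε hr hε
  set s1 := 2 * r - 1 with hs1
  set n0 := 2 * r * (2 * r + 1) with hn0
  set B0 := s1 + 2 * n0 with hB0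
  have hB0pos : 0 < B0 := by omega
  set q : ℝ := (Fintype.card k : ℝ) with hq
  have hq0 : 0 < q := q_pos
  have hq2 : 2 ≤ q := two_le_q
  have hq1 : 1 ≤ q := by linarith
  obtain ⟨w1, hw1⟩ : ∃ w1 : ℕ, ∀ w : ℕ, w1 ≤ w → (5 / 8 : ℝ) ^ (w + 1) / (1 - 5 / 8) ≤ ε / 2 := by
    have h1 := tendsto_pow_atTop_nhds_zero_of_lt_one (r := (5 / 8 : ℝ)) (by norm_num)
      (by norm_num)
    have h2 := h1.eventually (gt_mem_nhds (show (0 : ℝ) < ε / 2 * (1 - 5 / 8) by positivity))
    obtain ⟨m₀, hm₀⟩ := Filter.eventually_atTop.1 h2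
    refine ⟨m₀, fun w hw => ?_⟩
    rw [div_le_iff₀ (by norm_num)]
    exact (hm₀ (w + 1) (by omega)).le
  refine ⟨w1 + (5 * B0 + 4 * (s1 * (s1 * (2 * r + 2)) + 1) + 4 * (n0 * n0 + 1)), ?_⟩
  intro w hw α β hα hβ hprim j hj
  have hM0 : (α * β) ≠ 0 := mul_ne_zero hα.ne_zero hβ.ne_zero
  set M := α * β with hMdef
  set κ₀ := α.natDegree + 2 * r * j with hκ₀
  set c1 := κ₀ + M.natDegree with hc1
  set A : ℝ := q ^ κ₀ * (s1 * (2 * r + 2) : ℕ) * (q ^ M.natDegree) ^ (s1 + n0) with hA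
  obtain ⟨d1, hd1⟩ := lim_small q A hq2 (by positivity) c1 (ε / 2) (by positivity)
  refine ⟨d1 + c1 + j, ?_⟩
  intro d hd e L n n' he hL hn hn' α₁ hα₁ hdvd hcop hα₁d c hc
  obtain ⟨hN1, hN2, hN3, hN4, hN5⟩ := nums r d j α.natDegree β.natDegree hr (by omega) hj e L n
    he hL hn
  rw [← hs1] at hN1 hN4 hN5
  have hnn0 : n = n0 := hn
  set E := s1 * e + e with hE
  set D₀ := d - c1 with hD₀
  have hκ : L - E = κ₀ := by omega
  set x : ℝ := ((Cop M d).card : ℝ) with hx
  set y : ℝ := ((Cop M e).card : ℝ) with hy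
  have hMd : M.natDegree ≤ d := by omega
  have hMe : M.natDegree ≤ e := by omega
  have hx0 : 0 < x := by
    rw [hx]
    exact_mod_cast cop_pos hB hCop M hM0 d hMd
  have hy0 : 0 < y := by
    rw [hy]
    exact_mod_cast cop_pos hB hCop M hM0 e hMe
  have hEL : β.natDegree + E < L := by omega
  have hwM : ∀ π : k[X], Irreducible π → π.natDegree ≤ w → π ∣ M := hprim
  set Z : ℝ := y ^ s1 * (x ^ n / q ^ (L - E)) ^ 2 with hZ
  have hZ0 : 0 ≤ Z := by positivity
  -- divisor counts for `Y`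
  have hDY1 : ∀ h : k[X], h.Monic → IsCoprime h M → M.natDegree + h.natDegree ≤ e →
      (((Fintype.piFinset (fun _ : Fin s1 => Cop M e)).filter (fun t => h ∣ ∏ i, t i)).card : ℝ) *
        q ^ h.natDegree ≤ ((mdiv h).card : ℝ) ^ s1 * y ^ s1 := by
    intro h hh hhM hhe
    have h1 := hDP k h (Cop M e) 1 s1 hh zero_le_one (fun g hg hgh => by
      have h21 := (hDC k M hM0 g e hg (hhM.of_isCoprime_of_dvd_left hgh) hMe).1 (by
        have := natDegree_le_of_dvd hgh hh.ne_zero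
        omega)
      rw [one_mul]
      exact_mod_cast h21.le)
    rw [ncard_pi, one_pow, mul_one] at h1
    exact h1
  have hDY2 : ∀ h : k[X], h.Monic → IsCoprime h M →
      (((Fintype.piFinset (fun _ : Fin s1 => Cop M e)).filter (fun t => h ∣ ∏ i, t i)).card : ℝ) *
        q ^ h.natDegree ≤ ((mdiv h).card : ℝ) ^ s1 * (q ^ M.natDegree) ^ s1 * y ^ s1 := by
    intro h hh hhM
    have h1 := hDP k h (Cop M e) (q ^ M.natDegree) s1 hh (by positivity) (fun g hg hgh => by
      have h21 := (hDC k M hM0 g e hg (hhM.of_isCoprime_of_dvd_left hgh) hMe).2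
      rw [hq]
      exact_mod_cast h21)
    rw [ncard_pi] at h1
    exact h1
  -- apply the sieve
  have key := hS k M (Cop M (n * d)) (aw α β E d n α₁ c) (n * d + 1)
    {t // t ∈ Fintype.piFinset (fun _ : Fin s1 => Cop M e)} (fun t => ∏ i, t.1 i) (s1 * e) D₀
    (fun h => ((mdiv h).card : ℝ) ^ n' * x ^ n / (q ^ (L - E) * q ^ h.natDegree))
    (fun n₁ => 2 ^ (d / 4) * (q ^ M.natDegree) ^ s1 * y ^ s1 / q ^ n₁)
    ?_ (aw_nonneg α β E d n α₁ c) ?_ ?_ ?_ ?_
  rotate_left
  · intro f hf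
    rw [mem_cop hB] at hf
    rw [degree_eq_natDegree hf.1.ne_zero, hf.2.1]
    exact_mod_cast Nat.lt_succ_self _
  · intro t
    have h1 := prod_mem_cop hB (fun i => (Fintype.mem_piFinset.1 t.2) i)
    rw [mem_cop hB] at h1
    exact ⟨h1.1, h1.2.1.le, h1.2.2⟩
  · intro χ h hχ h1 h2 h3
    have h4 := char_aw hB hLC hBC hDC hDP α β hα hβ α₁ hα₁ hcop hdvd L E d n'
      (by rw [hα₁d, ← hn']; omega) hEL c hc χ h hχ h3 (by rw [← hMdef]; omega)
      (by rw [← hMdef]; omega)
    rw [← hn'] at h4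
    exact h4
  · intro h hh hhM hhD
    rw [ncard_sub (Fintype.piFinset (fun _ : Fin s1 => Cop M e)) (fun t => h ∣ ∏ i, t i)]
    rw [le_div_iff₀ (by positivity)]
    by_cases hdeg : h.natDegree ≤ s1 * e
    · refine (hDY2 h hh hhM).trans ?_
      have h1 : ((mdiv h).card : ℝ) ^ s1 ≤ 2 ^ (d / 4) := by
        have h2 := tau_le hT hwM hh.ne_zero hhM
        have h3 : (mdiv h).card ^ s1 ≤ 2 ^ (d / 4) := by
          refine (Nat.pow_le_pow_left h2 s1).trans ?_
          rw [← pow_mul]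
          refine Nat.pow_le_pow_right (by norm_num) ?_
          rw [mul_comm]
          refine mul_div_le_div s1 h.natDegree w (s1 * (s1 * (2 * r + 2)) + 1) d (by omega)
            (by omega) ?_
          calc s1 * h.natDegree ≤ s1 * (s1 * (2 * r + 2) * d) :=
                Nat.mul_le_mul_left _ (hdeg.trans hN5)
            _ ≤ (s1 * (s1 * (2 * r + 2)) + 1) * d := by nlinarith
        exact_mod_cast h3
      have h5 : 0 ≤ (q ^ M.natDegree) ^ s1 * y ^ s1 := by positivity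
      rw [mul_assoc, mul_assoc]
      exact mul_le_mul_of_nonneg_right h1 h5
    · have h1 : (Fintype.piFinset (fun _ : Fin s1 => Cop M e)).filter (fun t => h ∣ ∏ i, t i) = ∅ := by
        rw [filter_eq_empty_iff]
        intro t ht hdv
        rw [Fintype.mem_piFinset] at ht
        have h2 := prod_mem_cop hB ht
        rw [mem_cop hB] at h2
        have h3 := natDegree_le_of_dvd hdv h2.1.ne_zero
        omega
      rw [h1]
      simp only [card_empty, Nat.cast_zero, zero_mul]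
      positivity
  · intro n₁
    positivity
  -- total mass
  have hsum : ∑ f ∈ Cop M (n * d), aw α β E d n α₁ c f = x ^ n / q ^ (L - E) := by
    have h1 := sum_aw_one hB hLC α β hα hβ α₁ hα₁ hcop hdvd L E d n'
      (by rw [hα₁d, ← hn']; omega) hEL c hc (by rw [← hMdef]; omega)
    rw [← hn'] at h1
    rw [eq_div_iff (by positivity)]
    exact h1
  -- left-hand side
  have hLHS : ∑ t ∈ Fintype.piFinset (fun _ : Fin s1 => Cop M e), q ^ (s1 * e) *
      (∑ f ∈ Cop M (n * d), ∑ f' ∈ Cop M (n * d), if (∏ i, t i) ∣ f - f' then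
        aw α β E d n α₁ c f * aw α β E d n α₁ c f' else 0) =
      ∑ t : {t // t ∈ Fintype.piFinset (fun _ : Fin s1 => Cop M e)},
        q ^ (∏ i, t.1 i).natDegree *
        ∑ f ∈ Cop M (n * d), ∑ f' ∈ Cop M (n * d), (if (∏ i, t.1 i) ∣ f - f' then
          aw α β E d n α₁ c f * aw α β E d n α₁ c f' else 0) := by
    rw [← sum_coe_sort (Fintype.piFinset (fun _ : Fin s1 => Cop M e))]
    refine sum_congr rfl fun t _ => ?_
    have h1 := prod_mem_cop hB (fun i => (Fintype.mem_piFinset.1 t.2) i)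
    rw [mem_cop hB] at h1
    rw [h1.2.1]
  rw [hLHS]
  refine key.trans ?_
  rw [Fintype.card_coe, Fintype.card_piFinset_const, hsum]
  -- second term
  have hT2 : ∑ h ∈ ((Icc 1 D₀).biUnion (fun n => Cop M n)),
        (({t : {t // t ∈ Fintype.piFinset (fun _ : Fin s1 => Cop M e)} |
          h ∣ ∏ i, t.1 i}.ncard : ℕ) : ℝ) * q ^ h.natDegree *
          (((mdiv h).card : ℝ) ^ n' * x ^ n / (q ^ (L - E) * q ^ h.natDegree)) ^ 2 ≤
      ε / 2 * Z := by
    rw [sum_biUnion]
    swap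
    · intro i _ j _ hij
      rw [Function.onFun, disjoint_left]
      intro h h1 h2
      rw [mem_cop hB] at h1 h2
      exact hij (h1.2.1.symm.trans h2.2.1)
    calc _ ≤ ∑ n₁ ∈ Icc 1 D₀, (if n₁ ≤ w then 0 else (5 / 8 : ℝ) ^ n₁) * Z := by
          refine sum_le_sum fun n₁ hn₁ => ?_
          rw [mem_Icc] at hn₁
          by_cases hnw : n₁ ≤ w
          · rw [cop_empty hB hwM hn₁.1 hnw, sum_empty, if_pos hnw, zero_mul]
          · rw [if_neg hnw]
            have hterm : ∀ h ∈ Cop M n₁, (({t : {t // t ∈ Fintype.piFinset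
                (fun _ : Fin s1 => Cop M e)} | h ∣ ∏ i, t.1 i}.ncard : ℕ) : ℝ) *
                q ^ h.natDegree *
                (((mdiv h).card : ℝ) ^ n' * x ^ n / (q ^ (L - E) * q ^ h.natDegree)) ^ 2 ≤
                (5 / 4 : ℝ) ^ n₁ * Z / (q ^ n₁) ^ 2 := by
              intro h hh
              rw [mem_cop hB] at hh
              obtain ⟨hh1, hh2, hh3⟩ := hh
              rw [ncard_sub (Fintype.piFinset (fun _ : Fin s1 => Cop M e))
                (fun t => h ∣ ∏ i, t i)]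
              have h1 := hDY1 h hh1 hh3 (by omega)
              have h2 : ((mdiv h).card : ℝ) ^ (s1 + 2 * n') ≤ (5 / 4 : ℝ) ^ n₁ := by
                have h3 := tau_le hT hwM hh1.ne_zero hh3
                rw [hh2] at h3
                have h4 : (mdiv h).card ^ (s1 + 2 * n') ≤ 2 ^ (n₁ / 5) := by
                  refine (Nat.pow_le_pow_left h3 _).trans ?_
                  rw [← pow_mul]
                  refine Nat.pow_le_pow_right (by norm_num) ?_
                  calc n₁ / (w + 1) * (s1 + 2 * n') ≤ n₁ / (w + 1) * B0 :=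
                        Nat.mul_le_mul_left _ (by omega)
                    _ = B0 * (n₁ / (w + 1)) := mul_comm _ _
                    _ ≤ (B0 * n₁) / (w + 1) := Nat.mul_div_le_mul_div_assoc _ _ _
                    _ ≤ (B0 * n₁) / (B0 * 5) := Nat.div_le_div_left (by omega) (by omega)
                    _ = n₁ / 5 := Nat.mul_div_mul_left _ _ hB0pos
                exact (by exact_mod_cast h4 : ((mdiv h).card : ℝ) ^ (s1 + 2 * n') ≤
                  (2 : ℝ) ^ (n₁ / 5)).trans (two_pow_div_le n₁)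
              rw [hh2] at h1 ⊢
              have h5 : 0 ≤ (((mdiv h).card : ℝ) ^ n' * x ^ n / (q ^ (L - E) * q ^ n₁)) ^ 2 := by
                positivity
              calc _ ≤ (((mdiv h).card : ℝ) ^ s1 * y ^ s1) *
                    (((mdiv h).card : ℝ) ^ n' * x ^ n / (q ^ (L - E) * q ^ n₁)) ^ 2 :=
                    mul_le_mul_of_nonneg_right h1 h5
                _ = ((mdiv h).card : ℝ) ^ (s1 + 2 * n') * Z / (q ^ n₁) ^ 2 := by
                    have e1 : ((mdiv h).card : ℝ) ^ (s1 + 2 * n') =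
                        ((mdiv h).card : ℝ) ^ s1 * (((mdiv h).card : ℝ) ^ n') ^ 2 := by
                      rw [pow_add, mul_comm 2 n', pow_mul]
                    rw [hZ, e1, div_pow, div_pow, mul_pow, mul_pow]
                    field_simp
                _ ≤ _ := by
                    refine div_le_div_of_nonneg_right ?_ (by positivity)
                    exact mul_le_mul_of_nonneg_right h2 hZ0
            refine (sum_le_sum hterm).trans ?_
            rw [sum_const, nsmul_eq_mul]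
            have h6 := cop_upper hB M n₁
            rw [← hq] at h6
            have h7 : (0 : ℝ) ≤ (5 / 4 : ℝ) ^ n₁ * Z / (q ^ n₁) ^ 2 := by positivity
            calc _ ≤ q ^ n₁ * ((5 / 4 : ℝ) ^ n₁ * Z / (q ^ n₁) ^ 2) :=
                  mul_le_mul_of_nonneg_right h6 h7
              _ = ((5 / 4 : ℝ) ^ n₁ / q ^ n₁) * Z := by
                  field_simp
              _ ≤ (5 / 8 : ℝ) ^ n₁ * Z := by
                  refine mul_le_mul_of_nonneg_right ?_ hZ0
                  rw [← div_pow]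
                  refine pow_le_pow_left₀ (by positivity) ?_ _
                  rw [div_le_iff₀ hq0]
                  linarith
      _ = (∑ n₁ ∈ Icc 1 D₀, (if n₁ ≤ w then 0 else (5 / 8 : ℝ) ^ n₁)) * Z := by rw [sum_mul]
      _ ≤ ε / 2 * Z := by
          refine mul_le_mul_of_nonneg_right ?_ hZ0
          exact (geom_tail _ (by norm_num) (by norm_num) w D₀).trans (hw1 w (by omega))
  -- third term
  have hT3 : ∑ n₁ ∈ Icc (D₀ + 1) (s1 * e), 2 ^ (d / 4) * (q ^ M.natDegree) ^ s1 * y ^ s1 / q ^ n₁ *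
        q ^ (max (2 * n₁) (n * d + 1)) * ∑ f ∈ Cop M (n * d), aw α β E d n α₁ c f ^ 2 ≤
      ε / 2 * Z := by
    have hsq : ∑ f ∈ Cop M (n * d), aw α β E d n α₁ c f ^ 2 ≤
        2 ^ (d / 4) * (x ^ n / q ^ (L - E)) := by
      rw [← hsum, mul_sum]
      refine sum_le_sum fun f hf => ?_
      rw [sq]
      refine mul_le_mul_of_nonneg_right ?_ (aw_nonneg _ _ _ _ _ _ _ _)
      exact aw_le hB hT hwM E d n α₁ c f hf (by rw [hnn0]; omega)
    have hxl : q ^ (n * d) ≤ (q ^ M.natDegree) ^ n * x ^ n := by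
      have h1 := cop_lower hB hCop M hM0 d hMd
      rw [← hq, ← hx] at h1
      rw [← mul_pow, mul_comm n d, pow_mul]
      exact pow_le_pow_left₀ (by positivity) h1 n
    have hterm : ∀ n₁ ∈ Icc (D₀ + 1) (s1 * e),
        2 ^ (d / 4) * (q ^ M.natDegree) ^ s1 * y ^ s1 / q ^ n₁ *
        q ^ (max (2 * n₁) (n * d + 1)) * ∑ f ∈ Cop M (n * d), aw α β E d n α₁ c f ^ 2 ≤
        (q ^ κ₀ * (q ^ M.natDegree) ^ (s1 + n0) * 2 ^ (2 * (d / 4)) / q ^ D₀) * Z := by
      intro n₁ hn₁
      rw [mem_Icc] at hn₁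
      have h1 : q ^ (max (2 * n₁) (n * d + 1)) * q ^ D₀ ≤ q ^ n₁ * q ^ (n * d) := by
        rw [← pow_add, ← pow_add]
        refine pow_le_pow_right₀ hq1 ?_
        rcases le_total (2 * n₁) (n * d + 1) with h | h
        · rw [max_eq_right h]
          omega
        · rw [max_eq_left h]
          omega
      have h2 : q ^ (max (2 * n₁) (n * d + 1)) / q ^ n₁ ≤ (q ^ M.natDegree) ^ n * x ^ n / q ^ D₀ := by
        rw [div_le_div_iff₀ (by positivity) (by positivity)]
        calc _ ≤ q ^ n₁ * q ^ (n * d) := h1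
          _ ≤ q ^ n₁ * ((q ^ M.natDegree) ^ n * x ^ n) :=
              mul_le_mul_of_nonneg_left hxl (by positivity)
          _ = _ := by ring
      calc _ = (2 ^ (d / 4) * (q ^ M.natDegree) ^ s1 * y ^ s1) *
            (q ^ (max (2 * n₁) (n * d + 1)) / q ^ n₁) *
            ∑ f ∈ Cop M (n * d), aw α β E d n α₁ c f ^ 2 := by ring
        _ ≤ (2 ^ (d / 4) * (q ^ M.natDegree) ^ s1 * y ^ s1) *
            ((q ^ M.natDegree) ^ n * x ^ n / q ^ D₀) *
            (2 ^ (d / 4) * (x ^ n / q ^ (L - E))) := by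
            gcongr
        _ = _ := by
            have e1 : (q ^ M.natDegree) ^ (s1 + n0) =
                (q ^ M.natDegree) ^ s1 * (q ^ M.natDegree) ^ n0 := pow_add _ _ _
            have e2 : (2 : ℝ) ^ (2 * (d / 4)) = 2 ^ (d / 4) * 2 ^ (d / 4) := by
              rw [two_mul, pow_add]
            rw [hZ, hκ, hnn0, e1, e2, div_pow]
            field_simp
    refine (sum_le_sum hterm).trans ?_
    rw [sum_const, nsmul_eq_mul, ← mul_assoc]
    refine mul_le_mul_of_nonneg_right ?_ hZ0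
    have h3 : ((Icc (D₀ + 1) (s1 * e)).card : ℝ) ≤ (s1 * (2 * r + 2) : ℕ) * d := by
      have h4 : (Icc (D₀ + 1) (s1 * e)).card ≤ s1 * (2 * r + 2) * d := by
        rw [Nat.card_Icc]
        omega
      exact_mod_cast h4
    have h5 := hd1 d (by omega)
    rw [← hD₀] at h5
    rw [← mul_div_assoc, div_le_iff₀ (by positivity)]
    refine le_trans ?_ h5
    rw [hA]
    have h6 : 0 ≤ q ^ κ₀ * (q ^ M.natDegree) ^ (s1 + n0) * 2 ^ (2 * (d / 4)) := by positivity
    calc _ ≤ ((s1 * (2 * r + 2) : ℕ) * d : ℝ) *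
          (q ^ κ₀ * (q ^ M.natDegree) ^ (s1 + n0) * 2 ^ (2 * (d / 4))) :=
          mul_le_mul_of_nonneg_right h3 h6
      _ = _ := by ring
  have hT1 : ((((Cop M e).card ^ s1 : ℕ)) : ℝ) * (x ^ n / q ^ (L - E)) ^ 2 = Z := by
    rw [hZ, hy]
    push_cast
    rfl
  rw [hT1]
  calc _ ≤ Z + ε / 2 * Z + ε / 2 * Z := add_le_add (add_le_add le_rfl hT2) hT3
    _ = (1 + ε) * Z := by ring

end Pool.Agent.T9h42.GF
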