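import Pool.Agent.T9h42.GF.C5

/-!
# The core estimate, part 6: proof of `CoreOf`
-/

set_option autoImplicit false

namespace Pool.Agent.T9h42.GF

open Polynomial Finset

section c6

/-- number of bad pairs. -/
theorem bad_pairs {R : Type} (X Y : Finset R) (P : R → R → Prop) (s1 s2 : ℕ) (η : ℝ)
    (Q : (Fin s1 → R) → (Fin s2 → R) → Prop)
    (hQ : ∀ u t, Q u t → ∃ i l, P (u i) (t l))
    (hP : (open Classical in (((X ×ˢ Y).filter (fun p => P p.1 p.2)).card : ℝ)) ≤
      η * X.card * Y.card) :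
    (open Classical in ∑ u ∈ Fintype.piFinset (fun _ : Fin s1 => X),
      ((((Fintype.piFinset (fun _ : Fin s2 => Y)).filter (fun t => Q u t)).card : ℕ) : ℝ)) ≤
      (s1 * s2 : ℕ) * η * ((X.card : ℝ) ^ s1 * (Y.card : ℝ) ^ s2) := by
  classical
  -- pass to sums over the pairs of slots
  have e1 : ∀ u ∈ Fintype.piFinset (fun _ : Fin s1 => X),
      ((((Fintype.piFinset (fun _ : Fin s2 => Y)).filter (fun t => Q u t)).card : ℕ) : ℝ) ≤
      ∑ i : Fin s1, ∑ l : Fin s2, ∑ t ∈ Fintype.piFinset (fun _ : Fin s2 => Y),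
        if P (u i) (t l) then (1 : ℝ) else 0 := by
    intro u _
    rw [← sum_boole]
    have e2 : ∑ i : Fin s1, ∑ l : Fin s2, ∑ t ∈ Fintype.piFinset (fun _ : Fin s2 => Y),
        (if P (u i) (t l) then (1 : ℝ) else 0) =
        ∑ t ∈ Fintype.piFinset (fun _ : Fin s2 => Y), ∑ i : Fin s1, ∑ l : Fin s2,
          (if P (u i) (t l) then (1 : ℝ) else 0) := by
      symm
      rw [sum_comm]
      refine sum_congr rfl fun i _ => ?_
      rw [sum_comm]
    rw [e2]
    refine sum_le_sum fun t _ => ?_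
    have hnn : ∀ (i : Fin s1) (l : Fin s2), (0 : ℝ) ≤ if P (u i) (t l) then (1 : ℝ) else 0 := by
      intro i l
      split_ifs
      · exact zero_le_one
      · exact le_refl _
    by_cases h : Q u t
    · rw [if_pos h]
      obtain ⟨i, l, hil⟩ := hQ u t h
      calc (1 : ℝ) = if P (u i) (t l) then (1 : ℝ) else 0 := by rw [if_pos hil]
        _ ≤ ∑ l : Fin s2, (if P (u i) (t l) then (1 : ℝ) else 0) :=
            single_le_sum (f := fun l => if P (u i) (t l) then (1 : ℝ) else 0)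
              (fun l _ => hnn i l) (mem_univ l)
        _ ≤ _ := single_le_sum (f := fun i => ∑ l : Fin s2, if P (u i) (t l) then (1 : ℝ) else 0)
              (fun i _ => sum_nonneg fun l _ => hnn i l) (mem_univ i)
    · rw [if_neg h]
      exact sum_nonneg fun i _ => sum_nonneg fun l _ => hnn i l
  refine (sum_le_sum e1).trans ?_
  have e3 : ∑ u ∈ Fintype.piFinset (fun _ : Fin s1 => X), ∑ i : Fin s1, ∑ l : Fin s2,
      ∑ t ∈ Fintype.piFinset (fun _ : Fin s2 => Y), (if P (u i) (t l) then (1 : ℝ) else 0) =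
      ∑ i : Fin s1, ∑ l : Fin s2, ∑ u ∈ Fintype.piFinset (fun _ : Fin s1 => X),
      ∑ t ∈ Fintype.piFinset (fun _ : Fin s2 => Y), (if P (u i) (t l) then (1 : ℝ) else 0) := by
    rw [sum_comm]
    refine sum_congr rfl fun i _ => ?_
    rw [sum_comm]
  rw [e3]
  have e4 : ∀ (i : Fin s1) (l : Fin s2), ∑ u ∈ Fintype.piFinset (fun _ : Fin s1 => X),
      ∑ t ∈ Fintype.piFinset (fun _ : Fin s2 => Y), (if P (u i) (t l) then (1 : ℝ) else 0) ≤
      η * ((X.card : ℝ) ^ s1 * (Y.card : ℝ) ^ s2) := by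
    intro i l
    have e5 : ∀ a : R, ∑ t ∈ Fintype.piFinset (fun _ : Fin s2 => Y),
        (if P a (t l) then (1 : ℝ) else 0) =
        (Y.card : ℝ) ^ (s2 - 1) * ∑ b ∈ Y, if P a b then (1 : ℝ) else 0 := by
      intro a
      rw [Fintype.sum_piFinset_apply (fun b => if P a b then (1 : ℝ) else 0) Y l, Fintype.card_fin,
        nsmul_eq_mul]
      push_cast
      rfl
    simp_rw [e5]
    rw [Fintype.sum_piFinset_apply (fun a => (Y.card : ℝ) ^ (s2 - 1) * ∑ b ∈ Y,
      if P a b then (1 : ℝ) else 0) X i, Fintype.card_fin, nsmul_eq_mul, ← mul_sum]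
    have e6 : ∑ a ∈ X, ∑ b ∈ Y, (if P a b then (1 : ℝ) else 0) =
        (((X ×ˢ Y).filter (fun p => P p.1 p.2)).card : ℝ) := by
      rw [← sum_boole, sum_product]
    rw [e6]
    have hi := i.pos
    have hl := l.pos
    have e7 : (X.card : ℝ) ^ s1 = (X.card : ℝ) ^ (s1 - 1) * X.card := by
      rw [← pow_succ]
      congr 1
      omega
    have e8 : (Y.card : ℝ) ^ s2 = (Y.card : ℝ) ^ (s2 - 1) * Y.card := by
      rw [← pow_succ]
      congr 1
      omega
    push_cast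
    rw [e7, e8]
    calc _ = ((X.card : ℝ) ^ (s1 - 1) * (Y.card : ℝ) ^ (s2 - 1)) *
          (((X ×ˢ Y).filter (fun p => P p.1 p.2)).card : ℝ) := by ring
      _ ≤ ((X.card : ℝ) ^ (s1 - 1) * (Y.card : ℝ) ^ (s2 - 1)) * (η * X.card * Y.card) := by
          refine mul_le_mul_of_nonneg_left ?_ (by positivity)
          convert hP
      _ = _ := by ring
  refine (sum_le_sum fun i _ => sum_le_sum fun l _ => e4 i l).trans (le_of_eq ?_)
  simp only [sum_const, card_univ, Fintype.card_fin, nsmul_eq_mul]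
  push_cast
  ring

end c6

/-- products that are not coprime. -/
theorem not_cop {k : Type} [Field k] {s1 s2 : ℕ} (u : Fin s1 → k[X]) (t : Fin s2 → k[X])
    (h : ¬ IsCoprime (∏ i, u i) (∏ l, t l)) : ∃ i l, ¬ IsCoprime (u i) (t l) := by
  by_contra hcon
  push Not at hcon
  exact h (IsCoprime.prod_left fun i _ => IsCoprime.prod_right fun l _ => hcon i l)

theorem coreOf : CoreOf := by
  classical
  intro hB hBC hCop hNC hSB k _ _ r ε hr hε
  set q : ℝ := (Fintype.card k : ℝ) with hq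
  have hq0 : 0 < q := q_pos
  set ε₀ : ℝ := min ε 1 with hε₀
  have hε0 : 0 < ε₀ := lt_min hε one_pos
  have hε1 : ε₀ ≤ 1 := min_le_right _ _
  have hεε : ε₀ ≤ ε := min_le_left _ _
  have hr0 : (0 : ℝ) < r := by exact_mod_cast hr
  obtain ⟨w1, hw1⟩ := hSB k r (ε₀ ^ 2 / 8) hr (by positivity)
  obtain ⟨w2, hw2⟩ := hNC k (ε₀ ^ 2 / (32 * r ^ 2)) (by positivity)
  refine ⟨max w1 w2, ?_⟩
  intro α β hα hβ hαβ hprim j hj
  have hM0 : (α * β) ≠ 0 := mul_ne_zero hα.ne_zero hβ.ne_zero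
  obtain ⟨d1, hd1⟩ := hw1 (max w1 w2) (le_max_left _ _) α β hα hβ hprim j hj
  obtain ⟨d2, hd2⟩ := hw2 (max w1 w2) (le_max_right _ _) (α * β) hM0 hprim
  set M := α * β with hMdef
  refine ⟨d1 + d2 + j + M.natDegree, ?_⟩
  intro d hd X Y C hX hY hC
  obtain ⟨hN1, hN2, hN3, hN4, hN5⟩ := nums r d j α.natDegree β.natDegree hr (by omega) hj
    ((2 * r + 2) * d - j) (α.natDegree + 2 * r * (2 * r + 2) * d) (2 * r * (2 * r + 1)) rfl rfl rfl
  obtain ⟨n', hn'⟩ : ∃ n', 2 * r * (2 * r + 1) = n' + 1 := by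
    refine ⟨2 * r * (2 * r + 1) - 1, ?_⟩
    have : 0 < 2 * r * (2 * r + 1) := by positivity
    omega
  have hSd := hd1 d (by omega) ((2 * r + 2) * d - j) (α.natDegree + 2 * r * (2 * r + 2) * d)
    (2 * r * (2 * r + 1)) n' rfl rfl rfl hn'
  have hNd := hd2 d ((2 * r + 2) * d - j) (by omega) (by omega)
  set e := (2 * r + 2) * d - j with he
  set L := α.natDegree + 2 * r * (2 * r + 2) * d with hL
  set n := 2 * r * (2 * r + 1) with hn
  rw [← hX, ← hY] at hNd
  have hMd : M.natDegree ≤ d := by omega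
  have hMe : M.natDegree ≤ e := by omega
  have hML : M.natDegree ≤ L := by omega
  have hX0 : 0 < X.card := by rw [hX]; exact cop_pos hB hCop M hM0 d hMd
  have hY0 : 0 < Y.card := by rw [hY]; exact cop_pos hB hCop M hM0 e hMe
  have hC0 : 0 < C.card := by rw [hC]; exact cop_pos hB hCop M hM0 L hML
  refine ⟨hX0, hY0, hC0, ?_⟩
  set s1 := 2 * r - 1 with hs1
  have hzy : (C.card : ℝ) = Y.card * q ^ (L - e) := by
    rw [hC, hY]
    exact cop_ratio hB hCop M hM0 e L hMe (by omega)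
  have hXr : (0 : ℝ) < X.card := by exact_mod_cast hX0
  have hYr : (0 : ℝ) < Y.card := by exact_mod_cast hY0
  have hCr : (0 : ℝ) < C.card := by exact_mod_cast hC0
  have hu : ∀ u ∈ Fintype.piFinset (fun _ : Fin (2 * r) => X), (α * ∏ i, u i).Monic ∧
      IsCoprime (α * ∏ i, u i) β ∧ (α * ∏ i, u i).natDegree = α.natDegree + 2 * r * d := by
    intro u hu
    rw [Fintype.mem_piFinset, hX] at hu
    have h1 := prod_mem_cop hB hu
    rw [mem_cop hB] at h1
    exact ⟨hα.mul h1.1,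
      IsCoprime.mul_left hαβ (h1.2.2.of_isCoprime_of_dvd_right (dvd_mul_left β α)),
      by rw [hα.natDegree_mul h1.1, h1.2.1]⟩
  have ht : ∀ t ∈ Fintype.piFinset (fun _ : Fin s1 => Y), (∏ i, t i) ∈ Cop M (s1 * e) := by
    intro t ht
    rw [Fintype.mem_piFinset, hY] at ht
    exact prod_mem_cop hB ht
  set PX := Fintype.piFinset (fun _ : Fin (2 * r) => X) with hPX
  set PY := Fintype.piFinset (fun _ : Fin s1 => Y) with hPY
  -- first moment
  have hW1 : ∀ u ∈ PX, ∀ t ∈ PY,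
      ∑ c ∈ C, wn C X Y n β (α * ∏ i, u i) (∏ i, t i) c = C.card := by
    intro u hu' t ht'
    obtain ⟨h1, h2, h3⟩ := hu u hu'
    have h4 := sum_cn hB hα hβ hαβ h1 h2 (dvd_mul_right α _) (L := L) (d := d) (e := e) (n := n)
      (ht t ht') (by rw [h3]; exact hN2) (by omega)
    rw [← hMdef, ← hX, ← hY, ← hC] at h4
    simp_rw [wn_eq]
    rw [← sum_div, ← mul_sum, h4]
    field_simp
  have hW0 : ∀ (u : Fin (2 * r) → k[X]) (t : Fin s1 → k[X]) (c : k[X]),
      0 ≤ wn C X Y n β (α * ∏ i, u i) (∏ i, t i) c := by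
    intro u t c
    rw [wn_eq]
    positivity
  -- second moment
  have hW2 : ∀ u ∈ PX, ∑ t ∈ PY.filter (fun t => IsCoprime (∏ i, u i) (∏ i, t i)),
      ∑ c ∈ C, wn C X Y n β (α * ∏ i, u i) (∏ i, t i) c ^ 2 ≤
      (1 + ε₀ ^ 2 / 8) * C.card * (Y.card : ℝ) ^ s1 := by
    intro u hu'
    obtain ⟨h1, h2, h3⟩ := hu u hu'
    set a := α * ∏ i, u i with ha
    set S : (Fin s1 → k[X]) → k[X] → ℝ := fun t c =>
      ∑ f ∈ Cop (α * β) (n * d), ∑ f' ∈ Cop (α * β) (n * d),
        if (∏ i, t i) ∣ f - f' then aw α β (s1 * e + e) d n a c f *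
          aw α β (s1 * e + e) d n a c f' else 0 with hS
    have hS0 : ∀ t c, 0 ≤ S t c := by
      intro t c
      rw [hS]
      refine sum_nonneg fun f _ => sum_nonneg fun f' _ => ?_
      split_ifs
      · exact mul_nonneg (aw_nonneg _ _ _ _ _ _ _ _) (aw_nonneg _ _ _ _ _ _ _ _)
      · exact le_refl _
    have h5 : ∀ t ∈ PY.filter (fun t => IsCoprime (∏ i, u i) (∏ i, t i)),
        ∑ c ∈ C, wn C X Y n β a (∏ i, t i) c ^ 2 ≤
          ((C.card : ℝ) / ((X.card : ℝ) ^ n * Y.card) / q ^ (s1 * e)) ^ 2 *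
            (q ^ (s1 * e) * ∑ c ∈ C, S t c) := by
      intro t ht'
      rw [mem_filter] at ht'
      have h6 := ht t ht'.1
      have h7 : IsCoprime a (∏ i, t i) := by
        refine IsCoprime.mul_left ?_ ht'.2
        rw [mem_cop hB] at h6
        exact (h6.2.2.of_isCoprime_of_dvd_right (dvd_mul_right α β)).symm
      have h8 := sum_cn_sq hB hBC hα hβ h7 (L := L) (d := d) (e := e) (n := n) h6
        (by omega) hMe
      rw [← hMdef, ← hX, ← hY, ← hC, ← hq] at h8
      have h9 : ∑ c ∈ C, wn C X Y n β a (∏ i, t i) c ^ 2 =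
          ((C.card : ℝ) / ((X.card : ℝ) ^ n * Y.card)) ^ 2 *
            ∑ c ∈ C, (cn X Y n β a (∏ i, t i) c : ℝ) ^ 2 := by
        rw [mul_sum]
        refine sum_congr rfl fun c _ => ?_
        rw [wn_eq]
        ring
      rw [h9]
      have h10 : ((C.card : ℝ) / ((X.card : ℝ) ^ n * Y.card) / q ^ (s1 * e)) ^ 2 *
            (q ^ (s1 * e) * ∑ c ∈ C, S t c) = ((C.card : ℝ) / ((X.card : ℝ) ^ n * Y.card)) ^ 2 *
            ((∑ c ∈ C, S t c) / q ^ (s1 * e)) := by
        field_simp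
      rw [h10]
      refine mul_le_mul_of_nonneg_left ?_ (by positivity)
      rw [le_div_iff₀ (by positivity)]
      exact h8
    refine (sum_le_sum h5).trans ?_
    rw [← mul_sum]
    have h11 : ∑ t ∈ PY.filter (fun t => IsCoprime (∏ i, u i) (∏ i, t i)),
        q ^ (s1 * e) * ∑ c ∈ C, S t c ≤ ∑ t ∈ PY, q ^ (s1 * e) * ∑ c ∈ C, S t c := by
      refine sum_le_sum_of_subset_of_nonneg (filter_subset _ _) fun t _ _ => ?_
      exact mul_nonneg (by positivity) (sum_nonneg fun c _ => hS0 t c)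
    have h12 : ∑ t ∈ PY, q ^ (s1 * e) * ∑ c ∈ C, S t c =
        ∑ c ∈ C, ∑ t ∈ PY, q ^ (s1 * e) * S t c := by
      rw [sum_comm]
      refine sum_congr rfl fun t _ => ?_
      rw [mul_sum]
    have h13 : ∀ c ∈ C, ∑ t ∈ PY, q ^ (s1 * e) * S t c ≤ (1 + ε₀ ^ 2 / 8) *
        ((Y.card : ℝ) ^ s1 * ((X.card : ℝ) ^ n / q ^ (L - (s1 * e + e))) ^ 2) := by
      intro c hc
      have h14 := hSd a h1 (dvd_mul_right α _) h2 h3 c (by rw [← hC]; exact hc)
      rw [← hX, ← hY, ← hq] at h14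
      exact h14
    have h15 : ∑ t ∈ PY.filter (fun t => IsCoprime (∏ i, u i) (∏ i, t i)),
        q ^ (s1 * e) * ∑ c ∈ C, S t c ≤ C.card * ((1 + ε₀ ^ 2 / 8) *
        ((Y.card : ℝ) ^ s1 * ((X.card : ℝ) ^ n / q ^ (L - (s1 * e + e))) ^ 2)) := by
      refine (h11.trans h12.le).trans ((sum_le_sum h13).trans (le_of_eq ?_))
      rw [sum_const, nsmul_eq_mul]
    refine (mul_le_mul_of_nonneg_left h15 (by positivity)).trans (le_of_eq ?_)
    have h16 : q ^ (L - e) = q ^ (s1 * e) * q ^ (L - (s1 * e + e)) := by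
      rw [← pow_add]
      congr 1
      omega
    have h17 : (C.card : ℝ) / ((X.card : ℝ) ^ n * Y.card) / q ^ (s1 * e) =
        q ^ (L - (s1 * e + e)) / (X.card : ℝ) ^ n := by
      rw [hzy, h16]
      field_simp
    rw [h17]
    field_simp
  -- the number of pairs which are not coprime
  set Nn : (Fin (2 * r) → k[X]) → ℝ := fun u =>
    ((PY.filter (fun t => ¬ IsCoprime (∏ i, u i) (∏ i, t i))).card : ℝ) with hNn
  have hbad : ∑ u ∈ PX, Nn u ≤ ε₀ ^ 2 / 8 * ((X.card : ℝ) ^ (2 * r) * (Y.card : ℝ) ^ s1) := by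
    have h1 := bad_pairs X Y (fun a b => ¬ IsCoprime a b) (2 * r) s1 (ε₀ ^ 2 / (32 * r ^ 2))
      (fun u t => ¬ IsCoprime (∏ i, u i) (∏ i, t i)) (fun u t h => not_cop u t h)
      (by convert hNd)
    refine le_trans (le_of_eq ?_) (h1.trans ?_)
    · rw [hNn]
      refine sum_congr rfl fun u _ => ?_
      show ((PY.filter (fun t => ¬ IsCoprime (∏ i, u i) (∏ i, t i))).card : ℝ) = _
      congr!
    · refine mul_le_mul_of_nonneg_right ?_ (by positivity)
      have h2 : ((2 * r * s1 : ℕ) : ℝ) ≤ 4 * (r : ℝ) ^ 2 := by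
        have : 2 * r * s1 ≤ 4 * r ^ 2 := by
          have h3 : s1 ≤ 2 * r := by omega
          calc 2 * r * s1 ≤ 2 * r * (2 * r) := Nat.mul_le_mul_left _ h3
            _ = 4 * r ^ 2 := by ring
        exact_mod_cast this
      calc ((2 * r * s1 : ℕ) : ℝ) * (ε₀ ^ 2 / (32 * r ^ 2)) ≤
            4 * (r : ℝ) ^ 2 * (ε₀ ^ 2 / (32 * r ^ 2)) :=
            mul_le_mul_of_nonneg_right h2 (by positivity)
        _ = ε₀ ^ 2 / 8 := by
            field_simp
            ring
  -- the bound for fixed `u`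
  have hfix : ∀ u ∈ PX, ∑ t ∈ PY, ∑ c ∈ C, |wn C X Y n β (α * ∏ i, u i) (∏ i, t i) c - 1| ≤
      (3 * ε₀ / 8) * ((Y.card : ℝ) ^ s1 * C.card) + (1 / ε₀ + 2) * C.card * Nn u := by
    intro u hu'
    rw [← sum_filter_add_sum_filter_not PY (fun t => IsCoprime (∏ i, u i) (∏ i, t i))]
    have h1 : ∑ t ∈ PY.filter (fun t => ¬ IsCoprime (∏ i, u i) (∏ i, t i)),
        ∑ c ∈ C, |wn C X Y n β (α * ∏ i, u i) (∏ i, t i) c - 1| ≤ 2 * C.card * Nn u := by
      have h2 : ∀ t ∈ PY.filter (fun t => ¬ IsCoprime (∏ i, u i) (∏ i, t i)),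
          ∑ c ∈ C, |wn C X Y n β (α * ∏ i, u i) (∏ i, t i) c - 1| ≤ 2 * C.card := by
        intro t ht'
        rw [mem_filter] at ht'
        have h3 : ∀ c ∈ C, |wn C X Y n β (α * ∏ i, u i) (∏ i, t i) c - 1| ≤
            wn C X Y n β (α * ∏ i, u i) (∏ i, t i) c + 1 := by
          intro c _
          have := hW0 u t c
          rw [abs_le]
          constructor <;> linarith
        refine (sum_le_sum h3).trans (le_of_eq ?_)
        rw [sum_add_distrib, hW1 u hu' t ht'.1, sum_const, nsmul_eq_mul]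
        ring
      refine (sum_le_sum h2).trans (le_of_eq ?_)
      rw [sum_const, nsmul_eq_mul, hNn]
      ring
    have h4 : ∑ t ∈ PY.filter (fun t => IsCoprime (∏ i, u i) (∏ i, t i)),
        ∑ c ∈ C, |wn C X Y n β (α * ∏ i, u i) (∏ i, t i) c - 1| ≤
        (3 * ε₀ / 8) * ((Y.card : ℝ) ^ s1 * C.card) + 1 / ε₀ * C.card * Nn u := by
      have h5 : ∀ t ∈ PY.filter (fun t => IsCoprime (∏ i, u i) (∏ i, t i)),
          ∑ c ∈ C, |wn C X Y n β (α * ∏ i, u i) (∏ i, t i) c - 1| ≤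
          (ε₀ / 4 - 1 / ε₀) * C.card +
            1 / ε₀ * ∑ c ∈ C, wn C X Y n β (α * ∏ i, u i) (∏ i, t i) c ^ 2 := by
        intro t ht'
        rw [mem_filter] at ht'
        have h6 : ∀ c ∈ C, |wn C X Y n β (α * ∏ i, u i) (∏ i, t i) c - 1| ≤
            (ε₀ / 4 + 1 / ε₀) + 1 / ε₀ * wn C X Y n β (α * ∏ i, u i) (∏ i, t i) c ^ 2 -
              2 / ε₀ * wn C X Y n β (α * ∏ i, u i) (∏ i, t i) c := by
          intro c _
          set v := wn C X Y n β (α * ∏ i, u i) (∏ i, t i) c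
          have h7 : (ε₀ / 4 + 1 / ε₀) + 1 / ε₀ * v ^ 2 - 2 / ε₀ * v - |v - 1| =
              (ε₀ / 2 - |v - 1|) ^ 2 / ε₀ := by
            have h8 : |v - 1| ^ 2 = (v - 1) ^ 2 := sq_abs _
            have h9 : (ε₀ / 2 - |v - 1|) ^ 2 = ε₀ ^ 2 / 4 - ε₀ * |v - 1| + (v - 1) ^ 2 := by
              rw [← h8]
              ring
            rw [h9]
            field_simp
            ring
          have h10 : 0 ≤ (ε₀ / 2 - |v - 1|) ^ 2 / ε₀ := by positivity
          linarith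
        refine (sum_le_sum h6).trans (le_of_eq ?_)
        rw [sum_sub_distrib, sum_add_distrib, ← mul_sum, ← mul_sum, hW1 u hu' t ht'.1, sum_const,
          nsmul_eq_mul]
        ring
      refine (sum_le_sum h5).trans ?_
      rw [sum_add_distrib, sum_const, ← mul_sum, nsmul_eq_mul]
      have h11 : ((PY.filter (fun t => IsCoprime (∏ i, u i) (∏ i, t i))).card : ℝ) =
          (Y.card : ℝ) ^ s1 - Nn u := by
        have h12 := card_filter_add_card_filter_not (s := PY)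
          (fun t => IsCoprime (∏ i, u i) (∏ i, t i))
        rw [hPY, Fintype.card_piFinset_const, ← hPY] at h12
        rw [hNn]
        have h13 := congrArg (Nat.cast (R := ℝ)) h12
        push_cast at h13
        linarith
      rw [h11]
      have h14 := mul_le_mul_of_nonneg_left (hW2 u hu') (show 0 ≤ 1 / ε₀ by positivity)
      have h15 : 0 ≤ Nn u := by
        rw [hNn]
        positivity
      have h16 : 0 ≤ ε₀ / 4 * C.card * Nn u := by positivity
      have h17 : 1 / ε₀ * ((1 + ε₀ ^ 2 / 8) * C.card * (Y.card : ℝ) ^ s1) =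
          (1 / ε₀ + ε₀ / 8) * C.card * (Y.card : ℝ) ^ s1 := by
        field_simp
      rw [h17] at h14
      nlinarith
    linarith
  refine (sum_le_sum hfix).trans ?_
  rw [sum_add_distrib, sum_const, nsmul_eq_mul, ← mul_sum, hPX, Fintype.card_piFinset_const,
    ← hPX]
  have h20 := mul_le_mul_of_nonneg_left hbad (show 0 ≤ (1 / ε₀ + 2) * C.card by positivity)
  have h21 : (1 / ε₀ + 2) * (ε₀ ^ 2 / 8) ≤ 3 * ε₀ / 8 := by
    have : (1 / ε₀ + 2) * (ε₀ ^ 2 / 8) = ε₀ / 8 + ε₀ * ε₀ / 4 := by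
      field_simp
      ring
    rw [this]
    nlinarith
  set T := (X.card : ℝ) ^ (2 * r) * (Y.card : ℝ) ^ s1 * C.card with hT
  have hT0 : 0 ≤ T := by positivity
  push_cast
  calc _ ≤ (3 * ε₀ / 8) * T + ((1 / ε₀ + 2) * (ε₀ ^ 2 / 8)) * T := by
        rw [hT]
        nlinarith
    _ ≤ (3 * ε₀ / 8) * T + (3 * ε₀ / 8) * T := by
        have := mul_le_mul_of_nonneg_right h21 hT0
        linarith
    _ ≤ ε * T := by nlinarith
    _ = _ := by
        rw [hT]
        ring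

end Pool.Agent.T9h42.GF
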