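import Pool.Agent.T9h59.GC.DOne
import Pool.Agent.TH358.MD.Weight
import Pool.Agent.H39R2.Gon.RMap

/-!
# Fields which are directed unions of fields `k(x)`, `k` finite
-/

set_option autoImplicit false

namespace Pool.Agent.T9h42.GF

open H39Gon H39Gon.TaskB Pool.Agent.TH358.MC Pool.Agent.TH358.MD

/-- Every finite subset of `F` is contained in a subfield of `F` isomorphic to `k(x)` for some
finite field `k` (which may depend on the subset). -/
def LocFin (F : Type) [Field F] : Prop :=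
  ∀ S : Finset F, ∃ (k : Type) (_ : Field k) (_ : Finite k) (φ : RatFunc k →+* F),
    ∀ a ∈ S, ∃ b, φ b = a

theorem locFin_trans (F : Type) [Field F]
    (h : ∀ S : Finset F, ∃ (K : Type) (_ : Field K) (φ : K →+* F), LocFin K ∧
      ∀ a ∈ S, ∃ b, φ b = a) : LocFin F := by
  classical
  intro S
  obtain ⟨K, _, φ, h1, h2⟩ := h S
  choose g hg using h2
  have h1' := h1 (S.attach.image fun a => g a.1 a.2)
  obtain ⟨k, i1, i2, ψ, h3⟩ := h1'
  refine ⟨k, i1, i2, φ.comp ψ, fun a ha => ?_⟩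
  obtain ⟨b, hb⟩ := h3 (g a ha) (Finset.mem_image.2 ⟨⟨a, ha⟩, Finset.mem_attach _ _, rfl⟩)
  exact ⟨b, by rw [RingHom.comp_apply, hb, hg]⟩

open Polynomial in
/-- `k(x)` for `k` algebraic over `F_p`. -/
theorem locFin_ratFunc (p : ℕ) [Fact p.Prime] (k : Type) [Field k]
    [Algebra (ZMod p) k] [Algebra.IsAlgebraic (ZMod p) k] : LocFin (RatFunc k) := by
  classical
  intro S
  set T : Finset k := S.biUnion (fun r => r.num.coeffs ∪ r.denom.coeffs) with hT
  set K := IntermediateField.adjoin (ZMod p) (T : Set k) with hK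
  have hfd : FiniteDimensional (ZMod p) K :=
    IntermediateField.finiteDimensional_adjoin fun x _ =>
      (Algebra.IsAlgebraic.isAlgebraic (R := ZMod p) x).isIntegral
  have hfin : Finite K := Module.finite_of_finite (ZMod p)
  set f : K →+* k := algebraMap K k with hf
  have hfi : Function.Injective f := f.injective
  have hle : nonZeroDivisors K[X] ≤ (nonZeroDivisors k[X]).comap (mapRingHom f) := by
    intro g hg
    rw [Submonoid.mem_comap]
    rw [mem_nonZeroDivisors_iff_ne_zero] at hg ⊢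
    rw [coe_mapRingHom]
    exact (Polynomial.map_ne_zero_iff hfi).2 hg
  set φ : RatFunc K →+* RatFunc k := RatFunc.mapRingHom (mapRingHom f) hle with hφ
  refine ⟨K, inferInstance, hfin, φ, fun r hr => ?_⟩
  have hlift : ∀ g : k[X], g.coeffs ⊆ T → ∃ g' : K[X], g'.map f = g := by
    intro g hg
    have h1 : g ∈ lifts f := by
      rw [lifts_iff_coeff_lifts]
      intro n
      by_cases h0 : g.coeff n = 0
      · exact ⟨0, by rw [h0, map_zero]⟩
      · have h2 : g.coeff n ∈ T := hg (coeff_mem_coeffs h0)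
        exact ⟨⟨g.coeff n, IntermediateField.subset_adjoin _ _ h2⟩, rfl⟩
    exact h1
  obtain ⟨a, ha⟩ := hlift r.num fun x hx => by
    rw [hT, Finset.mem_biUnion]
    exact ⟨r, hr, Finset.mem_union_left _ hx⟩
  obtain ⟨b, hb⟩ := hlift r.denom fun x hx => by
    rw [hT, Finset.mem_biUnion]
    exact ⟨r, hr, Finset.mem_union_right _ hx⟩
  refine ⟨algebraMap K[X] (RatFunc K) a / algebraMap K[X] (RatFunc K) b, ?_⟩
  rw [hφ, RatFunc.coe_mapRingHom_eq_coe_map, RatFunc.map_apply_div]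
  rw [← RatFunc.num_div_denom r, ← ha, ← hb]
  rfl

theorem spanDual_of_locFin (hfin : ∀ (k : Type) [Field k] [Finite k] (m : ℕ),
    SpanDual (RatFunc k) m) (F : Type) [Field F] (hF : LocFin F)
    (m : ℕ) : SpanDual F m := by
  classical
  intro Q hQ s v
  obtain ⟨f, hf, rfl⟩ := exists_cl s
  obtain ⟨f', hf', rfl⟩ := exists_cl v
  obtain ⟨k, _, _, φ, h3⟩ := hF {f, f'}
  obtain ⟨b, hb⟩ := h3 f (by simp)
  obtain ⟨b', hb'⟩ := h3 f' (by simp)
  set Q' : MultilinearMap ℤ (fun _ : Fin (m + 1) => UV (RatFunc k)) (UV (RatFunc k) →ₗ[ℤ] ℚ) :=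
    (LinearMap.lcomp ℤ ℚ (clMap φ)).compMultilinearMap
      (Q.compLinearMap (fun _ => clMap φ)) with hQ'
  have hQ'a : ∀ s v, Q' (fun _ => s) v = Q (fun _ => clMap φ s) (clMap φ v) :=
    fun s v => rfl
  have h4 := hfin k m Q' (by
    intro g hg0 hg1
    rw [hQ'a, clMap_cl, clMap_cl, map_sub, map_one]
    apply hQ
    · rw [Ne, map_eq_zero]; exact hg0
    · intro h
      exact hg1 (φ.injective (by rw [h, map_one]))) (cl b) (cl b')
  rw [hQ'a, clMap_cl, clMap_cl, hb, hb'] at h4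
  exact h4

/-- increasing unions. -/
theorem locFin_tower (K : ℕ → Type) [∀ n, Field (K n)] (hK : ∀ n, LocFin (K n)) (F : Type)
    [Field F] (φ : ∀ n, K n →+* F) (hmono : ∀ n, (φ n).range ≤ (φ (n + 1)).range)
    (hcov : ∀ a : F, ∃ n, a ∈ (φ n).range) : LocFin F := by
  classical
  refine locFin_trans F fun S => ?_
  have hm : Monotone fun n => (φ n).range := monotone_nat_of_le_succ hmono
  choose n hn using hcov
  exact ⟨K (S.sup n), inferInstance, φ (S.sup n), hK _,
    fun a ha => hm (Finset.le_sup ha) (hn a)⟩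

/-- perfect closures. -/
theorem locFin_perfect (p : ℕ) [Fact p.Prime] (K : Type) [Field K] (hK : LocFin K)
    (F : Type) [Field F] [CharP F p]
    (φ : K →+* F) (hF : ∀ a : F, ∃ (n : ℕ) (b : K), a ^ p ^ n = φ b)
    (hp : ∀ a : F, ∃ b : F, b ^ p = a) : LocFin F := by
  classical
  refine locFin_trans F fun S => ?_
  have : ExpChar F p := expChar_prime F p
  have : PerfectRing F p := by
    apply PerfectRing.ofSurjective
    intro a
    obtain ⟨b, hb⟩ := hp a
    exact ⟨b, hb⟩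
  choose n b hb using hF
  set N := S.sup n with hN
  let ψ : K →+* F := ((iterateFrobeniusEquiv F p N).symm : F →+* F).comp φ
  refine ⟨K, inferInstance, ψ, hK, fun a ha => ?_⟩
  have hle : n a ≤ N := Finset.le_sup ha
  refine ⟨b a ^ p ^ (N - n a), ?_⟩
  change (iterateFrobeniusEquiv F p N).symm (φ (b a ^ p ^ (N - n a))) = a
  rw [RingEquiv.symm_apply_eq, iterateFrobeniusEquiv_apply, iterateFrobenius_def, map_pow, ← hb,
    ← pow_mul, ← pow_add, Nat.add_sub_cancel' hle]

/-- the depth one case from `SpanDual` -/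
theorem D_one_of_spanDual {F : Type} [Field F] {C : Type} [AddCommGroup C] [Module ℚ C]
    (M : MotivicInt C F) (hsd : ∀ m, SpanDual F m) : M.toLieCoalg.D 1 = mpl M 1 := by
  rw [mpl_one]
  exact Pool.Agent.T9h59.GC.D_one_total' (toML M) hsd

theorem all_depths (p : ℕ) [Fact p.Prime] {F : Type} [Field F] [CharP F p]
    (hsd : ∀ m, SpanDual F m) {C : Type} [AddCommGroup C] [Module ℚ C]
    (M : MotivicInt C F) (j : ℕ) (hj : 1 ≤ j) :
    M.toLieCoalg.D j = mpl M j ∧ M.toLieCoalg.D j = mplO M j ∧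
      ∀ n : ℕ, 1 ≤ n → M.toLieCoalg.D j ⊓ M.W n = Submodule.span ℚ
        {c | ∃ a : ℕ → F, a 0 = 0 ∧ a 1 ≠ 0 ∧ a (n + 1) = 1 ∧ dep n a ≤ j ∧
          (∃ s, (∀ t, 2 ≤ t → t ≤ s → a t = 0) ∧ ∀ t, s < t → t ≤ n → a t ≠ 0) ∧
          c = M.I n a} := by
  have h1 := D_one_of_spanDual M hsd
  have h2 := D_eqO M p h1 j hj
  refine ⟨D_eq M p h1 j hj, h2, fun n hn => ?_⟩
  rw [← mplO_weight M j n hn]
  exact congrArg (fun U => U ⊓ M.W n) h2

end Pool.Agent.T9h42.GF
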