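import Pool.Agent.T9h42.GF.Rob2

/-!
# The dispersion lemma, part 3
-/

set_option autoImplicit false
set_option linter.unusedSectionVars false

namespace Pool.Agent.T9h42.GF.Rob

open Finset Pool.Agent.T9h42.GF Pool.Agent.T9h71.GF

section key

variable {ι : Type} [Fintype ι] [DecidableEq ι] {Ω : ι → Type} [∀ i, Fintype (Ω i)]
  [∀ i, Nonempty (Ω i)]

/-- `f` depends on the coordinates in `S` only. -/
def Dep (S : Finset ι) {X : Type} (f : (∀ i, Ω i) → X) : Prop :=
  ∀ x y, (∀ i ∈ S, x i = y i) → f x = f y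

theorem ce_mul_dep {S V : Finset ι} (hSV : S ⊆ V) {f : (∀ i, Ω i) → ℝ} (hf : Dep S f)
    (W : (∀ i, Ω i) → ℝ) (z : ∀ i, Ω i) :
    ce V (fun z => W z * f z) z = ce V W z * f z := by
  unfold ce
  have h1 : ∀ y, f (mix V z y) = f z := fun y => hf _ _ fun i hi => by simp [mix, hSV hi]
  simp only [h1]
  have h2 := av_mul (f z) (fun y => W (mix V z y))
  rw [mul_comm, ← h2]
  simp only [mul_comm]

theorem ce_sub (T : Finset ι) (f g : (∀ i, Ω i) → ℝ) (x : ∀ i, Ω i) :
    ce T (fun z => f z - g z) x = ce T f x - ce T g x := av_sub _ _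

theorem ce_mono {T : Finset ι} {f g : (∀ i, Ω i) → ℝ} (h : ∀ z, f z ≤ g z) (x : ∀ i, Ω i) :
    ce T f x ≤ ce T g x := av_mono fun _ => h _

theorem ce_sum (T : Finset ι) {A : Type} (s : Finset A) (f : A → (∀ i, Ω i) → ℝ)
    (x : ∀ i, Ω i) : ce T (fun z => ∑ a ∈ s, f a z) x = ∑ a ∈ s, ce T (f a) x := av_sum s _

theorem ce_cmul (T : Finset ι) (c : ℝ) (f : (∀ i, Ω i) → ℝ) (x : ∀ i, Ω i) :
    ce T (fun z => c * f z) x = c * ce T f x := av_mul c _

theorem abs_ce (T : Finset ι) (f : (∀ i, Ω i) → ℝ) (x : ∀ i, Ω i) :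
    |ce T f x| ≤ ce T (fun z => |f z|) x := abs_av _

/-- change of measure. -/
theorem change {r : ℕ} {θ ρ : ℝ} {W g : (∀ i, Ω i) → ℝ} (hθ : 0 < θ) (hρ : 0 < ρ)
    (hρ1 : ρ ≤ 1)
    (hg : ∀ U : Finset ι, U.card ≤ 2 * r → ∀ x, |ce U W x - 1| ≤ g x) (hg0 : ∀ x, 0 ≤ g x)
    {x : ∀ i, Ω i} (hx : Good r θ ρ g x) {T S : Finset ι} (hT : T.card ≤ r) (hS : S.card ≤ r)
    {f : (∀ i, Ω i) → ℝ} (hf : Dep S f) {B : ℝ} (hB : ∀ z, |f z| ≤ B) :
    |ce T (fun z => W z * f z) x - ce T f x| ≤ B * θ := by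
  have hB0 : 0 ≤ B := (abs_nonneg _).trans (hB x)
  have h1 : ce T (fun z => W z * f z) x - ce T f x =
      ce T (fun z => (ce (S ∪ T) W z - 1) * f z) x := by
    rw [← ce_tower (subset_union_right : T ⊆ S ∪ T) (fun z => W z * f z), ← ce_sub]
    congr 1
    funext z
    rw [ce_mul_dep subset_union_left hf]
    ring
  rw [h1]
  refine (abs_ce _ _ _).trans ?_
  have h2 : ∀ z, |(ce (S ∪ T) W z - 1) * f z| ≤ B * g z := by
    intro z
    rw [abs_mul, mul_comm]
    refine mul_le_mul (hB z) (hg _ ?_ z) (abs_nonneg _) hB0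
    have := card_union_le S T
    omega
  refine (ce_mono h2 x).trans ?_
  rw [ce_cmul]
  refine mul_le_mul_of_nonneg_left ((hx T hT).trans ?_) hB0
  have := pow_le_one₀ (n := r - T.card) hρ.le hρ1
  nlinarith

theorem mix_dep {S R : Finset ι} (hR : R ⊆ S) {z z' : ∀ i, Ω i} (h : ∀ i ∈ S, z i = z' i)
    (y : ∀ i, Ω i) : mix R z y = mix R z' y := by
  funext i
  unfold mix
  by_cases hi : i ∈ R
  · simp [hi, h i (hR hi)]
  · simp [hi]

theorem key {r : ℕ} {θ ρ η₁ : ℝ} {W F g : (∀ i, Ω i) → ℝ} (hθ : 0 < θ) (hρ : 0 < ρ)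
    (hρ1 : ρ ≤ 1) (hη₁ : 0 < η₁) (hW : ∀ x, 0 ≤ W x) (hF : Deg r F)
    (hWF : ∀ x, W x ≠ 0 → F x = 0)
    (hg : ∀ U : Finset ι, U.card ≤ 2 * r → ∀ x, |ce U W x - 1| ≤ g x) (hg0 : ∀ x, 0 ≤ g x)
    {x y : ∀ i, Ω i} (hx : Good r θ ρ g x) {M : ℝ} (hM : ∀ z, Good r θ ρ g z → |F z| ≤ M)
    (hy1 : ∀ T : Finset ι, T.card ≤ r → Good r θ ρ g (mix T x y))
    (hy2 : ∀ T S : Finset ι, T.card ≤ r →
      pr (fun z => ∃ R ∈ S.powerset, ¬ Good r θ ρ g (mix R (mix T x z) y)) ≤ η₁) :
    |F x| ≤ (2 ^ Fintype.card ι) ^ 5 * (η₁ + 2 * θ) * M := by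
  classical
  set K : ℝ := 2 ^ Fintype.card ι with hK
  have hK1 : 1 ≤ K := one_le_pow₀ (by norm_num)
  have hK0 : 0 < K := by positivity
  have hM0 : 0 ≤ M := (abs_nonneg _).trans (hM x hx)
  set Fr := univ.filter (fun T : Finset ι => T.card ≤ r) with hFr
  set A : Finset ι → (∀ i, Ω i) → Prop := fun S z => ∀ R ∈ S.powerset,
    Good r θ ρ g (mix R z y) with hA
  set FS : Finset ι → (∀ i, Ω i) → ℝ := fun S z => ∑ T ∈ S.powerset,
    (-1 : ℝ) ^ (S.card + T.card) * F (mix T z y) with hFS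
  set HS : Finset ι → (∀ i, Ω i) → ℝ := fun S z => if A S z then FS S z else 0 with hHS
  set IS : Finset ι → (∀ i, Ω i) → ℝ := fun S z => if ¬ A S z then 1 else 0 with hIS
  set H : (∀ i, Ω i) → ℝ := fun z => ∑ S ∈ Fr, HS S z with hH
  have dA : ∀ S, Dep S (A S) := by
    intro S z z' h
    rw [hA, eq_iff_iff]
    refine forall₂_congr fun R hR => ?_
    rw [mix_dep (mem_powerset.1 hR) h]
  have dFS : ∀ S, Dep S (FS S) := by
    intro S z z' h
    rw [hFS]
    refine sum_congr rfl fun R hR => ?_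
    rw [mix_dep (mem_powerset.1 hR) h]
  have dHS : ∀ S, Dep S (HS S) := by
    intro S z z' h
    show (if A S z then FS S z else 0) = if A S z' then FS S z' else 0
    have e := dA S z z' h
    by_cases h1 : A S z
    · rw [if_pos h1, if_pos (e ▸ h1), dFS S z z' h]
    · rw [if_neg h1, if_neg (e ▸ h1)]
  have dIS : ∀ S, Dep S (IS S) := by
    intro S z z' h
    show (if ¬ A S z then (1 : ℝ) else 0) = if ¬ A S z' then (1 : ℝ) else 0
    have e := dA S z z' h
    by_cases h1 : A S z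
    · rw [if_neg (not_not.2 h1), if_neg (not_not.2 (e ▸ h1))]
    · rw [if_pos h1, if_pos (e ▸ h1)]
  have hDeg : Deg r H := by
    refine ⟨HS, fun S z z' h => dHS S z z' h, fun z => ?_⟩
    rfl
  have bHS : ∀ S z, |HS S z| ≤ K * M := by
    intro S z
    show |if A S z then FS S z else 0| ≤ K * M
    by_cases h : A S z
    · rw [if_pos h]
      refine (abs_sum_le_sum_abs _ _).trans (sum_le_K _ _ _ hM0 fun T hT => ?_)
      rw [abs_mul, abs_pow, abs_neg, abs_one, one_pow, one_mul]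
      exact hM _ (h T hT)
    · rw [if_neg h, abs_zero]
      positivity
  have bIS : ∀ S z, |IS S z| ≤ 1 := by
    intro S z
    show |if ¬ A S z then (1 : ℝ) else 0| ≤ 1
    split_ifs <;> simp
  have nIS : ∀ S z, 0 ≤ IS S z := by
    intro S z
    show 0 ≤ if ¬ A S z then (1 : ℝ) else 0
    split_ifs
    · exact le_refl _
    · exact zero_le_one
  -- `W H` is small
  have hWH : ∀ z, |W z * H z| ≤ K * (K * M) * ∑ S ∈ Fr, W z * IS S z := by
    intro z
    by_cases hall : ∀ S ∈ Fr, A S z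
    · have h1 : H z = F z := by
        rw [expand hF z y]
        refine sum_congr rfl fun S hS => ?_
        show (if A S z then FS S z else 0) = _
        rw [if_pos (hall S hS)]
      have h2 : W z * H z = 0 := by
        rw [h1]
        by_cases hw : W z = 0
        · rw [hw, zero_mul]
        · rw [hWF z hw, mul_zero]
      rw [h2, abs_zero]
      exact mul_nonneg (by positivity) (sum_nonneg fun S _ => mul_nonneg (hW z) (nIS S z))
    · push Not at hall
      obtain ⟨S, hS, hAS⟩ := hall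
      have h3 : |H z| ≤ K * (K * M) :=
        (abs_sum_le_sum_abs _ _).trans (sum_le_K _ _ _ (by positivity) fun S _ => bHS S z)
      have h4 : W z ≤ ∑ S ∈ Fr, W z * IS S z := by
        have h5 : W z * IS S z = W z := by
          have : IS S z = 1 := if_pos hAS
          rw [this, mul_one]
        calc W z = W z * IS S z := h5.symm
          _ ≤ _ := single_le_sum (f := fun S => W z * IS S z)
            (fun S _ => mul_nonneg (hW z) (nIS S z)) hS
      rw [abs_mul, abs_of_nonneg (hW z), mul_comm]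
      exact mul_le_mul h3 h4 (hW z) (by positivity)
  -- the conditional expectations of `H`
  have hce : ∀ T ∈ Fr, |ce T H x| ≤ K ^ 3 * (η₁ + 2 * θ) * M := by
    intro T hT
    have hTr : T.card ≤ r := (mem_filter.1 hT).2
    have h1 : |ce T (fun z => W z * H z) x| ≤ K * (K * M) * (K * (η₁ + θ)) := by
      refine (abs_ce _ _ _).trans ((ce_mono hWH x).trans ?_)
      rw [ce_cmul, ce_sum]
      refine mul_le_mul_of_nonneg_left (sum_le_K _ _ _ (by positivity) fun S hS => ?_)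
        (by positivity)
      have h2 := change hθ hρ hρ1 hg hg0 hx hTr (mem_filter.1 hS).2 (dIS S) (bIS S)
      have h3 : ce T (IS S) x ≤ η₁ := by
        refine le_trans (le_of_eq ?_) (hy2 T S hTr)
        unfold ce pr
        congr 1
        funext z
        show (if ¬ A S (mix T x z) then (1 : ℝ) else 0) = _
        have h4 : (¬ A S (mix T x z)) ↔ ∃ R ∈ S.powerset,
            ¬ Good r θ ρ g (mix R (mix T x z) y) := by
          rw [hA]
          simp only [not_forall, exists_prop]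
        by_cases h5 : A S (mix T x z)
        · rw [if_neg (not_not.2 h5), if_neg (fun h => h4.2 h h5)]
        · rw [if_pos h5, if_pos (h4.1 h5)]
      have h5 := (abs_le.1 h2).2
      linarith
    have h6 : |ce T (fun z => W z * H z) x - ce T H x| ≤ K * (K * M * θ) := by
      have h7 : ce T (fun z => W z * H z) x - ce T H x =
          ∑ S ∈ Fr, (ce T (fun z => W z * HS S z) x - ce T (HS S) x) := by
        rw [sum_sub_distrib, ← ce_sum, ← ce_sum]
        congr 2
        funext z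
        rw [hH, mul_sum]
      rw [h7]
      refine (abs_sum_le_sum_abs _ _).trans (sum_le_K _ _ _ (by positivity) fun S hS => ?_)
      exact change hθ hρ hρ1 hg hg0 hx hTr (mem_filter.1 hS).2 (dHS S) (bHS S)
    have h8 : |ce T H x| ≤ K * (K * M) * (K * (η₁ + θ)) + K * (K * M * θ) := by
      have h9 : ce T H x = ce T (fun z => W z * H z) x -
          (ce T (fun z => W z * H z) x - ce T H x) := by ring
      rw [h9]
      exact (abs_sub _ _).trans (add_le_add h1 h6)
    refine h8.trans ?_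
    have h10 : K * (K * M * θ) ≤ K ^ 3 * M * θ := by
      have : K * (K * M * θ) * 1 ≤ K * (K * M * θ) * K :=
        mul_le_mul_of_nonneg_left hK1 (by positivity)
      nlinarith
    nlinarith
  -- `H x = F x`
  have hHx : H x = F x := by
    rw [expand hF x y]
    refine sum_congr rfl fun S hS => ?_
    show (if A S x then FS S x else 0) = _
    rw [if_pos]
    intro R hR
    exact hy1 R ((card_le_card (mem_powerset.1 hR)).trans (mem_filter.1 hS).2)
  rw [← hHx, expand_av hDeg x]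
  have h20 : ∀ S ∈ Fr, |∑ T ∈ S.powerset, (-1 : ℝ) ^ (S.card + T.card) * ce T H x| ≤
      K * (K ^ 3 * (η₁ + 2 * θ) * M) := by
    intro S hS
    refine (abs_sum_le_sum_abs _ _).trans (sum_le_K _ _ _ (by positivity) fun T hT => ?_)
    rw [abs_mul, abs_pow, abs_neg, abs_one, one_pow, one_mul]
    exact hce T (mem_filter.2 ⟨mem_univ _,
      (card_le_card (mem_powerset.1 hT)).trans (mem_filter.1 hS).2⟩)
  refine (abs_sum_le_sum_abs _ _).trans ((sum_le_K _ _ _ (by positivity) h20).trans (le_of_eq ?_))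
  ring

end key

end Pool.Agent.T9h42.GF.Rob

namespace Pool.Agent.T9h42.GF

open Finset Pool.Agent.T9h42.GF.Rob Pool.Agent.T9h71.GF

theorem robust : Robust := by
  classical
  intro n r η hη
  set K : ℝ := 2 ^ n with hK
  have hK1 : 1 ≤ K := one_le_pow₀ (by norm_num)
  have hK0 : 0 < K := by positivity
  set θ : ℝ := 1 / (4 * K ^ 5) with hθ
  have hθ0 : 0 < θ := by positivity
  set ρ : ℝ := θ / (4 * K ^ 4) with hρ
  have hρ0 : 0 < ρ := by positivity
  have hθ1 : θ ≤ 1 := by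
    rw [hθ, div_le_one (by positivity)]
    have := one_le_pow₀ (n := 5) hK1
    linarith
  have hρθ : ρ ≤ θ := by
    rw [hρ, div_le_iff₀ (by positivity)]
    have := one_le_pow₀ (n := 4) hK1
    nlinarith
  have hρ1 : ρ ≤ 1 := hρθ.trans hθ1
  refine ⟨η * θ * ρ ^ r / K ^ 2, by positivity, ?_⟩
  intro ι _ _ Ω _ _ hn W F hW hce hF hWF
  set k : ℝ := 2 ^ Fintype.card ι with hk
  have hk1 : 1 ≤ k := one_le_pow₀ (by norm_num)
  have hkK : k ≤ K := pow_le_pow_right₀ (by norm_num) hn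
  have hk0 : 0 < k := by positivity
  set g : (∀ i, Ω i) → ℝ := fun x =>
    ∑ U ∈ univ.filter (fun U : Finset ι => U.card ≤ 2 * r), |ce U W x - 1| with hg
  have hg0 : ∀ x, 0 ≤ g x := fun x => sum_nonneg fun U _ => abs_nonneg _
  have hgU : ∀ U : Finset ι, U.card ≤ 2 * r → ∀ x, |ce U W x - 1| ≤ g x := by
    intro U hU x
    exact single_le_sum (f := fun U : Finset ι => |ce U W x - 1|) (fun U _ => abs_nonneg _)
      (mem_filter.2 ⟨mem_univ _, hU⟩)
  have hav : av g ≤ k * (η * θ * ρ ^ r / K ^ 2) := by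
    rw [hg, av_sum]
    exact sum_le_K _ _ _ (by positivity) fun U hU => hce U (mem_filter.1 hU).2
  -- `F = 0` on good points
  have hzero : ∀ x, Good r θ ρ g x → F x = 0 := by
    intro x₀ hx₀
    obtain ⟨x, hx, hmax⟩ := exists_max_image (univ.filter (fun x => Good r θ ρ g x))
      (fun x => |F x|) ⟨x₀, mem_filter.2 ⟨mem_univ _, hx₀⟩⟩
    rw [mem_filter] at hx
    have hM : ∀ z, Good r θ ρ g z → |F z| ≤ |F x| := fun z hz =>
      hmax z (mem_filter.2 ⟨mem_univ _, hz⟩)
    have hsm : k ^ 2 * ρ + k ^ 4 * ρ / θ < 1 := by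
      have h1 : k ^ 4 * ρ / θ ≤ 1 / 4 := by
        have h2 : k ^ 4 * ρ / θ = k ^ 4 / (4 * K ^ 4) := by
          rw [hρ]
          field_simp
        rw [h2, div_le_div_iff₀ (by positivity) (by norm_num)]
        have := pow_le_pow_left₀ hk0.le hkK 4
        linarith
      have h3 : k ^ 2 * ρ ≤ k ^ 4 * ρ / θ := by
        rw [le_div_iff₀ hθ0]
        have h4 : k ^ 2 ≤ k ^ 4 := pow_le_pow_right₀ hk1 (by norm_num)
        calc k ^ 2 * ρ * θ ≤ k ^ 2 * ρ * 1 := mul_le_mul_of_nonneg_left hθ1 (by positivity)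
          _ ≤ k ^ 4 * ρ := by
            rw [mul_one]
            exact mul_le_mul_of_nonneg_right h4 hρ0.le
      linarith
    obtain ⟨y, hy1, hy2⟩ := choose_y hg0 hθ0 hρ0 hρ1 hθ0 hsm hx.2
    have h5 := key hθ0 hρ0 hρ1 hθ0 hW hF hWF hgU hg0 hx.2 hM hy1 hy2
    rw [← hk] at h5
    have h6 : k ^ 5 * (θ + 2 * θ) ≤ 3 / 4 := by
      have h7 : k ^ 5 ≤ K ^ 5 := pow_le_pow_left₀ hk0.le hkK 5
      have h8 : K ^ 5 * θ = 1 / 4 := by
        rw [hθ]
        field_simp
      nlinarith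
    have h9 : |F x| ≤ 3 / 4 * |F x| :=
      h5.trans (mul_le_mul_of_nonneg_right h6 (abs_nonneg _))
    have h10 : |F x| = 0 := le_antisymm (by linarith) (abs_nonneg _)
    have h11 := hM x₀ hx₀
    rw [h10] at h11
    exact abs_eq_zero.1 (le_antisymm h11 (abs_nonneg _))
  -- conclusion
  have h20 := pr_not_good hg0 hθ0 hρ0 hρ1 (r := r)
  rw [← hk] at h20
  have h21 : θ * ρ ^ r * pr (fun x => ¬ Good r θ ρ g x) ≤ θ * ρ ^ r * η := by
    refine h20.trans ((mul_le_mul_of_nonneg_left hav hk0.le).trans ?_)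
    have h22 : k * (k * (η * θ * ρ ^ r / K ^ 2)) = (k ^ 2 / K ^ 2) * (θ * ρ ^ r * η) := by
      field_simp
    rw [h22]
    have h23 : k ^ 2 / K ^ 2 ≤ 1 := by
      rw [div_le_one (by positivity)]
      exact pow_le_pow_left₀ hk0.le hkK 2
    have h24 : 0 ≤ θ * ρ ^ r * η := by positivity
    nlinarith
  have h25 : pr (fun x => ¬ Good r θ ρ g x) ≤ η := le_of_mul_le_mul_left h21 (by positivity)
  have h26 : av (fun x => if F x = 0 then (0 : ℝ) else 1) = pr (fun x => F x ≠ 0) := by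
    unfold pr
    congr 1
    funext x
    by_cases h : F x = 0
    · simp [h]
    · simp [h]
  have h27 := pr_mono (P := fun x => F x ≠ 0) (Q := fun x => ¬ Good r θ ρ g x)
    (fun x hx hG => hx (hzero x hG))
  refine le_trans (le_of_eq ?_) (h27.trans h25)
  rw [← h26]

end Pool.Agent.T9h42.GF
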