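import Pool.Agent.T9h42.GF.C5
import Pool.Agent.T9h42.GF.C6
import Pool.Agent.T9h58.GF.BoxMem
import Pool.Agent.T9h58.GF.Count
import Pool.Agent.T9h58.GF.Loc
import Pool.Agent.T9h46.GF.Div
import Pool.Agent.T9h46.GF.TP
import Pool.Agent.T9h73.GF.Sieve
import Pool.Agent.T9h73.GF.NonCop
import Pool.Agent.T9h71.GF.CountOfCore
import Pool.Agent.T9h67.GF.Comb
import Pool.Agent.T9h89.GF.Pol
import Pool.Agent.T9h89.GF.End
import Pool.Agent.T9h42.GF.Rob3
import Pool.Agent.T9h42.GF.LocF

/-!
# `SpanDual (k(x))` for finite `k`, and the depth conjecture for `k(x)`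
-/

set_option autoImplicit false

namespace Pool.Agent.T9h42.GF

open H39Gon H39Gon.TaskB Pool.Agent.TH358.MC Pool.Agent.TH358.MD

open Pool.Agent.T9h58.GF Pool.Agent.T9h46.GF Pool.Agent.T9h73.GF in
theorem core : Core :=
  coreOf boxMem boxCount boxCop nonCop
    (sieveBound boxMem boxCop boxCount divCount locCount (tau boxMem) (divProd boxMem) sieve)

/-- `SpanDual` for `k(x)`, `k` finite. -/
theorem spanDual_finite (k : Type) [Field k] [Finite k] (m : ℕ) :
    SpanDual (RatFunc k) m := by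
  have := Fintype.ofFinite k
  exact Pool.Agent.T9h89.GF.endGame Pool.Agent.T9h67.GF.comb Pool.Agent.T9h89.GF.pol1
    Pool.Agent.T9h89.GF.pol2 (Pool.Agent.T9h46.GF.tpOfCount robust
      (Pool.Agent.T9h71.GF.countOfCore Pool.Agent.T9h58.GF.boxMem core)) k m

/-- `SpanDual` for directed unions of fields `k(x)`, `k` finite. -/
theorem spanDual_locFin (F : Type) [Field F] (hF : LocFin F) (m : ℕ) : SpanDual F m :=
  spanDual_of_locFin (fun k _ _ m => spanDual_finite k m) F hF m

end Pool.Agent.T9h42.GF
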