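import Pool.Agent.T9h71.GF.CountOfCore

/-!
# The dispersion lemma
-/

set_option autoImplicit false

namespace Pool.Agent.T9h42.GF.Rob

open Finset Pool.Agent.T9h42.GF Pool.Agent.T9h71.GF

section basic

variable {ι : Type} [Fintype ι] [DecidableEq ι] {Ω : ι → Type} [∀ i, Fintype (Ω i)]

theorem av_const [∀ i, Nonempty (Ω i)] (c : ℝ) : av (fun _ : (∀ i, Ω i) => c) = c := by
  have hc : (Fintype.card (∀ i, Ω i) : ℝ) ≠ 0 := by exact_mod_cast Fintype.card_ne_zero
  unfold av
  rw [sum_const, card_univ, nsmul_eq_mul]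
  field_simp

theorem av_add (f g : (∀ i, Ω i) → ℝ) : av (fun x => f x + g x) = av f + av g := by
  unfold av
  rw [sum_add_distrib, add_div]

theorem av_sub (f g : (∀ i, Ω i) → ℝ) : av (fun x => f x - g x) = av f - av g := by
  unfold av
  rw [sum_sub_distrib, sub_div]

theorem av_mul (c : ℝ) (f : (∀ i, Ω i) → ℝ) : av (fun x => c * f x) = c * av f := by
  unfold av
  rw [← mul_sum, mul_div_assoc]

theorem av_sum {A : Type} (s : Finset A) (f : A → (∀ i, Ω i) → ℝ) :
    av (fun x => ∑ a ∈ s, f a x) = ∑ a ∈ s, av (f a) := by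
  unfold av
  rw [sum_comm, sum_div]

theorem av_nonneg {f : (∀ i, Ω i) → ℝ} (hf : ∀ x, 0 ≤ f x) : 0 ≤ av f := by
  unfold av
  exact div_nonneg (sum_nonneg fun x _ => hf x) (Nat.cast_nonneg _)

theorem av_comm (f : (∀ i, Ω i) → (∀ i, Ω i) → ℝ) :
    av (fun y => av (fun z => f y z)) = av (fun z => av (fun y => f y z)) := by
  unfold av
  rw [← sum_div, ← sum_div, sum_comm]

open Classical in
/-- probability. -/
noncomputable def pr (P : (∀ i, Ω i) → Prop) : ℝ := av (fun x => if P x then 1 else 0)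

theorem pr_mono {P Q : (∀ i, Ω i) → Prop} (h : ∀ x, P x → Q x) : pr P ≤ pr Q := by
  classical
  refine av_mono fun x => ?_
  by_cases hp : P x
  · rw [if_pos hp, if_pos (h x hp)]
  · rw [if_neg hp]
    split_ifs
    · exact zero_le_one
    · exact le_refl _

theorem pr_exists {A : Type} (s : Finset A) (P : A → (∀ i, Ω i) → Prop) :
    pr (fun x => ∃ a ∈ s, P a x) ≤ ∑ a ∈ s, pr (P a) := by
  classical
  unfold pr
  rw [← av_sum]
  refine av_mono fun x => ?_
  by_cases h : ∃ a ∈ s, P a x
  · rw [if_pos h]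
    obtain ⟨a, ha, hp⟩ := h
    calc (1 : ℝ) = if P a x then (1 : ℝ) else 0 := by rw [if_pos hp]
      _ ≤ _ := single_le_sum (f := fun a => if P a x then (1 : ℝ) else 0) (fun b _ => by
          show (0 : ℝ) ≤ if P b x then (1 : ℝ) else 0
          split_ifs
          · exact zero_le_one
          · exact le_refl _) ha
  · rw [if_neg h]
    exact sum_nonneg fun b _ => by
      split_ifs
      · exact zero_le_one
      · exact le_refl _

theorem markov {f : (∀ i, Ω i) → ℝ} (hf : ∀ x, 0 ≤ f x) (t : ℝ) (ht : 0 ≤ t) :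
    t * pr (fun x => t < f x) ≤ av f := by
  classical
  unfold pr
  rw [← av_mul]
  refine av_mono fun x => ?_
  by_cases h : t < f x
  · rw [if_pos h, mul_one]
    exact h.le
  · rw [if_neg h, mul_zero]
    exact hf x

theorem exists_le_av [∀ i, Nonempty (Ω i)] (f : (∀ i, Ω i) → ℝ) : ∃ y, f y ≤ av f := by
  by_contra hcon
  push Not at hcon
  have hc : (0 : ℝ) < Fintype.card (∀ i, Ω i) := by exact_mod_cast Fintype.card_pos
  have h1 : ∑ _x : (∀ i, Ω i), av f < ∑ x, f x :=
    sum_lt_sum_of_nonempty univ_nonempty fun x _ => hcon x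
  rw [sum_const, card_univ, nsmul_eq_mul] at h1
  unfold av at h1
  rw [mul_div_cancel₀ _ hc.ne'] at h1
  exact lt_irrefl _ h1

theorem mix_inter (T S : Finset ι) (x y z : ∀ i, Ω i) :
    mix S (mix T x y) z = mix (T ∩ S) x (mix S y z) := by
  funext i
  unfold mix
  by_cases h1 : i ∈ S <;> by_cases h2 : i ∈ T <;> simp [h1, h2]

theorem mix_of_subset {T S : Finset ι} (h : T ⊆ S) (x y z : ∀ i, Ω i) :
    mix T (mix S x y) z = mix T x z := by
  funext i
  unfold mix
  by_cases h1 : i ∈ T
  · simp [h1, h h1]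
  · simp [h1]

theorem ce_mix_of_subset {T S : Finset ι} (h : T ⊆ S) (f : (∀ i, Ω i) → ℝ) (x y : ∀ i, Ω i) :
    ce T f (mix S x y) = ce T f x := by
  unfold ce
  simp only [mix_of_subset h]

theorem av_ce_mix [∀ i, Nonempty (Ω i)] (T S : Finset ι) (f : (∀ i, Ω i) → ℝ) (x : ∀ i, Ω i) :
    av (fun y => ce S f (mix T x y)) = ce (T ∩ S) f x := by
  have h := av_ce S (fun w => f (mix (T ∩ S) x w))
  unfold ce at h ⊢
  simp only [mix_inter]
  exact h

theorem av_av_mix [∀ i, Nonempty (Ω i)] (S : Finset ι) (f : (∀ i, Ω i) → ℝ) :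
    av (fun z => av (fun y => f (mix S z y))) = av f := av_ce S f

/-! ### Möbius inversion -/

theorem moeb {A : Type} [DecidableEq A] (φ : Finset A → ℝ) (U : Finset A) :
    ∑ S ∈ U.powerset, ∑ T ∈ S.powerset, (-1 : ℝ) ^ (S.card + T.card) * φ T = φ U := by
  induction U using Finset.induction_on generalizing φ with
  | empty => simp
  | insert a U ha ih =>
    rw [sum_powerset_insert ha, ih]
    have h1 : ∀ S ∈ U.powerset, ∑ T ∈ (insert a S).powerset,
        (-1 : ℝ) ^ ((insert a S).card + T.card) * φ T =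
        -∑ T ∈ S.powerset, (-1 : ℝ) ^ (S.card + T.card) * φ T +
        ∑ T ∈ S.powerset, (-1 : ℝ) ^ (S.card + T.card) * φ (insert a T) := by
      intro S hS
      have haS : a ∉ S := fun h => ha (mem_powerset.1 hS h)
      rw [sum_powerset_insert haS, card_insert_of_notMem haS, ← sum_neg_distrib]
      congr 1
      · refine sum_congr rfl fun T _ => ?_
        rw [show S.card + 1 + T.card = S.card + T.card + 1 by omega, pow_succ]
        ring
      · refine sum_congr rfl fun T hT => ?_
        have haT : a ∉ T := fun h => haS (mem_powerset.1 hT h)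
        rw [card_insert_of_notMem haT,
          show S.card + 1 + (T.card + 1) = S.card + T.card + 2 by omega, pow_add]
        norm_num
    rw [sum_congr rfl h1, sum_add_distrib, sum_neg_distrib, ih, ih (fun T => φ (insert a T))]
    ring

theorem moeb_zero {A : Type} [DecidableEq A] (φ : Finset A → ℝ) (S' S : Finset A)
    (hφ : ∀ T, φ T = φ (T ∩ S')) (hS : ¬ S ⊆ S') :
    ∑ T ∈ S.powerset, (-1 : ℝ) ^ (S.card + T.card) * φ T = 0 := by
  obtain ⟨a, haS, haS'⟩ := not_subset.1 hS
  obtain ⟨S₀, ha, rfl⟩ : ∃ S₀, a ∉ S₀ ∧ S = insert a S₀ :=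
    ⟨S.erase a, notMem_erase _ _, (insert_erase haS).symm⟩
  rw [sum_powerset_insert ha, ← sum_add_distrib]
  refine sum_eq_zero fun T hT => ?_
  have haT : a ∉ T := fun h => ha (mem_powerset.1 hT h)
  have h1 : φ (insert a T) = φ T := by
    rw [hφ (insert a T), insert_inter_of_notMem haS', ← hφ]
  rw [h1, card_insert_of_notMem haT, show (insert a S₀).card + (T.card + 1) =
    (insert a S₀).card + T.card + 1 by omega, pow_succ]
  ring

/-- expansion of a function of degree `≤ r`. -/
theorem expand {r : ℕ} {H : (∀ i, Ω i) → ℝ} (hH : Deg r H) (z y : ∀ i, Ω i) :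
    H z = ∑ S ∈ univ.filter (fun S : Finset ι => S.card ≤ r), ∑ T ∈ S.powerset,
      (-1 : ℝ) ^ (S.card + T.card) * H (mix T z y) := by
  obtain ⟨G, hG1, hG2⟩ := hH
  have h1 := moeb (fun T => H (mix T z y)) univ
  have h2 : mix univ z y = z := by
    funext i
    simp [mix]
  simp only [h2] at h1
  rw [← h1, powerset_univ]
  symm
  refine sum_subset (filter_subset _ _) fun S _ hS => ?_
  rw [mem_filter, not_and] at hS
  have hS' := hS (mem_univ S)
  have h3 : ∀ T, H (mix T z y) = ∑ S' ∈ univ.filter (fun S : Finset ι => S.card ≤ r),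
      G S' (mix T z y) := fun T => hG2 _
  simp only [h3, mul_sum]
  rw [sum_comm]
  refine sum_eq_zero fun S' hS'' => ?_
  rw [mem_filter] at hS''
  refine moeb_zero (fun T => G S' (mix T z y)) S' S ?_ ?_
  · intro T
    refine hG1 S' _ _ fun i hi => ?_
    simp [mix, hi]
  · intro hsub
    exact hS' ((card_le_card hsub).trans hS''.2)

theorem expand_av [∀ i, Nonempty (Ω i)] {r : ℕ} {H : (∀ i, Ω i) → ℝ} (hH : Deg r H)
    (z : ∀ i, Ω i) :
    H z = ∑ S ∈ univ.filter (fun S : Finset ι => S.card ≤ r), ∑ T ∈ S.powerset,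
      (-1 : ℝ) ^ (S.card + T.card) * ce T H z := by
  have h1 : H z = av (fun y => ∑ S ∈ univ.filter (fun S : Finset ι => S.card ≤ r),
      ∑ T ∈ S.powerset, (-1 : ℝ) ^ (S.card + T.card) * H (mix T z y)) := by
    rw [← av_const (Ω := Ω) (H z)]
    congr 1
    funext y
    exact expand hH z y
  rw [h1, av_sum]
  refine sum_congr rfl fun S _ => ?_
  rw [av_sum]
  refine sum_congr rfl fun T _ => ?_
  rw [av_mul]
  rfl

end basic

end Pool.Agent.T9h42.GF.Rob
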