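import Pool.Agent.T9h42.GF.Rob

/-!
# The dispersion lemma, part 2
-/

set_option autoImplicit false
set_option linter.unusedSectionVars false

namespace Pool.Agent.T9h42.GF.Rob

open Finset Pool.Agent.T9h42.GF Pool.Agent.T9h71.GF

section main

variable {ι : Type} [Fintype ι] [DecidableEq ι] {Ω : ι → Type} [∀ i, Fintype (Ω i)]
  [∀ i, Nonempty (Ω i)]

/-- good points. -/
def Good (r : ℕ) (θ ρ : ℝ) (g : (∀ i, Ω i) → ℝ) (x : ∀ i, Ω i) : Prop :=
  ∀ T : Finset ι, T.card ≤ r → ce T g x ≤ θ * ρ ^ (r - T.card)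

theorem ce_nonneg {g : (∀ i, Ω i) → ℝ} (hg : ∀ x, 0 ≤ g x) (T : Finset ι) (x : ∀ i, Ω i) :
    0 ≤ ce T g x := av_nonneg fun _ => hg _

theorem pr_false {P : (∀ i, Ω i) → Prop} (h : ∀ x, ¬ P x) : pr P = 0 := by
  classical
  unfold pr
  simp only [h, if_false]
  exact av_const 0

theorem pr_nonneg (P : (∀ i, Ω i) → Prop) : 0 ≤ pr P := by
  classical
  refine av_nonneg fun x => ?_
  split_ifs
  · exact zero_le_one
  · exact le_refl _

theorem card_le_K (s : Finset (Finset ι)) : (s.card : ℝ) ≤ 2 ^ Fintype.card ι := by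
  have h1 : s.card ≤ 2 ^ Fintype.card ι := by
    rw [← Fintype.card_finset]
    exact card_le_univ s
  exact_mod_cast h1

theorem sum_le_K (s : Finset (Finset ι)) (f : Finset ι → ℝ) (B : ℝ) (hB : 0 ≤ B)
    (hf : ∀ a ∈ s, f a ≤ B) : ∑ a ∈ s, f a ≤ 2 ^ Fintype.card ι * B := by
  refine (sum_le_sum hf).trans ?_
  rw [sum_const, nsmul_eq_mul]
  exact mul_le_mul_of_nonneg_right (card_le_K s) hB

theorem not_good {r : ℕ} {θ ρ : ℝ} {g : (∀ i, Ω i) → ℝ} {x : ∀ i, Ω i}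
    (h : ¬ Good r θ ρ g x) : ∃ T ∈ univ.filter (fun T : Finset ι => T.card ≤ r),
      θ * ρ ^ (r - T.card) < ce T g x := by
  unfold Good at h
  push Not at h
  obtain ⟨T, h1, h2⟩ := h
  exact ⟨T, mem_filter.2 ⟨mem_univ _, h1⟩, h2⟩

theorem pr_not_good {r : ℕ} {θ ρ : ℝ} {g : (∀ i, Ω i) → ℝ} (hg : ∀ x, 0 ≤ g x) (hθ : 0 < θ)
    (hρ : 0 < ρ) (hρ1 : ρ ≤ 1) :
    θ * ρ ^ r * pr (fun x => ¬ Good r θ ρ g x) ≤ 2 ^ Fintype.card ι * av g := by
  have h1 : pr (fun x => ¬ Good r θ ρ g x) ≤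
      ∑ T ∈ univ.filter (fun T : Finset ι => T.card ≤ r),
        pr (fun x => θ * ρ ^ (r - T.card) < ce T g x) :=
    (pr_mono fun x hx => not_good hx).trans (pr_exists _ _)
  have h0 : 0 < θ * ρ ^ r := by positivity
  refine (mul_le_mul_of_nonneg_left h1 h0.le).trans ?_
  rw [mul_sum]
  refine sum_le_K _ _ _ (av_nonneg hg) fun T _ => ?_
  have h2 := markov (fun x => ce_nonneg hg T x) (θ * ρ ^ (r - T.card)) (by positivity)
  rw [av_ce] at h2
  refine le_trans (mul_le_mul_of_nonneg_right ?_ (pr_nonneg _)) h2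
  exact mul_le_mul_of_nonneg_left (pow_le_pow_of_le_one hρ.le hρ1 (Nat.sub_le _ _)) hθ.le

theorem good_mix {r : ℕ} {θ ρ : ℝ} {g : (∀ i, Ω i) → ℝ} (hg : ∀ x, 0 ≤ g x) (hθ : 0 < θ)
    (hρ : 0 < ρ) (hρ1 : ρ ≤ 1) {x : ∀ i, Ω i} (hx : Good r θ ρ g x) (T : Finset ι)
    (hT : T.card ≤ r) :
    pr (fun y => ¬ Good r θ ρ g (mix T x y)) ≤ 2 ^ Fintype.card ι * ρ := by
  have h1 : pr (fun y => ¬ Good r θ ρ g (mix T x y)) ≤
      ∑ S ∈ univ.filter (fun S : Finset ι => S.card ≤ r),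
        pr (fun y => θ * ρ ^ (r - S.card) < ce S g (mix T x y)) :=
    (pr_mono fun y hy => not_good hy).trans (pr_exists _ _)
  refine h1.trans (sum_le_K _ _ _ hρ.le fun S hS => ?_)
  rw [mem_filter] at hS
  by_cases hST : S ⊆ T
  · rw [pr_false]
    · exact hρ.le
    · intro y
      rw [ce_mix_of_subset hST, not_lt]
      exact hx S hS.2
  · have h2 := markov (fun y => ce_nonneg hg S (mix T x y)) (θ * ρ ^ (r - S.card)) (by positivity)
    rw [av_ce_mix] at h2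
    have h3 : (T ∩ S).card < S.card := by
      refine card_lt_card ((ssubset_iff_subset_ne).2 ⟨inter_subset_right, fun h => hST ?_⟩)
      rw [← h]
      exact inter_subset_left
    have h4 := hx (T ∩ S) (by omega)
    have h5 : ρ ^ (r - (T ∩ S).card) ≤ ρ ^ (r - S.card) * ρ := by
      rw [← pow_succ]
      exact pow_le_pow_of_le_one hρ.le hρ1 (by omega)
    have h6 : θ * ρ ^ (r - S.card) * pr (fun y => θ * ρ ^ (r - S.card) < ce S g (mix T x y)) ≤
        θ * ρ ^ (r - S.card) * ρ := by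
      refine h2.trans (h4.trans ?_)
      rw [mul_assoc]
      exact mul_le_mul_of_nonneg_left h5 hθ.le
    exact le_of_mul_le_mul_left h6 (by positivity)

theorem choose_y {r : ℕ} {θ ρ η₁ : ℝ} {g : (∀ i, Ω i) → ℝ} (hg : ∀ x, 0 ≤ g x) (hθ : 0 < θ)
    (hρ : 0 < ρ) (hρ1 : ρ ≤ 1) (hη₁ : 0 < η₁)
    (hsm : (2 ^ Fintype.card ι) ^ 2 * ρ + (2 ^ Fintype.card ι) ^ 4 * ρ / η₁ < 1)
    {x : ∀ i, Ω i} (hx : Good r θ ρ g x) :
    ∃ y, (∀ T : Finset ι, T.card ≤ r → Good r θ ρ g (mix T x y)) ∧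
      ∀ T S : Finset ι, T.card ≤ r →
        pr (fun z => ∃ R ∈ S.powerset, ¬ Good r θ ρ g (mix R (mix T x z) y)) ≤ η₁ := by
  classical
  set K : ℝ := 2 ^ Fintype.card ι with hK
  have hK0 : 0 < K := by positivity
  set Fr := univ.filter (fun T : Finset ι => T.card ≤ r) with hFr
  set f1 : (∀ i, Ω i) → ℝ := fun y => ∑ T ∈ Fr,
    if ¬ Good r θ ρ g (mix T x y) then (1 : ℝ) else 0 with hf1
  set f2 : (∀ i, Ω i) → ℝ := fun y => ∑ T ∈ Fr, ∑ S ∈ (univ : Finset (Finset ι)),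
    pr (fun z => ∃ R ∈ S.powerset, ¬ Good r θ ρ g (mix R (mix T x z) y)) with hf2
  have ha1 : av f1 ≤ K * (K * ρ) := by
    rw [hf1, av_sum]
    refine sum_le_K _ _ _ (by positivity) fun T hT => ?_
    have h0 := good_mix hg hθ hρ hρ1 hx T (mem_filter.1 hT).2
    unfold pr at h0
    convert h0
  have ha2 : av f2 ≤ K * (K * (K * (K * ρ))) := by
    rw [hf2, av_sum]
    refine sum_le_K _ _ _ (by positivity) fun T hT => ?_
    rw [av_sum]
    refine sum_le_K _ _ _ (by positivity) fun S _ => ?_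
    have h1 : av (fun y => pr (fun z => ∃ R ∈ S.powerset,
        ¬ Good r θ ρ g (mix R (mix T x z) y))) ≤
        av (fun y => ∑ R ∈ S.powerset, pr (fun z => ¬ Good r θ ρ g (mix R (mix T x z) y))) :=
      av_mono fun y => pr_exists _ _
    refine h1.trans ?_
    rw [av_sum]
    refine sum_le_K _ _ _ (by positivity) fun R _ => ?_
    have h2 : av (fun y => pr (fun z => ¬ Good r θ ρ g (mix R (mix T x z) y))) =
        pr (fun y => ¬ Good r θ ρ g (mix (T ∩ R) x y)) := by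
      unfold pr
      rw [av_comm]
      simp only [mix_inter]
      have h0 := av_av_mix R (fun w => if ¬ Good r θ ρ g (mix (T ∩ R) x w) then (1 : ℝ) else 0)
      convert h0
    rw [h2]
    exact good_mix hg hθ hρ hρ1 hx (T ∩ R)
      ((card_le_card inter_subset_left).trans (mem_filter.1 hT).2)
  obtain ⟨y, hy⟩ := exists_le_av (fun y => f1 y + 1 / η₁ * f2 y)
  rw [av_add, av_mul] at hy
  have h3 : f1 y + 1 / η₁ * f2 y < 1 := by
    have h4 : 1 / η₁ * av f2 ≤ 1 / η₁ * (K * (K * (K * (K * ρ)))) :=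
      mul_le_mul_of_nonneg_left ha2 (by positivity)
    have h5 : K * (K * ρ) + 1 / η₁ * (K * (K * (K * (K * ρ)))) < 1 := by
      refine lt_of_le_of_lt (le_of_eq ?_) hsm
      ring
    linarith
  have hn1 : ∀ T ∈ Fr, 0 ≤ (if ¬ Good r θ ρ g (mix T x y) then (1 : ℝ) else 0) := by
    intro T _
    split_ifs
    · exact le_refl _
    · exact zero_le_one
  have hf1n : 0 ≤ f1 y := sum_nonneg hn1
  have hf2n : 0 ≤ f2 y := sum_nonneg fun T _ => sum_nonneg fun S _ => pr_nonneg _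
  refine ⟨y, fun T hT => ?_, fun T S hT => ?_⟩
  · by_contra hcon
    have h6 : (1 : ℝ) ≤ f1 y := by
      calc (1 : ℝ) = (if ¬ Good r θ ρ g (mix T x y) then (1 : ℝ) else 0) := by rw [if_pos hcon]
        _ ≤ f1 y := single_le_sum (f := fun T => if ¬ Good r θ ρ g (mix T x y) then (1 : ℝ) else 0)
            hn1 (mem_filter.2 ⟨mem_univ _, hT⟩)
    have h7 : 0 ≤ 1 / η₁ * f2 y := by positivity
    linarith
  · have h6 : pr (fun z => ∃ R ∈ S.powerset, ¬ Good r θ ρ g (mix R (mix T x z) y)) ≤ f2 y := by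
      calc _ ≤ ∑ S ∈ (univ : Finset (Finset ι)),
            pr (fun z => ∃ R ∈ S.powerset, ¬ Good r θ ρ g (mix R (mix T x z) y)) :=
            single_le_sum (f := fun S : Finset ι =>
              pr (fun z => ∃ R ∈ S.powerset, ¬ Good r θ ρ g (mix R (mix T x z) y)))
              (fun S _ => pr_nonneg _) (mem_univ S)
        _ ≤ f2 y := single_le_sum (f := fun T : Finset ι => ∑ S ∈ (univ : Finset (Finset ι)),
              pr (fun z => ∃ R ∈ S.powerset, ¬ Good r θ ρ g (mix R (mix T x z) y)))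
              (fun T _ => sum_nonneg fun S _ => pr_nonneg _) (mem_filter.2 ⟨mem_univ _, hT⟩)
    have h7 : 1 / η₁ * f2 y < 1 := by linarith
    rw [one_div, inv_mul_lt_iff₀ hη₁, mul_one] at h7
    exact h6.trans h7.le

end main

end Pool.Agent.T9h42.GF.Rob
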