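import Mathlib

/-!
# `SpanDual (k(x))` for FINITE `k`, all weights: definitions and the pieces of the proof

`q = #k`, `A = k[X]`. Every piece is a `def ... : Prop` with a sketch of its proof.
-/

set_option autoImplicit false

namespace Pool.Agent.T9h42.GF

open Polynomial Finset

/-! ## 1. Dispersion (product probability spaces) -/

section prob

variable {ι : Type} [Fintype ι] [DecidableEq ι] {Ω : ι → Type} [∀ i, Fintype (Ω i)]

/-- coordinates in `T` from `x`, the others from `y`. -/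
def mix (T : Finset ι) (x y : ∀ i, Ω i) : ∀ i, Ω i := fun i => if i ∈ T then x i else y i

/-- average. -/
noncomputable def av (f : (∀ i, Ω i) → ℝ) : ℝ := (∑ y, f y) / Fintype.card (∀ i, Ω i)

/-- conditional expectation given the coordinates in `T`. -/
noncomputable def ce (T : Finset ι) (f : (∀ i, Ω i) → ℝ) (x : ∀ i, Ω i) : ℝ :=
  av (fun y => f (mix T x y))

/-- `F` is a sum of functions of at most `r` coordinates. -/
def Deg (r : ℕ) (F : (∀ i, Ω i) → ℝ) : Prop :=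
  ∃ G : Finset ι → (∀ i, Ω i) → ℝ, (∀ S x y, (∀ i ∈ S, x i = y i) → G S x = G S y) ∧
    ∀ x, F x = ∑ S ∈ univ.filter (fun S : Finset ι => S.card ≤ r), G S x

end prob

/-- PIECE `Robust`. If all marginals of `W ≥ 0` on at most `2r` coordinates are close to `1` in
`L¹`, and `F` (a sum of functions of at most `r` coordinates) vanishes on the support of `W`,
then `F` vanishes outside a set of probability at most `η`.

Proof. Let `g x = ∑_{|U| ≤ 2r} |ce U W x - 1|`, `b_T = ce T g` (so `b_T` is a martingale in `T`),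
`θ, ρ` small, `G = {x : b_T(x) ≤ θ ρ^(r-|T|) for all |T| ≤ r}`. By Markov `P(not G) ≤ #T E[g]/(θ ρ^r)`,
and for `x ∈ G` and `|T| ≤ r`, `P_y(mix T x y ∉ G) ≤ (number of sets) ρ` (Markov for each `T''` not
contained in `T`, conditionally on the coordinates in `T ∩ T''`; here `b_{T''}` has conditional mean
`b_{T ∩ T''}(x) ≤ θ ρ^(r-|T ∩ T''|)`). Claim: `F = 0` on `G`. Let `x` maximise `|F|` on `G`, `M` the
maximum. Choose `y` such that `mix T x y ∈ G` for all `|T| ≤ r` and such that for all `|T|, |S| ≤ r`,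
`P_z(mix R (mix T x z) y ∉ G for some R ⊆ S) ≤ η₁` (Markov + union bound). Put
`F_S(z) = ∑_{T ⊆ S} (-1)^(|S|-|T|) F (mix T z y)`; `F = ∑_{|S| ≤ r} F_S` (as `F` has degree `≤ r`),
`F_S` depends only on the coordinates in `S` and `|F_S| ≤ 2^r M` on
`A_S = {z : mix R z y ∈ G for all R ⊆ S}`. As `F W = 0`:
`0 = E[W F 1{z ∈ A_S for all S} | x_T]`, and the marginals of `W` on `S ∪ T` given `x_T` are
`θ`-close to `1` in `L¹`, so `H = ∑_S F_S 1_{A_S}` satisfies `|ce T H x| ≤ C (θ + η₁) M` for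
`|T| ≤ r`. As `H` has degree `≤ r`, `H x` is a bounded combination of the `ce T H x`, `|T| ≤ r`
(`H x = ∑_{|R| ≤ r} ∑_{T ⊆ R} (-1)^(|R|-|T|) ce T H x`), and `H x = F x`. So `M ≤ C' (θ+η₁) M`,
`M = 0`. -/
def Robust : Prop :=
  ∀ (n r : ℕ) (η : ℝ), 0 < η → ∃ δ : ℝ, 0 < δ ∧
    ∀ (ι : Type) [Fintype ι] [DecidableEq ι] (Ω : ι → Type) [∀ i, Fintype (Ω i)]
      [∀ i, Nonempty (Ω i)], Fintype.card ι ≤ n →
    ∀ W F : (∀ i, Ω i) → ℝ, (∀ x, 0 ≤ W x) →
      (∀ U : Finset ι, U.card ≤ 2 * r → av (fun x => |ce U W x - 1|) ≤ δ) →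
      Deg r F → (∀ x, W x ≠ 0 → F x = 0) →
      av (fun x => if F x = 0 then 0 else 1) ≤ η

/-! ## 2. Combinatorics of multisets -/

/-- iterated differences `∑ ± f (one of each pair, + M)`. -/
def Dl {Z : Type} (f : Multiset Z → ℚ) : List (Z × Z) → Multiset Z → ℚ
  | [], M => f M
  | (p :: P), M => Dl f P (p.1 ::ₘ M) - Dl f P (p.2 ::ₘ M)

/-- PIECE `Comb`.
Proof. `Z` infinite.
(K) for `|P| = a ≤ m+1` and distinct `y_1, ..., y_{m+1-a}, y` not occurring in `P`: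
`Dl (s · y) P {y_1, ..., y_{m+1-a}} = 0`, by downward induction on `a`. `a = m+1` is the hypothesis
with `N = {y}`. For `a ≤ m`: by (K) for `a+1` with the extra pair `(y_1, y_1')` the value does not
change when some `y_i` is replaced by another fresh element; so it only depends on `y`, `= κ(y)`;
the hypothesis with `N = {y_1, ..., y_{m+2-a}}` distinct gives `∑ κ(y_j) = 0` for all such `N`,
`|N| ≥ 2`; hence `κ` is constant and `0`.
(L) `s M p = 0` if `p ∉ M`, `|M| = m+1`: for `M = {p_1, ...}` take fresh distinct `τ_i`; expand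
`s({p_i}; p) = ∑_S Dl ((p_i,τ_i)_{i ∈ S}) {τ_i}_{i ∉ S}`, each term is `0` by (K).
(M) `M = {p_1..p_l} + (k-1){p}`, `p_i ≠ p`, `k ≥ 2`, `l+k = m+2`: again
`s(M; p) = ∑_S Dl (s · p) ((p_i,τ_i)_{i ∈ S}) ({τ_i}_{i ∉ S} + (k-1){p})`; the hypothesis for
`P = (p_i,τ_i)_{i ∈ S}`, `N = {τ_i}_{i ∉ S} + k{p}` says `k * (this term) +` (terms with last
argument `τ_i`, which vanish by (L)) `= 0`. -/
def Comb : Prop :=
  ∀ (Z : Type) [Infinite Z] [DecidableEq Z] (m : ℕ) (s : Multiset Z → Z → ℚ),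
    (∀ (P : List (Z × Z)) (N : Multiset Z), P.length + N.card = m + 2 → N ≠ 0 →
      (∀ p ∈ P, p.1 ∉ N ∧ p.2 ∉ N) →
      (N.map (fun v => Dl (fun M => s M v) P (N.erase v))).sum = 0) →
    ∀ (M : Multiset Z) (v : Z), M.card = m + 1 → s M v = 0

/-! ## 3. Polarisation -/

/-- iterated differences. -/
def dl {V : Type} [AddCommGroup V] (f : V → ℚ) : List V → V → ℚ
  | [], x => f x
  | (a :: L), x => dl f L (x + a) - dl f L x

/-- iterated differences of a function of two variables along pairs. -/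
def dl2 {V : Type} [AddCommGroup V] (f : V → V → ℚ) : List (V × V) → V → V → ℚ
  | [], x, y => f x y
  | (p :: L), x, y => dl2 f L (x + p.1) (y + p.2) - dl2 f L x y

/-- PIECE `Pol1`: the `(m+2)`-fold differences of `w ↦ Q(w,...,w)` (`m+1` arguments) vanish. -/
def Pol1 : Prop :=
  ∀ (m : ℕ) (V : Type) [AddCommGroup V]
    (Q : MultilinearMap ℤ (fun _ : Fin (m + 1) => V) ℚ) (L : List V) (x : V),
    L.length = m + 2 → dl (fun w => Q (fun _ => w)) L x = 0

/-- PIECE `Pol2`: expansion of the `(m+2)`-fold difference of `(w,v) ↦ Q(w,...,w;v)`. Uses `Pol1`. -/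
def Pol2 : Prop :=
  ∀ (m : ℕ) (V : Type) [AddCommGroup V]
    (Q : MultilinearMap ℤ (fun _ : Fin (m + 1) => V) (V →ₗ[ℤ] ℚ)) (L : List (V × V)) (g h : V),
    L.length = m + 2 →
    dl2 (fun w v => Q (fun _ => w) v) L g h =
      ∑ i : Fin L.length,
        dl (fun w => Q (fun _ => w) (L.get i).2) ((L.eraseIdx i).map Prod.fst) 0

/-! ## 4. Counting polynomials over `k` -/

section pol

variable {k : Type} [Field k] [Fintype k]

open Classical in
/-- all `x` with `deg (x - g) < D`. -/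
noncomputable def Box (g : k[X]) (D : ℕ) : Finset k[X] :=
  (univ : Finset (Fin D → k)).image (fun v => g + ∑ i : Fin D, C (v i) * X ^ (i : ℕ))

open Classical in
/-- monic polynomials of degree `D`, prime to `M`. -/
noncomputable def Cop (M : k[X]) (D : ℕ) : Finset k[X] := (Box (X ^ D) D).filter (IsCoprime · M)

open Classical in
/-- monic divisors of `h`. -/
noncomputable def mdiv (h : k[X]) : Finset k[X] :=
  ((range (h.natDegree + 1)).biUnion (fun D => Box (X ^ D) D)).filter (· ∣ h)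

end pol

/-- PIECE `BoxMem`. -/
def BoxMem : Prop :=
  ∀ (k : Type) [Field k] [Fintype k],
    (∀ (g x : k[X]) (D : ℕ), x ∈ Box g D ↔ (x - g).degree < D) ∧
    (∀ (x : k[X]) (D : ℕ), x ∈ Box (X ^ D : k[X]) D ↔ x.Monic ∧ x.natDegree = D) ∧
    (∀ (M x : k[X]) (D : ℕ), x ∈ Cop M D ↔ x.Monic ∧ x.natDegree = D ∧ IsCoprime x M) ∧
    (∀ (h g : k[X]), h ≠ 0 → (g ∈ mdiv h ↔ g.Monic ∧ g ∣ h)) ∧
    (∀ (g : k[X]) (D : ℕ), (Box g D).card = Fintype.card k ^ D)

/-- PIECE `BoxCount`: a residue class modulo `n` in a box of size `D ≥ deg n`. -/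
def BoxCount : Prop :=
  ∀ (k : Type) [Field k] [Fintype k] (n r g : k[X]) (D : ℕ), n ≠ 0 → n.natDegree ≤ D →
    {x ∈ (Box g D : Set k[X]) | n ∣ x - r}.ncard = Fintype.card k ^ (D - n.natDegree)

/-- PIECE `BoxCop`: elements prime to `M` in boxes (`D ≥ deg M`). -/
def BoxCop : Prop :=
  ∀ (k : Type) [Field k] [Fintype k] (M : k[X]), M ≠ 0 → ∃ φ : ℕ, 0 < φ ∧
    ∀ (g w : k[X]) (D : ℕ), M.natDegree ≤ D →
    {x ∈ (Box g D : Set k[X]) | IsCoprime (x - w) M}.ncard =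
      φ * Fintype.card k ^ (D - M.natDegree)

/-- PIECE `DivCount`: elements of `Cop M D` divisible by `g`. -/
def DivCount : Prop :=
  ∀ (k : Type) [Field k] [Fintype k] (M : k[X]), M ≠ 0 → ∀ (g : k[X]) (D : ℕ), g.Monic →
    IsCoprime g M → M.natDegree ≤ D →
    ((M.natDegree + g.natDegree ≤ D →
      {x ∈ (Cop M D : Set k[X]) | g ∣ x}.ncard * Fintype.card k ^ g.natDegree = (Cop M D).card) ∧
    ({x ∈ (Cop M D : Set k[X]) | g ∣ x}.ncard * Fintype.card k ^ g.natDegree ≤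
      Fintype.card k ^ M.natDegree * (Cop M D).card))

/-- PIECE `LocCount` (uses `BoxCount`, `BoxCop`). Number of `x ∈ Cop (αβ) d`, `x ≡ ρ mod h`, such
that `c = α'' x + β z` with `z ∈ Cop (αβ) E`; here `α ∣ α''`.
Proof. `x ≡ ρ (h)`, `x ≡ c/α'' (β)`: `x = x₀ + hβw`, `z = z₀ - α'' h w`. The degree condition says
that `x` is in a box of size `d - δ`, `δ = L - E - deg β` (centre: the quotient of `c - βX^E` by
`α''`), so `w` runs over a box of size `d - δ - deg h - deg β`. `x` prime to `β`, `z` prime to `α`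
are automatic (`c` is prime to `αβ`), `x` prime to `α` and `z` prime to `β` mean: `w - w₀` prime to
`αβ`, where `w₀ ≡ -x₀/(hβ) (α)`, `w₀ ≡ z₀/(α'' h) (β)`. Now use `BoxCop`. -/
def LocCount : Prop :=
  ∀ (k : Type) [Field k] [Fintype k] (α β α'' h c ρ : k[X]) (L E d : ℕ),
    α.Monic → β.Monic → α''.Monic → h.Monic → IsCoprime α'' β → α ∣ α'' →
    IsCoprime h (α * β) → c ∈ Cop (α * β) L → α''.natDegree + d = L → β.natDegree + E < L →
    L + h.natDegree + (α * β).natDegree ≤ E + d →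
    {x ∈ (Cop (α * β) d : Set k[X]) | h ∣ x - ρ ∧ ∃ z ∈ Cop (α * β) E, c = α'' * x + β * z}.ncard *
      Fintype.card k ^ (h.natDegree + (L - E)) = (Cop (α * β) d).card

/-- PIECE `Tau`: rough polynomials have few divisors. (Induction on the degree:
`#mdiv (π h) ≤ 2 #mdiv h` for `π` irreducible.) -/
def Tau : Prop :=
  ∀ (k : Type) [Field k] [Fintype k] (w : ℕ) (h : k[X]), 0 < w → h ≠ 0 →
    (∀ π : k[X], Irreducible π → π ∣ h → w ≤ π.natDegree) →
    (mdiv h).card ≤ 2 ^ (h.natDegree / w)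

/-- PIECE `DivProd`: if `P(g ∣ x_i) ≤ B / |g|` for all monic `g ∣ h` then
`P(h ∣ ∏ x_i) ≤ τ(h)^(j-1) B^j / |h|` (we write `τ^j`). Induction on `j`:
`h ∣ x y ⟹ h/g ∣ y` for `g = gcd(h,x)`. -/
def DivProd : Prop :=
  ∀ (k : Type) [Field k] [Fintype k] (h : k[X]) (S : Finset k[X]) (B : ℝ) (j : ℕ), h.Monic →
    0 ≤ B → (∀ g : k[X], g.Monic → g ∣ h →
      (({x ∈ (S : Set k[X]) | g ∣ x}.ncard : ℕ) : ℝ) * (Fintype.card k : ℝ) ^ g.natDegree
        ≤ B * S.card) →
    (({x : Fin j → k[X] | (∀ i, x i ∈ S) ∧ h ∣ ∏ i, x i}.ncard : ℕ) : ℝ) *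
      (Fintype.card k : ℝ) ^ h.natDegree ≤ ((mdiv h).card : ℝ) ^ j * B ^ j * (S.card : ℝ) ^ j

/-- `h` is the conductor of the additive character `χ` of `k[X]`. -/
def Cond {k : Type} [Field k] (χ : AddChar k[X] ℂ) (h : k[X]) : Prop :=
  h.Monic ∧ (∀ f, χ (h * f) = 1) ∧ ∀ h', (∀ f, χ (h' * f) = 1) → h ∣ h'

open Classical in
/-- PIECE `Sieve` (large sieve inequality over `k[X]`). `a` is supported on the finite set `S` of
polynomials of degree `< H`; the `b`'s are `B t`, `t ∈ Θ` (finite set), monic of degree `≤ Bd` and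
prime to `M`; `G h` bounds `∑ a_f χ(f)` for all `χ` of conductor `h`, `1 ≤ deg h ≤ D₀`;
`p n` bounds `#{t : h ∣ B t}` for `deg h = n`.

Proof. `∑_{f,f'} a a' [b ∣ f-f'] |b| = ∑_{χ trivial on (b)} |â(χ)|²`. Each `χ` trivial on some
`(b)`, `b ≠ 0`, has a conductor (the ideal `{h : χ(hf) = 1 ∀ f}` is principal) and is trivial on
`(b)` iff its conductor divides `b`. Sum over `t` and split according to the degree `n` of the
conductor: `n = 0`: `χ = 1`. `n ≤ D₀`: there are at most `q^n` characters of conductor `h`.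
`n > D₀`: the characters of conductor of degree `n` are distinct as characters of the group of
polynomials of degree `< H_n = max(2n,H)` (if `χ₁ = χ₂` there, `χ₁/χ₂` is trivial on `(h₁h₂)` and on
polynomials of degree `< 2n`, so trivial), so `∑ |â(χ)|² ≤ q^(H_n) ∑ a²`. -/
def Sieve : Prop :=
  ∀ (k : Type) [Field k] [Fintype k] (M : k[X]) (S : Finset k[X]) (a : k[X] → ℝ) (H : ℕ)
    (Θ : Type) [Fintype Θ] (B : Θ → k[X]) (Bd D₀ : ℕ) (G : k[X] → ℝ) (p : ℕ → ℝ),
    (∀ f ∈ S, f.degree < H) → (∀ f, 0 ≤ a f) →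
    (∀ t, (B t).Monic ∧ (B t).natDegree ≤ Bd ∧ IsCoprime (B t) M) →
    (∀ (χ : AddChar k[X] ℂ) (h : k[X]), Cond χ h → 1 ≤ h.natDegree → h.natDegree ≤ D₀ →
      IsCoprime h M → ‖∑ f ∈ S, (a f : ℂ) * χ f‖ ≤ G h) →
    (∀ h : k[X], h.Monic → IsCoprime h M → D₀ < h.natDegree →
      (({t | h ∣ B t}.ncard : ℕ) : ℝ) ≤ p h.natDegree) →
    (∀ n, 0 ≤ p n) →
    ∑ t, (Fintype.card k : ℝ) ^ (B t).natDegree *
        ∑ f ∈ S, ∑ f' ∈ S, (if B t ∣ f - f' then a f * a f' else 0) ≤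
      (Fintype.card Θ : ℝ) * (∑ f ∈ S, a f) ^ 2 +
      ∑ h ∈ ((Icc 1 D₀).biUnion (fun n => Cop M n)),
        (({t | h ∣ B t}.ncard : ℕ) : ℝ) * (Fintype.card k : ℝ) ^ h.natDegree * G h ^ 2 +
      ∑ n ∈ Icc (D₀ + 1) Bd, p n * (Fintype.card k : ℝ) ^ (max (2 * n) H) * ∑ f ∈ S, a f ^ 2

end Pool.Agent.T9h42.GF
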