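import Pool.Agent.T9h42.GF.Spec2

/-!
# The core estimate: statements
-/

set_option autoImplicit false

namespace Pool.Agent.T9h42.GF

open Polynomial Finset H39Gon

open Classical in
/-- normalised number of solutions `(v, y)`, `v ∈ X^n`, `y ∈ Y`, of `α₁ ∏ v + β b₁ y = c`. -/
noncomputable def wn {k : Type} [Field k] (C X Y : Finset k[X]) (n : ℕ) (β α₁ b₁ c : k[X]) : ℝ :=
  (C.card : ℝ) * ((((Fintype.piFinset (fun _ : Fin n => X)) ×ˢ Y).filter
    (fun v => α₁ * ∏ i, v.1 i + β * (b₁ * v.2) = c)).card : ℝ) / ((X.card : ℝ) ^ n * Y.card)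

/-- the core estimate: `2r` of the `x`-slots (`u`), all but one of the `y`-slots (`t`) and `c` are
fixed, `2r(2r+1)` `x`-slots and one `y`-slot are free. -/
def Core : Prop :=
  ∀ (k : Type) [Field k] [Fintype k] (r : ℕ) (ε : ℝ), 1 ≤ r → 0 < ε → ∃ w : ℕ,
    ∀ (α β : k[X]), α.Monic → β.Monic → IsCoprime α β →
      (∀ π : k[X], Irreducible π → π.natDegree ≤ w → π ∣ α * β) →
    ∀ j : ℕ, β.natDegree < α.natDegree + 2 * r * j → ∃ d₀ : ℕ, ∀ d : ℕ, d₀ ≤ d →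
    ∀ X Y C : Finset k[X], X = Cop (α * β) d → Y = Cop (α * β) ((2 * r + 2) * d - j) →
      C = Cop (α * β) (α.natDegree + 2 * r * (2 * r + 2) * d) →
      0 < X.card ∧ 0 < Y.card ∧ 0 < C.card ∧
      ∑ u ∈ Fintype.piFinset (fun _ : Fin (2 * r) => X),
        ∑ t ∈ Fintype.piFinset (fun _ : Fin (2 * r - 1) => Y),
          ∑ c ∈ C, |wn C X Y (2 * r * (2 * r + 1)) β (α * ∏ i, u i) (∏ i, t i) c - 1|
        ≤ ε * (X.card : ℝ) ^ (2 * r) * (Y.card : ℝ) ^ (2 * r - 1) * C.card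

/-- PIECE `CountOfCore` (pure bookkeeping). `s = 2r`, `N = 2r(2r+2)`, `Ω = ∏ Pt`, `W = Wf ...`.
(S0) `α a + β b ∈ Cop (αβ) L` for monic `a`, `b` prime to `αβ` of degrees `N d`, `s e`
(`deg (β b) < deg (α a)`).
(S1) if `none ∉ U` then `ce U W x = 1` (average over the coordinate `none` first, `S0`).
(S2) if `none ∈ U` then (`|U| ≤ 2r`) `U ⊆ U'`, where the complement of `U'` consists of
`2r(2r+1)` `x`-slots and one `y`-slot, and `av |ce U W - 1| ≤ av |ce U' W - 1|`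
(`ce U (ce U' f) = ce U f`, `av (ce U f) = av f`).
(S3) reindexing (`Equiv.piOptionEquivProd`, `Equiv.sumArrowEquivProdArrow`, ...): for `x ∈ Ω`,
`ce U' W x = wn C X Y (2r(2r+1)) β (α ∏_{x-slots in U'} x_i) (∏_{y-slots in U'} y_j) (x none)`,
and `av |ce U' W - 1|` is the normalised triple sum in `Core`. -/
def CountOfCore : Prop := BoxMem → Core → CountThm

open Classical in
/-- PIECE `NonCop` (from `BoxMem`, `DivCount`): few pairs are not coprime.
If `x`, `y` are not coprime there is a monic irreducible `π ∣ x, y`; `π` is prime to `M`, so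
`deg π = n > w`. Sum over `π` (at most `q^n` of degree `n`): for `n + deg M ≤ min (D₁, D₂)` the number
of pairs is `≤ |..||..| q^(-2n)`, for larger `n` (`n ≤ min (D₁, D₂)`) `≤ q^(2 deg M) |..||..| q^(-2n)`.
Total `≤ (∑_{n > w} q^(-n) + q^(2 deg M) ∑_{n > min - deg M} q^(-n)) |..||..|`. -/
def NonCop : Prop :=
  ∀ (k : Type) [Field k] [Fintype k] (ε : ℝ), 0 < ε → ∃ w₀ : ℕ, ∀ w : ℕ, w₀ ≤ w →
    ∀ M : k[X], M ≠ 0 → (∀ π : k[X], Irreducible π → π.natDegree ≤ w → π ∣ M) →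
    ∃ d₀ : ℕ, ∀ D₁ D₂ : ℕ, d₀ ≤ D₁ → d₀ ≤ D₂ →
      (((Cop M D₁ ×ˢ Cop M D₂).filter (fun p => ¬ IsCoprime p.1 p.2)).card : ℝ) ≤
        ε * (Cop M D₁).card * (Cop M D₂).card

end Pool.Agent.T9h42.GF
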